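import Mathlib

/-!
Analytic tools: global solutions of bounded Lipschitz equations, periodic functions,
periodic smooth gluing.
-/

namespace Pool.Agent.Lib.MP_fac2a6_gt

open Set Filter Topology Metric Function
open scoped Manifold ContDiff NNReal

theorem exists_global {E : Type*} [NormedAddCommGroup E] [NormedSpace ℝ E] [CompleteSpace E]
    {Z : E → E} {K L : ℝ≥0} (hK : LipschitzWith K Z) (hL : ∀ y, ‖Z y‖ ≤ L) (x : E) :
    ∃ α : ℝ → E, α 0 = x ∧ ∀ t, HasDerivAt α (Z (α t)) t := by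
  have h1 : ∀ n : ℕ, ∃ α : ℝ → E, α 0 = x ∧
      ∀ t ∈ Ioo (-((n:ℝ) + 1)) (n + 1), HasDerivAt α (Z (α t)) t := by
    intro n
    have hn : (0:ℝ) < n + 1 := by positivity
    have hpl : IsPicardLindelof (fun _ => Z) (tmin := -((n:ℝ) + 1)) (tmax := n + 1)
        ⟨0, by constructor <;> linarith⟩ x (L * (n + 1)) 0 L K :=
      ⟨fun _ _ => hK.lipschitzOnWith, fun _ _ => continuousOn_const, fun _ _ y _ => hL y, by
        simp⟩
    obtain ⟨α, h0, hα⟩ := hpl.exists_eq_forall_mem_Icc_hasDerivWithinAt₀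
    exact ⟨α, h0, fun t ht =>
      (hα t (Ioo_subset_Icc_self ht)).hasDerivAt (Icc_mem_nhds ht.1 ht.2)⟩
  choose α h0 hα using h1
  have h2 : ∀ m n : ℕ, m ≤ n → EqOn (α m) (α n) (Ioo (-((m:ℝ) + 1)) (m + 1)) := by
    intro m n hmn
    have hm : (0:ℝ) < m + 1 := by positivity
    have hmn' : (m:ℝ) ≤ n := by exact_mod_cast hmn
    refine ODE_solution_unique_of_mem_Ioo (v := fun _ => Z) (s := fun _ => univ) (K := K)
      (t₀ := 0) (fun _ _ => hK.lipschitzOnWith) ⟨by linarith, hm⟩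
      (fun t ht => ⟨hα m t ht, trivial⟩)
      (fun t ht => ⟨hα n t ⟨by linarith [ht.1], by linarith [ht.2]⟩, trivial⟩) ?_
    rw [h0, h0]
  have h3 : ∀ t : ℝ, t ∈ Ioo (-((⌈|t|⌉₊:ℝ) + 1)) (⌈|t|⌉₊ + 1) := fun t => by
    have := Nat.le_ceil |t|
    constructor <;> linarith [le_abs_self t, neg_abs_le t]
  have h4 : ∀ (n : ℕ) (t : ℝ), t ∈ Ioo (-((n:ℝ) + 1)) (n + 1) → α ⌈|t|⌉₊ t = α n t := by
    intro n t ht
    rcases le_total ⌈|t|⌉₊ n with h | h
    · exact h2 _ _ h (h3 t)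
    · exact (h2 _ _ h ht).symm
  refine ⟨fun t => α ⌈|t|⌉₊ t, h0 _, fun t => ?_⟩
  refine (hα _ t (h3 t)).congr_of_eventuallyEq ?_
  filter_upwards [Ioo_mem_nhds (h3 t).1 (h3 t).2] with s hs
  exact h4 _ s hs

/-- An integer vector seen as a real vector. -/
def zc {d : ℕ} (n : Fin d → ℤ) : Fin d → ℝ := fun i => ((n i : ℤ) : ℝ)

lemma zc_add {d : ℕ} (m n : Fin d → ℤ) : zc (m + n) = zc m + zc n := by
  funext i; simp [zc]

lemma zc_neg {d : ℕ} (m : Fin d → ℤ) : zc (-m) = -zc m := by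
  funext i; simp [zc]

lemma zc_sub {d : ℕ} (m n : Fin d → ℤ) : zc (m - n) = zc m - zc n := by
  funext i; simp [zc]

lemma zc_zero {d : ℕ} : zc (0 : Fin d → ℤ) = 0 := by
  funext i; simp [zc]

lemma zc_injective {d : ℕ} : Injective (zc : (Fin d → ℤ) → Fin d → ℝ) := by
  intro m n h
  funext i
  have := congrFun h i
  simpa [zc] using this

lemma exists_reduce {d : ℕ} (y : Fin d → ℝ) :
    ∃ (n : Fin d → ℤ) (y0 : Fin d → ℝ), ‖y0‖ ≤ 1 ∧ y = y0 + zc n := by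
  refine ⟨fun i => ⌊y i⌋, fun i => Int.fract (y i), ?_, ?_⟩
  · rw [pi_norm_le_iff_of_nonneg zero_le_one]
    intro i
    rw [Real.norm_eq_abs, abs_of_nonneg (Int.fract_nonneg _)]
    exact (Int.fract_lt_one _).le
  · funext i
    simp [zc]

lemma finite_zc {d : ℕ} (R : ℝ) : {n : Fin d → ℤ | ‖zc n‖ ≤ R}.Finite := by
  refine (Set.Finite.pi' (fun _ : Fin d => Set.finite_Icc (-⌈R⌉) ⌈R⌉)).subset fun n hn i => ?_
  have h1 : |((n i : ℤ) : ℝ)| ≤ R := (norm_le_pi_norm (zc n) i).trans hn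
  have h2 := Int.le_ceil R
  rw [abs_le] at h1
  constructor
  · have : ((-⌈R⌉ : ℤ) : ℝ) ≤ n i := by push_cast; linarith
    exact_mod_cast this
  · have : ((n i : ℤ) : ℝ) ≤ (⌈R⌉ : ℤ) := by linarith
    exact_mod_cast this

lemma isClosed_range_zc {d : ℕ} : IsClosed (range (zc : (Fin d → ℤ) → Fin d → ℝ)) := by
  have : range (zc : (Fin d → ℤ) → Fin d → ℝ) = Set.pi univ fun _ => range (Int.cast : ℤ → ℝ) := by
    ext y
    constructor
    · rintro ⟨n, rfl⟩ i -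
      exact ⟨n i, rfl⟩
    · intro h
      choose n hn using fun i => h i (mem_univ i)
      exact ⟨n, funext hn⟩
  rw [this]
  exact isClosed_set_pi fun _ _ => Int.isClosedEmbedding_coe_real.isClosed_range

/-- Periodicity with respect to the integer lattice. -/
def Per {d : ℕ} {F : Type*} (u : (Fin d → ℝ) → F) : Prop := ∀ y n, u (y + zc n) = u y

lemma Per.bounded {d : ℕ} {F : Type*} [NormedAddCommGroup F] {u : (Fin d → ℝ) → F}
    (hu : Per u) (hc : Continuous u) : ∃ M : ℝ, 0 < M ∧ ∀ y, ‖u y‖ ≤ M := by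
  obtain ⟨M, hM⟩ := (isCompact_closedBall (0 : Fin d → ℝ) 1).exists_bound_of_continuousOn
    hc.continuousOn
  refine ⟨max M 1, by positivity, fun y => ?_⟩
  obtain ⟨n, y0, h0, rfl⟩ := exists_reduce y
  rw [hu]
  exact (hM y0 (by simpa using h0)).trans (le_max_left _ _)

lemma Per.unif {d : ℕ} {F : Type*} [NormedAddCommGroup F] {u : (Fin d → ℝ) → F}
    (hu : Per u) (hc : Continuous u) {κ : ℝ} (hκ : 0 < κ) :
    ∃ ρ : ℝ, 0 < ρ ∧ ∀ y y', ‖y' - y‖ ≤ ρ → ‖u y' - u y‖ ≤ κ := by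
  have h := (isCompact_closedBall (0 : Fin d → ℝ) 2).uniformContinuousOn_of_continuous
    hc.continuousOn
  rw [Metric.uniformContinuousOn_iff_le] at h
  obtain ⟨δ, hδ, h⟩ := h κ hκ
  refine ⟨min δ 1, by positivity, fun y y' hy => ?_⟩
  obtain ⟨n, y0, h0, rfl⟩ := exists_reduce y
  have e : y' = (y' - zc n) + zc n := by abel
  have e2 : y' - (y0 + zc n) = (y' - zc n) - y0 := by abel
  rw [e2] at hy
  rw [e, hu, hu, ← dist_eq_norm]
  refine h _ ?_ _ ?_ ?_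
  · rw [mem_closedBall_zero_iff]
    calc ‖y' - zc n‖ = ‖((y' - zc n) - y0) + y0‖ := by congr 1; abel
      _ ≤ 1 + 1 := (norm_add_le _ _).trans (add_le_add (hy.trans (min_le_right _ _)) h0)
      _ = 2 := by norm_num
  · rw [mem_closedBall_zero_iff]; linarith
  · rw [dist_eq_norm]; exact hy.trans (min_le_left _ _)

lemma Per.fderiv {d : ℕ} {F : Type*} [NormedAddCommGroup F] [NormedSpace ℝ F]
    {u : (Fin d → ℝ) → F} (hu : Per u) : Per (fderiv ℝ u) := by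
  intro y n
  rw [← fderiv_comp_add_right]
  congr 1
  funext z
  exact hu z n

lemma Per.lipschitz {d : ℕ} {F : Type*} [NormedAddCommGroup F] [NormedSpace ℝ F]
    {u : (Fin d → ℝ) → F} (hu : Per u) (hc : ContDiff ℝ 1 u) : ∃ K : ℝ≥0, LipschitzWith K u := by
  obtain ⟨M, hM0, hM⟩ := hu.fderiv.bounded (hc.continuous_fderiv one_ne_zero)
  exact ⟨⟨M, hM0.le⟩, lipschitzWith_of_nnnorm_fderiv_le (hc.differentiable one_ne_zero)
    fun y => hM y⟩

lemma finsum_shift {d : ℕ} {G : Type*} [AddCommMonoid G] (u : (Fin d → ℝ) → G) (y : Fin d → ℝ)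
    (m : Fin d → ℤ) :
    ∑ᶠ n : Fin d → ℤ, u (y + zc m + zc n) = ∑ᶠ n : Fin d → ℤ, u (y + zc n) := by
  rw [← finsum_comp_equiv (Equiv.addLeft m) (f := fun n => u (y + zc n))]
  simp only [Equiv.coe_addLeft, zc_add, add_assoc]

/-- Smooth periodic gluing. -/
theorem periodic_glue {d : ℕ} {F : Type*} [NormedAddCommGroup F] [NormedSpace ℝ F]
    (R : (Fin d → ℝ) → F → Prop) (hR : ∀ y z n, R y z → R (y + zc n) z)
    (hloc : ∀ y0, ∃ U ∈ 𝓝 y0, ∃ g : (Fin d → ℝ) → F, ContDiffOn ℝ ∞ g U ∧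
      ∀ y ∈ U, ∀ z, R y z → g y = z) :
    ∃ G : (Fin d → ℝ) → F, ContDiff ℝ ∞ G ∧ Per G ∧ ∀ y z, R y z → G y = z := by
  obtain ⟨g, hg⟩ := exists_contMDiffMap_forall_mem_convex_of_local (n := (⊤ : ℕ∞))
    𝓘(ℝ, Fin d → ℝ) (t := fun y => {w : F | ∀ z, R y z → w = z})
    (fun y => by
      intro a ha b hb s t hs ht hst z hz
      rw [ha z hz, hb z hz, ← add_smul, hst, one_smul])
    (fun y0 => by
      obtain ⟨U, hU, g, hg, h⟩ := hloc y0
      exact ⟨U, hU, g, contMDiffOn_iff_contDiffOn.2 hg, h⟩)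
  have hgc : ContDiff ℝ ∞ g := contMDiff_iff_contDiff.1 g.contMDiff
  let ψ : ContDiffBump (0 : Fin d → ℝ) := ⟨1, 2, one_pos, one_lt_two⟩
  have hlf : LocallyFinite fun n : Fin d → ℤ => support fun y => ψ (y + zc n) := by
    intro y0
    refine ⟨ball y0 1, ball_mem_nhds _ one_pos, (finite_zc (‖y0‖ + 3)).subset ?_⟩
    rintro n ⟨y, hy1, hy2⟩
    have h1 : y + zc n ∈ support ψ := hy1
    rw [ψ.support_eq, mem_ball_zero_iff] at h1
    rw [mem_ball, dist_eq_norm] at hy2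
    have h2 : ‖zc n‖ ≤ ‖y + zc n‖ + ‖y - y0‖ + ‖y0‖ := by
      calc ‖zc n‖ = ‖(y + zc n) - (y - y0) - y0‖ := by congr 1; abel
        _ ≤ _ := (norm_sub_le _ _).trans (by gcongr; exact norm_sub_le _ _)
    change ‖y + zc n‖ < 2 at h1
    change ‖zc n‖ ≤ _
    linarith
  have hsm : ∀ n : Fin d → ℤ, ContDiff ℝ ∞ fun y => ψ (y + zc n) := fun n =>
    ψ.contDiff.comp (contDiff_id.add contDiff_const)
  set Ψ : (Fin d → ℝ) → ℝ := fun y => ∑ᶠ n : Fin d → ℤ, ψ (y + zc n) with hΨ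
  set A : (Fin d → ℝ) → F := fun y => ∑ᶠ n : Fin d → ℤ, ψ (y + zc n) • g (y + zc n) with hA
  have hΨc : ContDiff ℝ ∞ Ψ := contMDiff_iff_contDiff.1
    (contMDiff_finsum (fun n => contMDiff_iff_contDiff.2 (hsm n)) hlf)
  have hAc : ContDiff ℝ ∞ A := contMDiff_iff_contDiff.1
    (contMDiff_finsum (fun n => contMDiff_iff_contDiff.2
      ((hsm n).smul (hgc.comp (contDiff_id.add contDiff_const))))
      (hlf.subset fun n y hy => left_ne_zero_of_smul hy))
  have hΨpos : ∀ y, 0 < Ψ y := by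
    intro y
    obtain ⟨n, y0, h0, rfl⟩ := exists_reduce y
    refine finsum_pos (fun _ => ψ.nonneg) ⟨-n, ?_⟩ (hlf.point_finite _)
    rw [zc_neg, add_neg_cancel_right, ψ.one_of_mem_closedBall (by simpa using h0)]
    exact one_pos
  refine ⟨fun y => (Ψ y)⁻¹ • A y, (hΨc.inv fun y => (hΨpos y).ne').smul hAc, fun y m => ?_,
    fun y z hz => ?_⟩
  · simp only [hΨ, hA]
    rw [finsum_shift (fun y => ψ y), finsum_shift (fun y => ψ y • g y)]
  · have : A y = Ψ y • z := by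
      simp only [hΨ, hA]
      rw [finsum_smul' (hlf.point_finite y)]
      exact finsum_congr fun n => by rw [hg _ z (hR y z n hz)]
    simp only [this]
    rw [smul_smul, inv_mul_cancel₀ (hΨpos y).ne', one_smul]

end Pool.Agent.Lib.MP_fac2a6_gt
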