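import Mathlib

/-! Kronecker's approximation theorem for linear flows on a finite-dimensional torus
(same text as in the library of MP_2ec64e_nt, repeated to keep the two closures apart). -/

namespace Pool.Agent.Lib.MP_fac2a6_gt.Kr

open UnitAddTorus Complex MeasureTheory intervalIntegral

variable {d : Type} [Fintype d]

noncomputable def flow (θ : d → ℝ) (t : ℝ) : UnitAddTorus d :=
  fun i => ((t * θ i : ℝ) : UnitAddCircle)

omit [Fintype d] in
lemma continuous_flow (θ : d → ℝ) : Continuous (flow θ) := by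
  unfold flow
  refine continuous_pi fun i => ?_
  exact (AddCircle.continuous_mk' 1).comp (by fun_prop)

lemma mFourier_add_pt (n : d → ℤ) (x a : UnitAddTorus d) :
    mFourier n (x + a) = mFourier n x * mFourier n a := by
  simp only [mFourier, ContinuousMap.coe_mk, Pi.add_apply, ← Finset.prod_mul_distrib]
  refine Finset.prod_congr rfl fun i _ => ?_
  simp [fourier_apply, smul_add, AddCircle.toCircle_add]

lemma mFourier_flow (θ : d → ℝ) (n : d → ℤ) (t : ℝ) :
    mFourier n (flow θ t) = cexp ((2 * Real.pi * I * ((∑ i, (n i : ℝ) * θ i : ℝ) : ℂ)) * t) := by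
  simp only [mFourier, ContinuousMap.coe_mk, flow, fourier_coe_apply]
  rw [← Complex.exp_sum]
  congr 1
  push_cast
  rw [Finset.mul_sum, Finset.sum_mul]
  refine Finset.sum_congr rfl fun i _ => by ring

lemma bounded_char (θ : d → ℝ) (hθ : LinearIndependent ℚ θ) (n : d → ℤ) (hn : n ≠ 0) :
    ∃ C : ℝ, ∀ a b : ℝ, ‖∫ t in a..b, mFourier n (flow θ t)‖ ≤ C := by
  have hs : (∑ i, (n i : ℝ) * θ i) ≠ 0 := by
    intro h
    apply hn
    have := Fintype.linearIndependent_iff.1 hθ (fun i => (n i : ℚ)) (by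
      simpa [Rat.smul_def] using h)
    funext i
    exact_mod_cast this i
  set s := ∑ i, (n i : ℝ) * θ i with hsdef
  have hc : (2 * Real.pi * I * (s : ℂ)) ≠ 0 := by
    have h1 : (Real.pi : ℂ) ≠ 0 := by exact_mod_cast Real.pi_ne_zero
    have h2 : (s : ℂ) ≠ 0 := by exact_mod_cast hs
    simp [h1, h2, I_ne_zero]
  refine ⟨2 / ‖2 * Real.pi * I * (s : ℂ)‖, fun a b => ?_⟩
  simp_rw [mFourier_flow, ← hsdef]
  rw [integral_exp_mul_complex hc, norm_div]
  apply div_le_div_of_nonneg_right _ (norm_nonneg _)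
  have hn1 : ∀ t : ℝ, ‖cexp (2 * Real.pi * I * (s : ℂ) * t)‖ = 1 := by
    intro t
    have : 2 * Real.pi * I * (s : ℂ) * t = ((2 * Real.pi * s * t : ℝ) : ℂ) * I := by
      push_cast; ring
    rw [this, Complex.norm_exp_ofReal_mul_I]
  calc _ ≤ ‖cexp (2 * Real.pi * I * (s : ℂ) * b)‖ + ‖cexp (2 * Real.pi * I * (s : ℂ) * a)‖ :=
        norm_sub_le _ _
    _ = 2 := by rw [hn1, hn1]; norm_num

omit [Fintype d] in
lemma ii (θ : d → ℝ) (f : C(UnitAddTorus d, ℂ)) (z : UnitAddTorus d) (a b : ℝ) :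
    IntervalIntegrable (fun t => f (flow θ t + z) - f (flow θ t)) volume a b := by
  apply Continuous.intervalIntegrable
  have := continuous_flow θ
  fun_prop

lemma bounded_span (θ : d → ℝ) (hθ : LinearIndependent ℚ θ) (z : UnitAddTorus d)
    (g : C(UnitAddTorus d, ℂ)) (hg : g ∈ Submodule.span ℂ (Set.range (mFourier (d := d)))) :
    ∃ C : ℝ, ∀ a b : ℝ, ‖∫ t in a..b, (g (flow θ t + z) - g (flow θ t))‖ ≤ C := by
  induction hg using Submodule.span_induction with
  | mem x hx =>
    obtain ⟨n, rfl⟩ := hx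
    by_cases hn : n = 0
    · subst hn
      exact ⟨0, fun a b => by simp [mFourier_zero]⟩
    · obtain ⟨C, hC⟩ := bounded_char θ hθ n hn
      refine ⟨‖mFourier n z - 1‖ * C, fun a b => ?_⟩
      have : ∀ t, mFourier n (flow θ t + z) - mFourier n (flow θ t)
          = (mFourier n z - 1) * mFourier n (flow θ t) := by
        intro t; rw [mFourier_add_pt]; ring
      simp_rw [this]
      rw [intervalIntegral.integral_const_mul, norm_mul]
      exact mul_le_mul_of_nonneg_left (hC a b) (norm_nonneg _)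
  | zero => exact ⟨0, fun a b => by simp⟩
  | add x y _ _ hx hy =>
    obtain ⟨C, hC⟩ := hx
    obtain ⟨D, hD⟩ := hy
    refine ⟨C + D, fun a b => ?_⟩
    have : ∀ t, (x + y) (flow θ t + z) - (x + y) (flow θ t)
        = (x (flow θ t + z) - x (flow θ t)) + (y (flow θ t + z) - y (flow θ t)) := by
      intro t; simp only [ContinuousMap.add_apply]; ring
    simp_rw [this]
    rw [intervalIntegral.integral_add (ii θ x z a b) (ii θ y z a b)]
    exact (norm_add_le _ _).trans (add_le_add (hC a b) (hD a b))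
  | smul c x _ hx =>
    obtain ⟨C, hC⟩ := hx
    refine ⟨‖c‖ * C, fun a b => ?_⟩
    have : ∀ t, (c • x) (flow θ t + z) - (c • x) (flow θ t)
        = c * (x (flow θ t + z) - x (flow θ t)) := by
      intro t; simp only [ContinuousMap.smul_apply, smul_eq_mul]; ring
    simp_rw [this]
    rw [intervalIntegral.integral_const_mul, norm_mul]
    exact mul_le_mul_of_nonneg_left (hC a b) (norm_nonneg _)

lemma almost_bounded (θ : d → ℝ) (hθ : LinearIndependent ℚ θ) (z : UnitAddTorus d)
    (f : C(UnitAddTorus d, ℂ)) (ε : ℝ) (hε : 0 < ε) :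
    ∃ C : ℝ, ∀ a T : ℝ, 0 ≤ T →
      ‖∫ t in a..a + T, (f (flow θ t + z) - f (flow θ t))‖ ≤ C + 2 * ε * T := by
  have hf : f ∈ closure (Submodule.span ℂ (Set.range (mFourier (d := d))) : Set _) := by
    rw [← Submodule.topologicalClosure_coe, span_mFourier_closure_eq_top]; trivial
  obtain ⟨g, hg, hfg⟩ := Metric.mem_closure_iff.1 hf ε hε
  obtain ⟨C, hC⟩ := bounded_span θ hθ z g hg
  refine ⟨C, fun a T hT => ?_⟩
  have : ∀ t, f (flow θ t + z) - f (flow θ t)
      = (g (flow θ t + z) - g (flow θ t)) + ((f - g) (flow θ t + z) - (f - g) (flow θ t)) := by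
    intro t; simp only [ContinuousMap.sub_apply]; ring
  simp_rw [this]
  rw [intervalIntegral.integral_add (ii θ g z _ _) (ii θ (f - g) z _ _)]
  refine (norm_add_le _ _).trans (add_le_add (hC _ _) ?_)
  have hb : ∀ t ∈ Set.uIoc a (a + T), ‖(f - g) (flow θ t + z) - (f - g) (flow θ t)‖ ≤ 2 * ε := by
    intro t _
    have h1 : ‖f - g‖ ≤ ε := by rw [← dist_eq_norm]; exact hfg.le
    have h2 := (f - g).norm_coe_le_norm (flow θ t + z)
    have h3 := (f - g).norm_coe_le_norm (flow θ t)
    have h4 := norm_sub_le ((f - g) (flow θ t + z)) ((f - g) (flow θ t))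
    linarith
  have := intervalIntegral.norm_integral_le_of_norm_le_const hb
  rwa [add_sub_cancel_left, abs_of_nonneg hT] at this

theorem flow_dense (θ : d → ℝ) (hθ : LinearIndependent ℚ θ) (z : UnitAddTorus d)
    (δ : ℝ) (hδ : 0 < δ) (T₀ : ℝ) : ∃ t, T₀ ≤ t ∧ dist (flow θ t) z < δ := by
  by_contra hcon
  push Not at hcon
  let φ : UnitAddTorus d → ℝ := fun x => max 0 (δ - dist x z)
  have hφ : Continuous φ := by fun_prop
  let f : C(UnitAddTorus d, ℂ) := ⟨fun x => (φ x : ℂ), by fun_prop⟩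
  obtain ⟨F, -, hFfin, hF⟩ := finite_cover_balls_of_compact
    (isCompact_univ (X := UnitAddTorus d)) (half_pos hδ)
  lift F to Finset (UnitAddTorus d) using hFfin
  have hε : 0 < δ / (8 * (F.card + 1)) := by positivity
  choose C hC using fun y : UnitAddTorus d => almost_bounded θ hθ (z - y) f _ hε
  set T : ℝ := (4 / δ) * (|∑ y ∈ F, C y| + 1) with hT
  have hT0 : 0 ≤ T := by positivity
  have hzero : ∀ t, T₀ ≤ t → φ (flow θ t) = 0 := by
    intro t ht
    have := hcon t ht
    simp only [φ]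
    exact max_eq_left (by linarith)
  have hcont : ∀ y, Continuous fun t => φ (flow θ t + (z - y)) := by
    intro y
    have := continuous_flow θ
    fun_prop
  have h1 : ∀ y, ∫ t in T₀..T₀ + T, φ (flow θ t + (z - y))
      ≤ C y + 2 * (δ / (8 * (F.card + 1))) * T := by
    intro y
    refine le_trans ?_ (hC y T₀ T hT0)
    have e : ∫ t in T₀..T₀ + T, (f (flow θ t + (z - y)) - f (flow θ t))
        = ((∫ t in T₀..T₀ + T, φ (flow θ t + (z - y)) : ℝ) : ℂ) := by
      rw [← intervalIntegral.integral_ofReal]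
      apply intervalIntegral.integral_congr
      intro t ht
      rw [Set.uIcc_of_le (by linarith)] at ht
      simp [f, hzero t ht.1]
    rw [e, Complex.norm_real]
    exact le_abs_self _
  have h2 : δ / 2 * T ≤ ∑ y ∈ F, ∫ t in T₀..T₀ + T, φ (flow θ t + (z - y)) := by
    rw [← intervalIntegral.integral_finsetSum (fun y _ => (hcont y).intervalIntegrable _ _)]
    have : δ / 2 * T = ∫ _ in T₀..T₀ + T, δ / 2 := by simp; ring
    rw [this]
    apply intervalIntegral.integral_mono_on (by linarith) (by simp)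
      ((continuous_finsetSum _ fun y _ => hcont y).intervalIntegrable _ _)
    intro t _
    obtain ⟨y, hy, hyt⟩ := Set.mem_iUnion₂.1 (hF (Set.mem_univ (flow θ t)))
    have hy' : y ∈ F := hy
    refine le_trans ?_ (Finset.single_le_sum (f := fun y => φ (flow θ t + (z - y)))
      (fun y _ => le_max_left _ _) hy')
    have e : dist (flow θ t + (z - y)) z = dist (flow θ t) y := by
      rw [dist_eq_norm, dist_eq_norm]; congr 1; abel
    simp only [φ, e]
    have := Metric.mem_ball.1 hyt
    exact le_max_of_le_right (by linarith)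
  have h3 : ∑ y ∈ F, ∫ t in T₀..T₀ + T, φ (flow θ t + (z - y))
      ≤ ∑ y ∈ F, C y + F.card * (2 * (δ / (8 * (F.card + 1))) * T) := by
    refine (Finset.sum_le_sum fun y _ => h1 y).trans ?_
    rw [Finset.sum_add_distrib, Finset.sum_const, nsmul_eq_mul]
  have h4 : (F.card : ℝ) * (2 * (δ / (8 * (F.card + 1))) * T) ≤ δ / 4 * T := by
    have : (F.card : ℝ) * (2 * (δ / (8 * (F.card + 1))) * T)
        = (F.card / (F.card + 1)) * (δ / 4 * T) := by field_simp; ring
    rw [this]
    apply mul_le_of_le_one_left (by positivity)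
    rw [div_le_one (by positivity)]; linarith
  have h5 : δ / 4 * T = |∑ y ∈ F, C y| + 1 := by rw [hT]; field_simp
  have h6 := le_abs_self (∑ y ∈ F, C y)
  linarith

/-- Kronecker's theorem: simultaneous inhomogeneous approximation along a linear flow. -/
theorem kronecker (θ : d → ℝ) (hθ : LinearIndependent ℚ θ) (z : d → ℝ)
    (δ : ℝ) (hδ : 0 < δ) (T₀ : ℝ) :
    ∃ t, T₀ ≤ t ∧ ∀ i, ∃ j : ℤ, |t * θ i - z i - j| < δ := by
  obtain ⟨t, ht, h⟩ := flow_dense θ hθ (fun i => ((z i : ℝ) : UnitAddCircle)) δ hδ T₀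
  refine ⟨t, ht, fun i => ⟨round (t * θ i - z i), ?_⟩⟩
  have h1 := lt_of_le_of_lt (dist_le_pi_dist _ _ i) h
  rw [dist_eq_norm] at h1
  simp only [flow] at h1
  rw [← AddCircle.coe_sub, UnitAddCircle.norm_eq] at h1
  exact h1

end Pool.Agent.Lib.MP_fac2a6_gt.Kr
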