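import Pool.Agent.Lib.MP_fac2a6_gt.Shear
import Pool.Agent.Lib.MP_fac2a6_gt.Kron

/-!
Compact sets inside boxes of at most half the volume of an irrational four-torus are displaceable.
-/

namespace Pool.Agent.Lib.MP_fac2a6_gt

open Set Filter Topology Metric Function Matrix
open scoped ContDiff

variable {W : Matrix (Fin 4) (Fin 4) ℝ}

/-- `v ξ` is the Hamiltonian vector of the integral covector `ξ`, and the dual form vanishes on
two integral covectors only when they are proportional. -/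
structure Dual (W : Matrix (Fin 4) (Fin 4) ℝ) (v : (Fin 4 → ℤ) → (Fin 4 → ℝ)) : Prop where
  ham : ∀ ξ u, v ξ ⬝ᵥ (W *ᵥ u) = zc ξ ⬝ᵥ u
  self : ∀ ξ, zc ξ ⬝ᵥ v ξ = 0
  irr : ∀ ξ η, zc η ⬝ᵥ v ξ = 0 → ∀ i j, η i * ξ j = η j * ξ i

lemma exists_dual (hW : Wᵀ = -W) (hdet : W.det ≠ 0)
    (hirr : ∀ c : Fin 4 → Fin 4 → ℚ,
      (∑ i, ∑ j, (if i < j then ((c i j : ℚ) : ℝ) * W i j else 0)) = 0 →
        ∀ i j, i < j → c i j = 0) :
    ∃ v, Dual W v := by
  have hs : ∀ i j, W j i = -W i j := fun i j => congrFun (congrFun hW i) j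
  have hd : ∀ i, W i i = 0 := fun i => by linarith [hs i i]
  set pf := W 0 1 * W 2 3 - W 0 2 * W 1 3 + W 0 3 * W 1 2 with hpf
  have hpf0 : pf ≠ 0 := by
    intro h0
    apply hdet
    have : W.det = pf ^ 2 := by
      rw [Matrix.det_succ_row_zero]
      simp only [Fin.sum_univ_four, Matrix.det_fin_three, Matrix.submatrix_apply]
      simp [Fin.succAbove, hd, hs 0 1, hs 0 2, hs 0 3, hs 1 2, hs 1 3, hs 2 3, hpf]
      ring
    rw [this, h0]; simp
  set A : Matrix (Fin 4) (Fin 4) ℝ :=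
    !![0, -W 2 3, W 1 3, -W 1 2; W 2 3, 0, -W 0 3, W 0 2;
       -W 1 3, W 0 3, 0, -W 0 1; W 1 2, -W 0 2, W 0 1, 0] with hA
  have hAs : Aᵀ = -A := by
    ext i j
    fin_cases i <;> fin_cases j <;> simp [hA]
  have hAirr : ∀ c : Fin 4 → Fin 4 → ℚ,
      (∑ i, ∑ j, (if i < j then ((c i j : ℚ) : ℝ) * A i j else 0)) = 0 →
        ∀ i j, i < j → c i j = 0 := by
    intro c hc
    have h := hirr
      !![0, -c 2 3, c 1 3, -c 1 2; 0, 0, -c 0 3, c 0 2; 0, 0, 0, -c 0 1; 0, 0, 0, 0] (by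
        refine Eq.trans ?_ hc
        simp [Fin.sum_univ_four, hA]
        ring)
    have h01 := h 0 1 (by decide)
    have h02 := h 0 2 (by decide)
    have h03 := h 0 3 (by decide)
    have h12 := h 1 2 (by decide)
    have h13 := h 1 3 (by decide)
    have h23 := h 2 3 (by decide)
    simp at h01 h02 h03 h12 h13 h23
    intro i j hij
    fin_cases i <;> fin_cases j <;> first | assumption | exact absurd hij (by decide)
  have hham : ∀ (ξ : Fin 4 → ℤ) (u : Fin 4 → ℝ),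
      ((-pf⁻¹) • (A *ᵥ zc ξ)) ⬝ᵥ (W *ᵥ u) = zc ξ ⬝ᵥ u := by
    intro ξ u
    have e : (A *ᵥ zc ξ) ⬝ᵥ (W *ᵥ u) = -pf * (zc ξ ⬝ᵥ u) := by
      simp [hA, dotProduct, mulVec, Fin.sum_univ_four, hd, hs 0 1, hs 0 2, hs 0 3, hs 1 2,
        hs 1 3, hs 2 3, hpf]
      ring
    rw [smul_dotProduct, e, smul_eq_mul]
    field_simp
  refine ⟨fun ξ => (-pf⁻¹) • (A *ᵥ zc ξ), hham, fun ξ => ?_, fun ξ η h => ?_⟩
  · have e : zc ξ ⬝ᵥ (A *ᵥ zc ξ) = 0 := by
      simp [hA, dotProduct, mulVec, Fin.sum_univ_four]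
      ring
    rw [dotProduct_smul, e, smul_zero]
  · rw [dotProduct_smul, smul_eq_mul, mul_eq_zero] at h
    exact irr_ne hAs hAirr (h.resolve_left (by simpa using hpf0))

variable {v : (Fin 4 → ℤ) → (Fin 4 → ℝ)}

lemma Dual.indep (hv : Dual W v) {P : Matrix (Fin 4) (Fin 4) ℤ} (hP : P.det ≠ 0) (i : Fin 4) :
    LinearIndependent ℚ fun j : Fin 3 => zc (P (i.succAbove j)) ⬝ᵥ v (P i) := by
  rw [← LinearIndependent.iff_fractionRing ℤ ℚ, Fintype.linearIndependent_iff]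
  intro m hm j
  set η : Fin 4 → ℤ := ∑ j, m j • P (i.succAbove j) with hη
  have h0 : zc η ⬝ᵥ v (P i) = 0 := by
    rw [← hm]
    simp only [hη, Fin.sum_univ_three, zc_add, add_dotProduct]
    have : ∀ (a : ℤ) (x : Fin 4 → ℤ), zc (a • x) ⬝ᵥ v (P i) = a • (zc x ⬝ᵥ v (P i)) := by
      intro a x
      simp [zc, dotProduct, Finset.mul_sum, mul_assoc]
    simp only [this]
  have hne : P i ≠ 0 := fun h => hP (Matrix.det_eq_zero_of_row_eq_zero i fun k => congrFun h k)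
  obtain ⟨b, hb⟩ := Function.ne_iff.1 hne
  have h1 : (Fin.insertNth i (-η b) (fun j => P i b * m j) : Fin 4 → ℤ) ᵥ* P = 0 := by
    funext a
    have h2 := hv.irr _ _ h0 a b
    simp only [vecMul, dotProduct, Pi.zero_apply]
    rw [Fin.sum_univ_succAbove _ i]
    simp only [Fin.insertNth_apply_same, Fin.insertNth_apply_succAbove]
    have h3 : η a = ∑ j, m j * P (i.succAbove j) a := by
      simp [hη, Finset.sum_apply]
    have h4 : ∑ j, P i b * m j * P (i.succAbove j) a = P i b * η a := by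
      rw [h3, Finset.mul_sum]
      exact Finset.sum_congr rfl fun _ _ => by ring
    rw [h4]
    linarith
  have h5 := congrFun (Matrix.eq_zero_of_vecMul_eq_zero hP h1) (i.succAbove j)
  simp only [Fin.insertNth_apply_succAbove, Pi.zero_apply, mul_eq_zero] at h5
  exact h5.resolve_left hb

lemma Dual.approx (hv : Dual W v) {P : Matrix (Fin 4) (Fin 4) ℤ} (hP : P.det ≠ 0) (i : Fin 4)
    (t : Fin 4 → ℝ) (ht : t i = 0) {δ : ℝ} (hδ : 0 < δ) :
    ∃ (κ : ℝ) (n : Fin 4 → ℤ), n i = 0 ∧ ∀ k, |κ * (zc (P k) ⬝ᵥ v (P i)) - t k - n k| < δ := by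
  obtain ⟨κ, -, h⟩ := Kr.kronecker _ (hv.indep hP i) (fun j => t (i.succAbove j)) δ hδ 0
  choose n hn using h
  refine ⟨κ, Fin.insertNth i 0 n, by simp, fun k => ?_⟩
  refine Fin.succAboveCases i ?_ (fun j => ?_) k
  · simpa [hv.self, ht] using hδ
  · simpa using hn j

/-- Affine lattice coordinates. -/
def crd (P : Matrix (Fin 4) (Fin 4) ℤ) (c x : Fin 4 → ℝ) : Fin 4 → ℝ :=
  fun k => zc (P k) ⬝ᵥ x - c k

lemma continuous_crd (P : Matrix (Fin 4) (Fin 4) ℤ) (c : Fin 4 → ℝ) : Continuous (crd P c) := by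
  unfold crd
  fun_prop

/-- Every compact set whose lattice coordinates lie in `U` is displaceable. -/
def Good (W : Matrix (Fin 4) (Fin 4) ℝ) (U : Set (Fin 4 → ℝ)) : Prop :=
  ∀ (P : Matrix (Fin 4) (Fin 4) ℤ) (c : Fin 4 → ℝ) (K : Set (Fin 4 → ℝ)), P.det ≠ 0 →
    IsCompact K → (∀ x ∈ K, crd P c x ∈ U) → Disp W K

lemma Good.mono {U U' : Set (Fin 4 → ℝ)} (h : Good W U') (hU : U ⊆ U') : Good W U :=
  fun P c K hP hK hx => h P c K hP hK fun x hx' => hU (hx x hx')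

lemma exists_margin {K : Set (Fin 4 → ℝ)} (hK : IsCompact K) {g : (Fin 4 → ℝ) → ℝ}
    (hg : Continuous g) {a : ℝ} (h : ∀ x ∈ K, g x < a) : ∃ r < a, ∀ x ∈ K, g x ≤ r := by
  rcases K.eq_empty_or_nonempty with rfl | hne
  · exact ⟨a - 1, by linarith, by simp⟩
  · obtain ⟨x, hx, hm⟩ := hK.exists_isMaxOn hne hg.continuousOn
    exact ⟨g x, h x hx, fun y hy => hm hy⟩

lemma good_base (hv : Dual W v) : Good W {y | |y 0| < 1 / 4 ∧ |y 1| < 1 / 2} := by
  intro P c K hP hK hx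
  obtain ⟨r, hr, hr'⟩ := exists_margin hK (g := fun x => |crd P c x 1|)
    (by have := continuous_crd P c; fun_prop) fun x hx' => (hx x hx').2
  have hu : zc (P 0) ⬝ᵥ v (P 1) ≠ 0 := (hv.indep hP 1).ne_zero 0
  set u := zc (P 0) ⬝ᵥ v (P 1) with hudef
  obtain ⟨h, hs, hp, hd⟩ := exists_profile hr (c 1) 0 (1 / (2 * u))
  refine ⟨_, ham_shear (hv.ham (P 1)) (hv.self (P 1)) hs hp, fun x hx1 y hy1 n heq => ?_⟩
  rw [hd _ (hr' x hx1)] at heq
  have e := congrArg (fun w => zc (P 0) ⬝ᵥ w) heq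
  simp only [dotProduct_add, dotProduct_smul, zc_dot, ← hudef, smul_eq_mul] at e
  have e1 : (0 * (zc (P 1) ⬝ᵥ x - c 1) + 1 / (2 * u)) * u = 1 / 2 := by field_simp; ring
  rw [e1] at e
  have h1 := (hx x hx1).1
  have h2 := (hx y hy1).1
  simp only [crd] at h1 h2
  rw [abs_lt] at h1 h2
  have h3 : (0 : ℝ) < ((P 0 ⬝ᵥ n : ℤ) : ℝ) := by linarith
  have h4 : ((P 0 ⬝ᵥ n : ℤ) : ℝ) < 1 := by linarith
  have h5 : 0 < P 0 ⬝ᵥ n := by exact_mod_cast h3
  have h6 : P 0 ⬝ᵥ n < 1 := by exact_mod_cast h4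
  omega

lemma good_step (hv : Dual W v) {U : Set (Fin 4 → ℝ)} (hU : IsOpen U) (hG : Good W U) (i : Fin 4)
    (t : Fin 4 → ℝ) (ht : t i = 0) : Good W {y | |y i| < 1 / 2 ∧ y + y i • t ∈ U} := by
  intro P c K hP hK hx
  have hc := continuous_crd P c
  obtain ⟨r, hr, hr'⟩ := exists_margin hK (g := fun x => |crd P c x i|) (by fun_prop)
    fun x hx' => (hx x hx').1
  have hK' : IsCompact ((fun x => crd P c x + crd P c x i • t) '' K) := hK.image (by fun_prop)
  obtain ⟨δ, hδ, hth⟩ := hK'.exists_thickening_subset_open hU (by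
    rintro _ ⟨x, hx', rfl⟩
    exact (hx x hx').2)
  obtain ⟨κ, n, hn0, hn⟩ := hv.approx hP i t ht hδ
  obtain ⟨h, hs, hp, hd⟩ := exists_profile hr (c i) κ 0
  refine disp_of_shear (hv.ham (P i)) (hv.self (P i)) hs hp ?_
  have hdc : Continuous (deriv h) := hs.continuous_deriv (by simp)
  refine hG (Matrix.of fun k a => P k a + (-n k) * P i a) (fun k => c k - n k * c i) _ ?_
    (hK.image (by fun_prop)) ?_
  · have e := Matrix.det_eq_of_forall_row_eq_smul_add_const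
      (A := Matrix.of fun k a => P k a + (-n k) * P i a) (B := P) (fun k => -n k) i
      (by simp [hn0]) (fun _ _ => rfl)
    rwa [e]
  · rintro _ ⟨x, hx', rfl⟩
    refine hth (mem_thickening_iff.2 ⟨_, mem_image_of_mem _ hx', ?_⟩)
    rw [dist_pi_lt_iff hδ]
    intro k
    have e0 : ∀ w : Fin 4 → ℝ, zc ((Matrix.of fun k a => P k a + (-n k) * P i a) k) ⬝ᵥ w
        = zc (P k) ⬝ᵥ w - n k * (zc (P i) ⬝ᵥ w) := by
      intro w
      simp only [zc, dotProduct, Fin.sum_univ_four, Matrix.of_apply]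
      push_cast
      ring
    have h1 := hr' x hx'
    rw [Real.dist_eq]
    simp only [crd] at h1 ⊢
    rw [hd _ h1, e0]
    simp only [dotProduct_add, dotProduct_smul, hv.self, smul_eq_mul, Pi.add_apply,
      Pi.smul_apply, crd]
    have e : zc (P k) ⬝ᵥ x + (κ * (zc (P i) ⬝ᵥ x - c i) + 0) * (zc (P k) ⬝ᵥ v (P i)) -
          n k * (zc (P i) ⬝ᵥ x + (κ * (zc (P i) ⬝ᵥ x - c i) + 0) * 0) - (c k - n k * c i) -
          (zc (P k) ⬝ᵥ x - c k + (zc (P i) ⬝ᵥ x - c i) * t k)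
        = (zc (P i) ⬝ᵥ x - c i) * (κ * (zc (P k) ⬝ᵥ v (P i)) - t k - n k) := by ring
    rw [e, abs_mul]
    have h2 := hn k
    have h3 := abs_nonneg (zc (P i) ⬝ᵥ x - c i)
    have h4 := abs_nonneg (κ * (zc (P k) ⬝ᵥ v (P i)) - t k - n k)
    nlinarith

lemma isOpen_step {U : Set (Fin 4 → ℝ)} (hU : IsOpen U) (i : Fin 4) (t : Fin 4 → ℝ) :
    IsOpen {y : Fin 4 → ℝ | |y i| < 1 / 2 ∧ y + y i • t ∈ U} :=
  (isOpen_lt (f := fun y : Fin 4 → ℝ => |y i|) (by fun_prop) continuous_const).inter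
    (hU.preimage (f := fun y : Fin 4 → ℝ => y + y i • t) (by fun_prop))

/-- The centred open box with side lengths `s`. -/
def box (s : Fin 4 → ℝ) : Set (Fin 4 → ℝ) := {y | ∀ k, |y k| < s k / 2}

lemma isOpen_box (s : Fin 4 → ℝ) : IsOpen (box s) := by
  unfold box
  rw [Set.ofPred_forall]
  exact isOpen_iInter_of_finite fun k => isOpen_lt (by fun_prop) continuous_const

lemma good_squeeze (hv : Dual W v) {s : Fin 4 → ℝ} {ε : ℝ} (hε : 0 < ε) (hε1 : ε < 1)
    {i j : Fin 4} (hij : i ≠ j) (hi : s i ≤ 1 - ε) (hj : s j ≤ (1 - ε ^ 2) * (1 - ε))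
    (hG : Good W (box fun k => if k = i then (1 - ε ^ 2) * s k else
      if k = j then s k / (1 - ε ^ 2) else s k)) : Good W (box s) := by
  set μ := 1 - ε ^ 2 with hμ
  have hμ0 : 0 < μ := by rw [hμ]; nlinarith
  have hμ1 : μ < 1 := by rw [hμ]; nlinarith
  have o4 := isOpen_box fun k => if k = i then μ * s k else if k = j then s k / μ else s k
  have g3 := good_step hv o4 hG j (Pi.single i (ε * μ)) (Pi.single_eq_of_ne hij.symm _)
  have o3 := isOpen_step o4 j (Pi.single i (ε * μ))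
  have g2 := good_step hv o3 g3 i (Pi.single j (-ε / μ)) (Pi.single_eq_of_ne hij _)
  have o2 := isOpen_step o3 i (Pi.single j (-ε / μ))
  have g1 := good_step hv o2 g2 j (Pi.single i (-ε)) (Pi.single_eq_of_ne hij.symm _)
  have o1 := isOpen_step o2 j (Pi.single i (-ε))
  have g0 := good_step hv o1 g1 i (Pi.single j ε) (Pi.single_eq_of_ne hij _)
  refine g0.mono fun y hy => ?_
  have hyi := hy i
  have hyj := hy j
  have hj' : s j ≤ 1 - ε := hj.trans (by nlinarith)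
  have e1 : y i + (y j + y i * ε) * -ε = μ * y i - ε * y j := by rw [hμ]; ring
  have e2 : y j + y i * ε + (μ * y i - ε * y j) * (-ε / μ) = y j / μ := by
    field_simp
    rw [hμ]; ring
  have e3 : μ * y i - ε * y j + y j / μ * (ε * μ) = μ * y i := by field_simp; ring
  have a2 : |y j / μ| < s j / μ / 2 := by
    rw [abs_div, abs_of_pos hμ0, div_right_comm]
    exact div_lt_div_of_pos_right hyj hμ0
  have a3 : s j / μ ≤ 1 - ε := by rw [div_le_iff₀ hμ0]; linarith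
  simp only [Set.mem_ofPred_eq, Pi.add_apply, Pi.smul_apply, Pi.single_eq_same, smul_eq_mul,
    Pi.single_eq_of_ne hij, Pi.single_eq_of_ne hij.symm, mul_zero, add_zero, e1, e2]
  have b1 := abs_lt.1 hyi
  have b2 := abs_lt.1 hyj
  refine ⟨by linarith, ?_, ?_, by linarith, fun k => ?_⟩
  · rw [abs_lt]; constructor <;> nlinarith
  · rw [abs_lt]; constructor <;> nlinarith
  · by_cases hki : k = i
    · subst hki
      simp only [Pi.add_apply, Pi.smul_apply, Pi.single_eq_same, smul_eq_mul,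
        Pi.single_eq_of_ne hij, mul_zero, add_zero, e1, e3, if_true]
      rw [abs_mul, abs_of_pos hμ0, mul_div_assoc]
      exact mul_lt_mul_of_pos_left hyi hμ0
    · by_cases hkj : k = j
      · subst hkj
        simp only [Pi.add_apply, Pi.smul_apply, Pi.single_eq_same, smul_eq_mul,
          Pi.single_eq_of_ne hki, mul_zero, add_zero, e2, if_true, if_neg hki]
        exact a2
      · simp only [Pi.add_apply, Pi.smul_apply, smul_eq_mul, Pi.single_eq_of_ne hki,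
          Pi.single_eq_of_ne hkj, mul_zero, add_zero, if_neg hki, if_neg hkj]
        exact hy k

lemma good_iter (hv : Dual W v) {ε : ℝ} (hε : 0 < ε) (hε1 : ε < 1 / 6) (n : ℕ) :
    ∀ s : Fin 4 → ℝ, (∀ k, 0 < s k) → (∀ k, s k ≤ 1 - ε) →
      2 * (s 0 * s 1 * s 2 * s 3) ≤ 1 - 6 * ε → s 0 * (1 - ε ^ 2) ^ n ≤ 1 / 2 →
      Good W (box s) := by
  have base : ∀ s : Fin 4 → ℝ, (∀ k, s k ≤ 1 - ε) → s 0 ≤ 1 / 2 → Good W (box s) := by
    intro s hs h0
    refine (good_base hv).mono fun y hy => ⟨?_, ?_⟩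
    · linarith [hy 0]
    · linarith [hy 1, hs 1]
  induction n with
  | zero => intro s _ hs _ h0; exact base s hs (by simpa using h0)
  | succ n ih =>
    intro s hp hs hvol h0
    rcases le_or_gt (s 0) (1 / 2) with h1 | h1
    · exact base s hs h1
    set μ := 1 - ε ^ 2 with hμ
    have hμ0 : 0 < μ := by rw [hμ]; nlinarith
    have hμ1 : μ < 1 := by rw [hμ]; nlinarith
    have hex : ∃ j : Fin 4, (0 : Fin 4) ≠ j ∧ s j ≤ μ * (1 - ε) := by
      by_contra hc
      push Not at hc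
      have hθ : 1 - 2 * ε ≤ μ * (1 - ε) := by rw [hμ]; nlinarith [mul_pos hε hε, pow_pos hε 3]
      have c1 := hθ.trans (hc 1 (by decide)).le
      have c2 := hθ.trans (hc 2 (by decide)).le
      have c3 := hθ.trans (hc 3 (by decide)).le
      have d0 : 0 < 1 - 2 * ε := by linarith
      have p1 := hp 1
      have p2 := hp 2
      have p3 := hp 3
      have d1 : (1 - 2 * ε) * (1 - 2 * ε) * (1 - 2 * ε) ≤ s 1 * s 2 * s 3 := by gcongr
      have d2 : 1 - 6 * ε ≤ (1 - 2 * ε) * (1 - 2 * ε) * (1 - 2 * ε) := by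
        nlinarith [mul_pos hε hε, pow_pos hε 3]
      have d3 : 0 < s 1 * s 2 * s 3 := by positivity
      nlinarith
    obtain ⟨j, hj0, hj⟩ := hex
    refine good_squeeze hv hε (by linarith) hj0 (hs 0) hj (ih _ (fun k => ?_) (fun k => ?_) ?_ ?_)
    · have := hp k
      split_ifs <;> positivity
    · split_ifs with a b
      · nlinarith [hp k, hs k]
      · rw [b, div_le_iff₀ hμ0]; linarith
      · exact hs k
    · refine le_of_eq_of_le ?_ hvol
      have key : ∀ a b : ℝ, μ * a * (b / μ) = a * b := fun a b => by field_simp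
      simp only [← hμ]
      congr 1
      fin_cases j
      · exact absurd rfl hj0
      · exact (congrArg (fun z => z * s 2 * s 3) (key (s 0) (s 1)))
      · change μ * s 0 * s 1 * (s 2 / μ) * s 3 = _
        field_simp
      · change μ * s 0 * s 1 * s 2 * (s 3 / μ) = _
        field_simp
    · simp only [if_true]
      rw [pow_succ] at h0
      linarith

theorem good_box (hv : Dual W v) (s : Fin 4 → ℝ) (hp : ∀ k, 0 < s k) (hs : ∀ k, s k ≤ 1)
    (hvol : ∏ k, s k ≤ 1 / 2) : Good W (box s) := by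
  intro P c K hP hK hx
  have hc := continuous_crd P c
  obtain ⟨r, hr, hr'⟩ := exists_margin hK (g := fun x => ‖fun k => crd P c x k / (s k / 2)‖)
    (by fun_prop) (a := 1) fun x hx' => by
      rw [pi_norm_lt_iff one_pos]
      intro k
      have := hp k
      rw [Real.norm_eq_abs, abs_div, abs_of_pos (half_pos this), div_lt_one (half_pos this)]
      exact hx x hx' k
  set l : ℝ := max (1 / 2) ((1 + r) / 2) with hl
  have hl0 : 1 / 2 ≤ l := le_max_left _ _
  have hl1 : l < 1 := max_lt (by norm_num) (by linarith)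
  have hlr : r < l := lt_max_of_lt_right (by linarith)
  set ε : ℝ := (1 - l) / 6 with hεd
  have hε : 0 < ε := by rw [hεd]; linarith
  have hε1 : ε < 1 / 6 := by rw [hεd]; linarith
  have hμ1 : 1 - ε ^ 2 < 1 := by nlinarith
  have hμ0 : 0 < 1 - ε ^ 2 := by nlinarith
  obtain ⟨n, hn⟩ := exists_pow_lt_of_lt_one (show (0 : ℝ) < 1 / 2 by norm_num) hμ1
  have hl2 : 0 < l := by linarith
  refine good_iter hv hε hε1 n (fun k => l * s k) (fun k => mul_pos hl2 (hp k)) (fun k => ?_) ?_ ?_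
    P c K hP hK fun x hx' k => ?_
  · nlinarith [hp k, hs k]
  · rw [Fin.prod_univ_four] at hvol
    have e : 2 * (l * s 0 * (l * s 1) * (l * s 2) * (l * s 3))
        = l ^ 4 * (2 * (s 0 * s 1 * s 2 * s 3)) := by ring
    have h4 : l ^ 4 ≤ l := pow_le_of_le_one hl2.le hl1.le (by norm_num)
    have h5 : 0 < l ^ 4 := by positivity
    rw [e, hεd]
    nlinarith
  · have h1 : l * s 0 ≤ 1 := by nlinarith [hp 0, hs 0]
    have h2 : 0 < (1 - ε ^ 2) ^ n := by positivity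
    nlinarith
  · have h1 := (norm_le_pi_norm _ k).trans (hr' x hx')
    have h2 := half_pos (hp k)
    rw [Real.norm_eq_abs, abs_div, abs_of_pos h2, div_le_iff₀ h2] at h1
    nlinarith

theorem good_tri (hv : Dual W v) (s : Fin 4 → ℝ) (hp : ∀ k, 0 < s k) (hs : ∀ k, s k ≤ 1)
    (hvol : ∏ k, s k ≤ 1 / 2) (L : Matrix (Fin 4) (Fin 4) ℝ) (hL1 : ∀ i, L i i = 1)
    (hL0 : ∀ i j, i < j → L i j = 0) : Good W {y | ∃ z ∈ box s, y = L *ᵥ z} := by
  have o3 := isOpen_box s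
  have g2 := good_step hv o3 (good_box hv s hp hs hvol) 2 ![0, 0, 0, -L 3 2] rfl
  have o2 := isOpen_step o3 2 ![0, 0, 0, -L 3 2]
  have g1 := good_step hv o2 g2 1 ![0, 0, -L 2 1, -L 3 1] rfl
  have o1 := isOpen_step o2 1 ![0, 0, -L 2 1, -L 3 1]
  have g0 := good_step hv o1 g1 0 ![0, -L 1 0, -L 2 0, -L 3 0] rfl
  refine g0.mono ?_
  rintro _ ⟨z, hz, rfl⟩
  have e : L *ᵥ z = ![z 0, L 1 0 * z 0 + z 1, L 2 0 * z 0 + L 2 1 * z 1 + z 2,
      L 3 0 * z 0 + L 3 1 * z 1 + L 3 2 * z 2 + z 3] := by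
    funext k
    fin_cases k <;>
      simp [mulVec, dotProduct, Fin.sum_univ_four, hL1, hL0 0 1 (by decide), hL0 0 2 (by decide),
        hL0 0 3 (by decide), hL0 1 2 (by decide), hL0 1 3 (by decide), hL0 2 3 (by decide)]
  have e0 : L *ᵥ z + (L *ᵥ z) 0 • ![0, -L 1 0, -L 2 0, -L 3 0]
      = ![z 0, z 1, L 2 1 * z 1 + z 2, L 3 1 * z 1 + L 3 2 * z 2 + z 3] := by
    rw [e]
    funext k
    fin_cases k <;> simp <;> ring
  have e1 : ![z 0, z 1, L 2 1 * z 1 + z 2, L 3 1 * z 1 + L 3 2 * z 2 + z 3]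
      + z 1 • ![0, 0, -L 2 1, -L 3 1] = ![z 0, z 1, z 2, L 3 2 * z 2 + z 3] := by
    funext k
    fin_cases k <;> simp <;> ring
  have e2 : ![z 0, z 1, z 2, L 3 2 * z 2 + z 3] + z 2 • ![0, 0, 0, -L 3 2] = z := by
    funext k
    fin_cases k <;> simp
    ring
  have e3 : (L *ᵥ z) 0 = z 0 := by rw [e]; rfl
  refine ⟨by rw [e3]; linarith [hz 0, hs 0], ?_⟩
  rw [e0]
  refine ⟨by change |z 1| < _; linarith [hz 1, hs 1], ?_⟩
  change _ + z 1 • _ ∈ _
  rw [e1]
  refine ⟨by change |z 2| < _; linarith [hz 2, hs 2], ?_⟩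
  change _ + z 2 • _ ∈ _
  rw [e2]
  exact hz

end Pool.Agent.Lib.MP_fac2a6_gt
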