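import Pool.Agent.Lib.MP_fac2a6_gt.Refl

/-!
Reshaping by diagonal and triangular maps, and the displacement of symmetric halves of boxes.
-/

namespace Pool.Agent.Lib.MP_fac2a6_gt

open Set Filter Topology Metric Function Matrix
open scoped ContDiff

variable {W : Matrix (Fin 4) (Fin 4) ℝ} {v : (Fin 4 → ℤ) → (Fin 4 → ℝ)}

lemma Good.shift {U : Set (Fin 4 → ℝ)} (h : Good W U) (m : Fin 4 → ℝ) :
    Good W {y | y + m ∈ U} := by
  intro P c K hP hK hx
  refine h P (c - m) K hP hK fun x hx' => ?_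
  have e : crd P (c - m) x = crd P c x + m := by
    funext k
    simp only [crd, Pi.sub_apply, Pi.add_apply]
    ring
  rw [e]
  exact hx x hx'

/-- The diagonal factor `μ` at `i` and `1 / μ` at `j`. -/
noncomputable def dg (i j : Fin 4) (μ : ℝ) : Fin 4 → ℝ :=
  fun k => if k = i then μ else if k = j then μ⁻¹ else 1

lemma dg_pos (i j : Fin 4) {μ : ℝ} (h : 0 < μ) (k : Fin 4) : 0 < dg i j μ k := by
  unfold dg
  split_ifs <;> positivity

lemma dg_left (i j : Fin 4) (μ : ℝ) : dg i j μ i = μ := by simp [dg]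

lemma dg_right {i j : Fin 4} (hij : i ≠ j) (μ : ℝ) : dg i j μ j = μ⁻¹ := by simp [dg, hij.symm]

lemma dg_other {i j k : Fin 4} (hi : k ≠ i) (hj : k ≠ j) (μ : ℝ) : dg i j μ k = 1 := by
  simp [dg, hi, hj]

lemma dg_mul (i j : Fin 4) (a b : ℝ) : dg i j a * dg i j b = dg i j (a * b) := by
  funext k
  simp only [dg, Pi.mul_apply]
  split_ifs
  · rfl
  · rw [mul_inv]
  · simp

lemma isOpen_diag {U : Set (Fin 4 → ℝ)} (hU : IsOpen U) (s D : Fin 4 → ℝ) :
    IsOpen {y | y ∈ box s ∧ D * y ∈ U} :=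
  (isOpen_box s).inter (hU.preimage (f := fun y : Fin 4 → ℝ => D * y) (by fun_prop))

lemma box_mul {s D y : Fin 4 → ℝ} (hD : ∀ k, 0 < D k) (hy : y ∈ box s) : D * y ∈ box (D * s) := by
  intro k
  simp only [Pi.mul_apply]
  rw [abs_mul, abs_of_pos (hD k), mul_div_assoc]
  exact mul_lt_mul_of_pos_left (hy k) (hD k)

lemma good_sq (hv : Dual W v) {U : Set (Fin 4 → ℝ)} (o4 : IsOpen U) (hG : Good W U)
    {s : Fin 4 → ℝ} {ε μ : ℝ} (hε : 0 < ε) (hε1 : ε < 1) (hμ : 1 - ε ^ 2 ≤ μ) (hμ1 : μ ≤ 1)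
    {i j : Fin 4} (hij : i ≠ j) (hi : s i ≤ 1 - ε) (hj : s j ≤ μ * (1 - ε)) :
    Good W {y | y ∈ box s ∧ dg i j μ * y ∈ U} := by
  have hμ0 : 0 < μ := by nlinarith
  obtain ⟨η, hη0, hη1, hη⟩ : ∃ η : ℝ, 0 ≤ η ∧ η ≤ ε ∧ μ = 1 - η ^ 2 :=
    ⟨√(1 - μ), Real.sqrt_nonneg _, Real.sqrt_le_iff.2 ⟨hε.le, by linarith⟩, by
      rw [Real.sq_sqrt (by linarith)]; ring⟩
  have g3 := good_step hv o4 hG j (Pi.single i (η * μ)) (Pi.single_eq_of_ne hij.symm _)
  have o3 := isOpen_step o4 j (Pi.single i (η * μ))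
  have g2 := good_step hv o3 g3 i (Pi.single j (-η / μ)) (Pi.single_eq_of_ne hij _)
  have o2 := isOpen_step o3 i (Pi.single j (-η / μ))
  have g1 := good_step hv o2 g2 j (Pi.single i (-η)) (Pi.single_eq_of_ne hij.symm _)
  have o1 := isOpen_step o2 j (Pi.single i (-η))
  have g0 := good_step hv o1 g1 i (Pi.single j η) (Pi.single_eq_of_ne hij _)
  refine g0.mono fun y ⟨hy, hU⟩ => ?_
  have hyi := hy i
  have hyj := hy j
  have hj' : s j ≤ 1 - ε := hj.trans (by nlinarith)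
  have e1 : y i + (y j + y i * η) * -η = μ * y i - η * y j := by rw [hη]; ring
  have e2 : y j + y i * η + (μ * y i - η * y j) * (-η / μ) = y j / μ := by
    field_simp
    rw [hη]; ring
  have e3 : μ * y i - η * y j + y j / μ * (η * μ) = μ * y i := by field_simp; ring
  have a2 : |y j / μ| < s j / μ / 2 := by
    rw [abs_div, abs_of_pos hμ0, div_right_comm]
    exact div_lt_div_of_pos_right hyj hμ0
  have a3 : s j / μ ≤ 1 - ε := by rw [div_le_iff₀ hμ0]; linarith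
  simp only [Set.mem_ofPred_eq, Pi.add_apply, Pi.smul_apply, Pi.single_eq_same, smul_eq_mul,
    Pi.single_eq_of_ne hij, Pi.single_eq_of_ne hij.symm, mul_zero, add_zero, e1, e2]
  have b1 := abs_lt.1 hyi
  have b2 := abs_lt.1 hyj
  refine ⟨by linarith, ?_, ?_, by linarith, ?_⟩
  · rw [abs_lt]; constructor <;> nlinarith
  · rw [abs_lt]; constructor <;> nlinarith
  · convert hU using 1
    funext k
    by_cases hki : k = i
    · subst hki
      simp only [Pi.add_apply, Pi.smul_apply, Pi.single_eq_same, smul_eq_mul,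
        Pi.single_eq_of_ne hij, mul_zero, add_zero, e1, e3, Pi.mul_apply, dg_left]
    · by_cases hkj : k = j
      · subst hkj
        simp only [Pi.add_apply, Pi.smul_apply, Pi.single_eq_same, smul_eq_mul,
          Pi.single_eq_of_ne hki, mul_zero, add_zero, e2, Pi.mul_apply, dg_right hij]
        rw [inv_mul_eq_div]
      · simp only [Pi.add_apply, Pi.smul_apply, smul_eq_mul, Pi.single_eq_of_ne hki,
          Pi.single_eq_of_ne hkj, mul_zero, add_zero, Pi.mul_apply, dg_other hki hkj, one_mul]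

lemma good_pair (hv : Dual W v) {U : Set (Fin 4 → ℝ)} (hU : IsOpen U) (hG : Good W U) {ε : ℝ}
    (hε : 0 < ε) (hε1 : ε < 1) {i j : Fin 4} (hij : i ≠ j) (n : ℕ) :
    ∀ (μ : ℝ) (s : Fin 4 → ℝ), (1 - ε ^ 2) ^ n ≤ μ → μ ≤ 1 → s i ≤ 1 - ε → s j ≤ μ * (1 - ε) →
      Good W {y | y ∈ box s ∧ dg i j μ * y ∈ U} := by
  have h0 : 0 < 1 - ε ^ 2 := by nlinarith
  have h1 : 1 - ε ^ 2 ≤ 1 := by nlinarith
  induction n with
  | zero =>
    intro μ s a b c d
    exact good_sq hv hU hG hε hε1 (h1.trans (by simpa using a)) b hij c d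
  | succ n ih =>
    intro μ s a b c d
    rcases le_total (1 - ε ^ 2) μ with h | h
    · exact good_sq hv hU hG hε hε1 h b hij c d
    · have g := ih (μ / (1 - ε ^ 2)) (dg i j (1 - ε ^ 2) * s)
        (by rw [le_div_iff₀ h0, ← pow_succ]; exact a) (by rw [div_le_one h0]; exact h)
        (by rw [Pi.mul_apply, dg_left]; nlinarith)
        (by
          rw [Pi.mul_apply, dg_right hij, inv_mul_eq_div, div_mul_eq_mul_div]
          exact div_le_div_of_nonneg_right d h0.le)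
      refine (good_sq hv (isOpen_diag hU _ _) g hε hε1 le_rfl h1 hij c
        (d.trans (by nlinarith))).mono fun y ⟨hy, hy'⟩ => ⟨hy, box_mul (dg_pos i j h0) hy, ?_⟩
      rw [← mul_assoc, dg_mul, div_mul_cancel₀ _ h0.ne']
      exact hy'

lemma good_diag (hv : Dual W v) {U : Set (Fin 4 → ℝ)} (hU : IsOpen U) (hG : Good W U) {ε : ℝ}
    (hε : 0 < ε) (hε1 : ε < 1) (n : ℕ) :
    ∀ (D s : Fin 4 → ℝ), (Finset.univ.filter fun k => D k ≠ 1).card ≤ n → (∀ k, 0 < D k) →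
      ∏ k, D k = 1 → (∀ k, s k ≤ 1 - ε) → (∀ k, D k * s k ≤ 1 - ε) →
      Good W {y | y ∈ box s ∧ D * y ∈ U} := by
  have base : ∀ D s : Fin 4 → ℝ, (∀ k, D k = 1) → Good W {y | y ∈ box s ∧ D * y ∈ U} := by
    intro D s h
    have : D = 1 := funext h
    exact hG.mono fun y hy => by simpa [this] using hy.2
  induction n with
  | zero =>
    intro D s hc _ _ _ _
    refine base D s fun k => ?_
    by_contra h
    have : 0 < (Finset.univ.filter fun k => D k ≠ 1).card :=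
      Finset.card_pos.2 ⟨k, Finset.mem_filter.2 ⟨Finset.mem_univ k, h⟩⟩
    omega
  | succ n ih =>
    intro D s hc hD hp hs hDs
    by_cases hall : ∀ k, D k = 1
    · exact base D s hall
    push Not at hall
    obtain ⟨k₀, hk₀⟩ := hall
    obtain ⟨i, hi⟩ : ∃ i, D i < 1 := by
      by_contra h
      push Not at h
      have := Finset.prod_lt_prod (s := Finset.univ) (f := fun _ : Fin 4 => (1 : ℝ)) (g := D)
        (fun _ _ => one_pos) (fun k _ => h k)
        ⟨k₀, Finset.mem_univ _, lt_of_le_of_ne (h k₀) hk₀.symm⟩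
      simp [hp] at this
    obtain ⟨j, hj⟩ : ∃ j, 1 < D j := by
      by_contra h
      push Not at h
      have := Finset.prod_lt_prod (s := Finset.univ) (f := D) (g := fun _ : Fin 4 => (1 : ℝ))
        (fun k _ => hD k) (fun k _ => h k) ⟨i, Finset.mem_univ _, hi⟩
      simp [hp] at this
    have hij : i ≠ j := by rintro rfl; linarith
    set μ := max (D i) (D j)⁻¹ with hμ
    have hDj := hD j
    have hμ0 : 0 < μ := lt_max_of_lt_left (hD i)
    have hμ1 : μ < 1 := max_lt hi (inv_lt_one_of_one_lt₀ hj)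
    have hμj : (D j)⁻¹ ≤ μ := le_max_right _ _
    have hsj : s j ≤ μ * (1 - ε) := by
      have a1 : s j ≤ (D j)⁻¹ * (1 - ε) := by
        rw [le_inv_mul_iff₀ hDj]; exact hDs j
      exact a1.trans (mul_le_mul_of_nonneg_right hμj (by linarith))
    have hcan : dg i j μ⁻¹ * dg i j μ = 1 := by
      rw [dg_mul, inv_mul_cancel₀ hμ0.ne']
      funext k
      simp [dg]
    have g := ih (D * dg i j μ⁻¹) (dg i j μ * s) ?_
      (fun k => mul_pos (hD k) (dg_pos i j (inv_pos.2 hμ0) k)) ?_ (fun k => ?_) (fun k => ?_)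
    · obtain ⟨N, hN⟩ := exists_pow_lt_of_lt_one hμ0 (show 1 - ε ^ 2 < 1 by nlinarith)
      refine (good_pair hv (isOpen_diag hU _ _) g hε hε1 hij N μ s hN.le hμ1.le (hs i)
        hsj).mono fun y ⟨hy, hy'⟩ => ⟨hy, box_mul (dg_pos i j hμ0) hy, ?_⟩
      rw [mul_assoc, ← mul_assoc (dg i j μ⁻¹), hcan, one_mul]
      exact hy'
    · refine Nat.lt_succ_iff.1 (lt_of_lt_of_le (Finset.card_lt_card ?_) hc)
      rw [Finset.ssubset_iff_of_subset]
      · rcases le_total (D i) (D j)⁻¹ with h | h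
        · refine ⟨j, by simpa using hj.ne', ?_⟩
          simp [dg_right hij, hμ, max_eq_right h, hDj.ne']
        · refine ⟨i, by simpa using hi.ne, ?_⟩
          simp [dg_left, hμ, max_eq_left h, (hD i).ne']
      · intro k hk
        simp only [Finset.mem_filter, Finset.mem_univ, true_and, Pi.mul_apply] at hk ⊢
        by_cases a : k = i
        · rw [a]; exact hi.ne
        by_cases b : k = j
        · rw [b]; exact hj.ne'
        rwa [dg_other a b, mul_one] at hk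
    · simp only [Pi.mul_apply]
      rw [Finset.prod_mul_distrib, hp, Fintype.prod_eq_mul i j hij
        (fun k hk => dg_other hk.1 hk.2 _), dg_left, dg_right hij]
      field_simp
    · rw [Pi.mul_apply]
      by_cases a : k = i
      · rw [a, dg_left]; nlinarith [hs i]
      by_cases b : k = j
      · rw [b, dg_right hij, inv_mul_le_iff₀ hμ0]; exact hsj
      rw [dg_other a b, one_mul]
      exact hs k
    · have e := congrFun hcan k
      simp only [Pi.mul_apply, Pi.one_apply] at e ⊢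
      rw [mul_assoc, ← mul_assoc (dg i j μ⁻¹ k), e, one_mul]
      exact hDs k

lemma good_lower (hv : Dual W v) {U : Set (Fin 4 → ℝ)} (o3 : IsOpen U) (hG : Good W U)
    (hU : ∀ y ∈ U, ∀ k, |y k| < 1 / 2) (M : Matrix (Fin 4) (Fin 4) ℝ) (h1 : ∀ i, M i i = 1)
    (h0 : ∀ i j, i < j → M i j = 0) : Good W {y | M *ᵥ y ∈ U} := by
  set t2 : Fin 4 → ℝ := ![0, 0, 0, M 3 2]
  set t1 : Fin 4 → ℝ := ![0, 0, M 2 1, M 3 1 - M 3 2 * M 2 1]
  set t0 : Fin 4 → ℝ := ![0, M 1 0, M 2 0 - M 2 1 * M 1 0,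
    M 3 0 - M 3 2 * M 2 0 - (M 3 1 - M 3 2 * M 2 1) * M 1 0]
  have g2 := good_step hv o3 hG 2 t2 rfl
  have o2 := isOpen_step o3 2 t2
  have g1 := good_step hv o2 g2 1 t1 rfl
  have o1 := isOpen_step o2 1 t1
  have g0 := good_step hv o1 g1 0 t0 rfl
  refine g0.mono fun y hy => ?_
  have e : M *ᵥ y = ![y 0, M 1 0 * y 0 + y 1, M 2 0 * y 0 + M 2 1 * y 1 + y 2,
      M 3 0 * y 0 + M 3 1 * y 1 + M 3 2 * y 2 + y 3] := by
    funext k
    fin_cases k <;>
      simp [mulVec, dotProduct, Fin.sum_univ_four, h1, h0 0 1 (by decide), h0 0 2 (by decide),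
        h0 0 3 (by decide), h0 1 2 (by decide), h0 1 3 (by decide), h0 2 3 (by decide)]
  have a0 := hU _ hy 0
  have a1 := hU _ hy 1
  have a2 := hU _ hy 2
  have hy' : M *ᵥ y ∈ U := hy
  rw [e] at a0 a1 a2 hy'
  have e0 : y + y 0 • t0 = ![y 0, M 1 0 * y 0 + y 1, (M 2 0 - M 2 1 * M 1 0) * y 0 + y 2,
      (M 3 0 - M 3 2 * M 2 0 - (M 3 1 - M 3 2 * M 2 1) * M 1 0) * y 0 + y 3] := by
    funext k
    rw [Pi.add_apply, Pi.smul_apply]
    fin_cases k <;> simp [t0] <;> ring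
  have e1 : ![y 0, M 1 0 * y 0 + y 1, (M 2 0 - M 2 1 * M 1 0) * y 0 + y 2,
      (M 3 0 - M 3 2 * M 2 0 - (M 3 1 - M 3 2 * M 2 1) * M 1 0) * y 0 + y 3]
      + (M 1 0 * y 0 + y 1) • t1 = ![y 0, M 1 0 * y 0 + y 1, M 2 0 * y 0 + M 2 1 * y 1 + y 2,
      (M 3 0 - M 3 2 * M 2 0) * y 0 + (M 3 1 - M 3 2 * M 2 1) * y 1 + y 3] := by
    funext k
    fin_cases k <;> simp [t1] <;> ring
  have e2 : ![y 0, M 1 0 * y 0 + y 1, M 2 0 * y 0 + M 2 1 * y 1 + y 2,
      (M 3 0 - M 3 2 * M 2 0) * y 0 + (M 3 1 - M 3 2 * M 2 1) * y 1 + y 3]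
      + (M 2 0 * y 0 + M 2 1 * y 1 + y 2) • t2
      = ![y 0, M 1 0 * y 0 + y 1, M 2 0 * y 0 + M 2 1 * y 1 + y 2,
      M 3 0 * y 0 + M 3 1 * y 1 + M 3 2 * y 2 + y 3] := by
    funext k
    fin_cases k <;> simp [t2]
    ring
  refine ⟨a0, ?_⟩
  rw [e0]
  refine ⟨a1, ?_⟩
  change _ + (M 1 0 * y 0 + y 1) • t1 ∈ _
  rw [e1]
  refine ⟨a2, ?_⟩
  change _ + (M 2 0 * y 0 + M 2 1 * y 1 + y 2) • t2 ∈ _
  rw [e2]
  exact hy'

theorem disp_half (hW : Wᵀ = -W) (hdet : W.det ≠ 0) (hv : Dual W v)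
    (P : Matrix (Fin 4) (Fin 4) ℤ) (hP : P.det ≠ 0) (M : Matrix (Fin 4) (Fin 4) ℝ)
    (h1 : ∀ i, M i i = 1) (h0 : ∀ i j, i < j → M i j = 0) (c s : Fin 4 → ℝ) (hs : ∀ i, 0 < s i)
    (hvol : ∏ i, s i ≤ 1) (z : (Fin 4 → ℝ) → (Fin 4 → ℝ)) (hz : ∀ x, z x = M *ᵥ crd P c x)
    {K : Set (Fin 4 → ℝ)} (hK : IsCompact K) (hbox : ∀ x ∈ K, ∀ i, |z x i| < s i / 2)
    (hwid : ∀ x ∈ K, ∀ y ∈ K, ∀ i, |z x i - z y i| < 1)
    (hsym : ∀ x ∈ K, ∀ y ∈ K, z x + z y ≠ 0) : Disp W K := by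
  rcases K.eq_empty_or_nonempty with rfl | hne
  · exact good_base hv P c ∅ hP hK (by simp)
  have hzc : Continuous z := by
    have := continuous_crd P c
    rw [show z = fun x => M *ᵥ crd P c x from funext hz]
    fun_prop
  set D : Fin 4 → ℝ := ![s 1 * s 2 * s 3, (s 1)⁻¹, (s 2)⁻¹, (s 3)⁻¹] with hDd
  have s0 := hs 0
  have s1 := hs 1
  have s2 := hs 2
  have s3 := hs 3
  have hD : ∀ k, 0 < D k := by
    intro k
    fin_cases k <;> simp [hDd] <;> positivity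
  have hDp : ∏ k, D k = 1 := by
    rw [Fin.prod_univ_four]
    simp [hDd]
    field_simp
  have hDs : ∀ k, D k * s k ≤ 1 := by
    rw [Fin.prod_univ_four] at hvol
    intro k
    fin_cases k
    · change s 1 * s 2 * s 3 * s 0 ≤ 1
      linarith
    · exact (inv_mul_cancel₀ s1.ne').le
    · exact (inv_mul_cancel₀ s2.ne').le
    · exact (inv_mul_cancel₀ s3.ne').le
  have hco : ∀ k, ∃ m σ : ℝ, 0 < σ ∧ σ < 1 ∧ D k * σ < 1 ∧ ∀ x ∈ K, |z x k - m| < σ / 2 := by
    intro k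
    have hc : ContinuousOn (fun x => z x k) K := by fun_prop
    obtain ⟨a, ha, hma⟩ := hK.exists_isMaxOn hne hc
    obtain ⟨b, hb, hmb⟩ := hK.exists_isMinOn hne hc
    have b1 := abs_lt.1 (hbox a ha k)
    have b2 := abs_lt.1 (hbox b hb k)
    have b3 := abs_lt.1 (hwid a ha b hb k)
    have b4 : z b k ≤ z a k := hma hb
    obtain ⟨σ, c1, c2⟩ := exists_between (lt_min b3.2 (show z a k - z b k < s k by linarith))
    refine ⟨(z a k + z b k) / 2, σ, by linarith, c2.trans_le (min_le_left _ _), ?_, fun x hx => ?_⟩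
    · exact (mul_lt_mul_of_pos_left (c2.trans_le (min_le_right _ _)) (hD k)).trans_le (hDs k)
    · have d1 : z x k ≤ z a k := hma hx
      have d2 : z b k ≤ z x k := hmb hx
      rw [abs_lt]
      constructor <;> linarith
  choose m σ hσ0 hσ1 hσD hm using hco
  obtain ⟨ε, hε, hε1, hεσ⟩ : ∃ ε : ℝ, 0 < ε ∧ ε < 1 ∧ ∀ k, σ k ≤ 1 - ε ∧ D k * σ k ≤ 1 - ε := by
    have a1 : ‖σ‖ < 1 := (pi_norm_lt_iff one_pos).2 fun k => by
      rw [Real.norm_eq_abs, abs_of_pos (hσ0 k)]; exact hσ1 k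
    have a2 : ‖D * σ‖ < 1 := (pi_norm_lt_iff one_pos).2 fun k => by
      rw [Real.norm_eq_abs, Pi.mul_apply, abs_of_pos (mul_pos (hD k) (hσ0 k))]; exact hσD k
    have a3 : ∀ k, σ k ≤ ‖σ‖ := fun k => (le_abs_self _).trans (norm_le_pi_norm σ k)
    have a4 : ∀ k, D k * σ k ≤ ‖D * σ‖ := fun k =>
      (le_abs_self _).trans (norm_le_pi_norm (D * σ) k)
    have a5 := le_max_left ‖σ‖ ‖D * σ‖
    have a6 := le_max_right ‖σ‖ ‖D * σ‖
    have a7 := max_lt a1 a2
    exact ⟨1 - max ‖σ‖ ‖D * σ‖, by linarith, by linarith [a3 0, hσ0 0], fun k =>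
      ⟨by linarith [a3 k], by linarith [a4 k]⟩⟩
  set Y := (fun x => D * z x) '' K with hY
  have hYc : IsCompact Y := hK.image (by fun_prop)
  set U : Set (Fin 4 → ℝ) := {y | y ∈ box 1 ∧ infDist y Y < infDist (-y) Y} with hU
  have hUo : IsOpen U := (isOpen_box 1).inter
    (isOpen_lt (continuous_infDist_pt Y) ((continuous_infDist_pt Y).comp continuous_neg))
  have gU : Good W U := good_refl hW hdet hv (fun y hy k => hy.1 k) fun y hy hy' => by
    have a1 := hy.2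
    have a2 := hy'.2
    rw [neg_neg] at a2
    exact lt_asymm a1 a2
  have hU1 : IsOpen {y | y + D * m ∈ U} :=
    hUo.preimage (f := fun y : Fin 4 → ℝ => y + D * m) (by fun_prop)
  have g1 := good_diag hv hU1 (gU.shift (D * m)) hε hε1 _ D σ le_rfl hD hDp (fun k => (hεσ k).1)
    fun k => (hεσ k).2
  have g2 := good_lower hv (isOpen_diag hU1 σ D) g1
    (fun y hy k => by linarith [hy.1 k, hσ1 k]) M h1 h0
  have hMd : IsUnit M.det := by
    rw [Matrix.det_of_isLowerTriangular M fun i j hij => h0 i j hij]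
    simp [h1]
  refine (g2.shift (-(M⁻¹ *ᵥ m))) P c K hP hK fun x hx => ?_
  have e : M *ᵥ (crd P c x + -(M⁻¹ *ᵥ m)) = z x - m := by
    rw [mulVec_add, mulVec_neg, mulVec_mulVec, mul_nonsing_inv _ hMd, one_mulVec, hz,
      sub_eq_add_neg]
  simp only [Set.mem_ofPred_eq]
  rw [e]
  refine ⟨fun k => hm k x hx, ?_⟩
  rw [← mul_add, sub_add_cancel]
  refine ⟨fun k => ?_, ?_⟩
  · have a1 := box_mul hD (hbox x hx) k
    have a2 := hDs k
    simp only [Pi.mul_apply, Pi.one_apply] at a1 ⊢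
    linarith
  · rw [infDist_zero_of_mem (show D * z x ∈ Y from mem_image_of_mem _ hx)]
    refine (hYc.isClosed.notMem_iff_infDist_pos (hne.image _)).1 ?_
    rintro ⟨y, hy, heq⟩
    refine hsym x hx y hy (funext fun k => ?_)
    have a1 := congrFun heq k
    simp only [Pi.mul_apply, Pi.neg_apply] at a1
    have a2 : D k * (z x k + z y k) = 0 := by linarith
    exact (mul_eq_zero.1 a2).resolve_left (hD k).ne'

end Pool.Agent.Lib.MP_fac2a6_gt
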