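import Pool.Agent.Lib.MP_fac2a6_gt.Tools

-- part Pool.Agent.Lib.MP_fac2a6_gt.Emb
section

/-!
Lifts of embedded tori: uniform embeddedness and smooth periodic extension.
-/

namespace Pool.Agent.Lib.MP_fac2a6_gt

open Set Filter Topology Metric Function
open scoped ContDiff NNReal Pointwise

variable {k d : ℕ}

/-- `f` is the lift of an embedding of tori, with linear part `N`. -/
structure Emb (f : (Fin k → ℝ) → (Fin d → ℝ)) (N : (Fin k → ℝ) →L[ℝ] (Fin d → ℝ)) : Prop where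
  smooth : ContDiff ℝ ∞ f
  equi : ∀ x m, f (x + zc m) = f x + N (zc m)
  int : ∀ m, ∃ n, N (zc m) = zc n
  inj : ∀ x y n, f x = f y + zc n → ∃ m, x = y + zc m
  imm : ∀ x, Injective (fderiv ℝ f x)

lemma exists_lin {f : (Fin k → ℝ) → (Fin d → ℝ)}
    (h : ∀ m : Fin k → ℤ, ∃ n : Fin d → ℤ, ∀ x, f (x + zc m) = f x + zc n) :
    ∃ N : (Fin k → ℝ) →L[ℝ] (Fin d → ℝ), (∀ x m, f (x + zc m) = f x + N (zc m)) ∧
      ∀ m, ∃ n, N (zc m) = zc n := by
  choose n hn using h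
  have hadd : ∀ m m', zc (n (m + m')) = zc (n m) + zc (n m') := by
    intro m m'
    have h1 := hn (m + m') 0
    rw [zc_add, ← add_assoc, hn, hn, add_assoc] at h1
    exact (add_left_cancel h1).symm
  let φ : (Fin k → ℤ) →+ (Fin d → ℝ) := AddMonoidHom.mk' (fun m => zc (n m)) hadd
  let N : (Fin k → ℝ) →L[ℝ] (Fin d → ℝ) :=
    ∑ i, (ContinuousLinearMap.proj i : (Fin k → ℝ) →L[ℝ] ℝ).smulRight (φ (Pi.single i 1))
  have hN : ∀ m, N (zc m) = zc (n m) := by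
    intro m
    have e : m = ∑ i, m i • (Pi.single i 1 : Fin k → ℤ) := by
      funext j
      simp [Finset.sum_apply, Pi.single_apply]
    change _ = φ m
    conv_rhs => rw [e, map_sum]
    simp only [N, sum_apply, ContinuousLinearMap.smulRight_apply,
      ContinuousLinearMap.proj_apply, map_zsmul, zc]
    exact Finset.sum_congr rfl fun i _ => Int.cast_smul_eq_zsmul ℝ _ _
  exact ⟨N, fun x m => by rw [hN, hn], fun m => ⟨n m, hN m⟩⟩

variable {f : (Fin k → ℝ) → (Fin d → ℝ)} {N : (Fin k → ℝ) →L[ℝ] (Fin d → ℝ)}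

lemma Emb.per_fderiv (H : Emb f N) : Per (fderiv ℝ f) := by
  intro x m
  rw [← fderiv_comp_add_right]
  simp only [H.equi]
  exact fderiv_add_const _

lemma Emb.cont_fderiv (H : Emb f N) : Continuous (fderiv ℝ f) :=
  H.smooth.continuous_fderiv (by simp)

lemma Emb.diff (H : Emb f N) : Differentiable ℝ f := H.smooth.differentiable (by simp)

lemma Emb.lower (H : Emb f N) : ∃ c : ℝ, 0 < c ∧ ∀ x ξ, c * ‖ξ‖ ≤ ‖fderiv ℝ f x ξ‖ := by
  have hco : Continuous fun p : (Fin k → ℝ) × (Fin k → ℝ) => ‖fderiv ℝ f p.1 p.2‖ := by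
    have := H.cont_fderiv
    fun_prop
  have hK : IsCompact (closedBall (0 : Fin k → ℝ) 1 ×ˢ sphere (0 : Fin k → ℝ) 1) :=
    (isCompact_closedBall _ _).prod (isCompact_sphere _ _)
  have hpos : ∀ p ∈ closedBall (0 : Fin k → ℝ) 1 ×ˢ sphere (0 : Fin k → ℝ) 1,
      (0:ℝ) < ‖fderiv ℝ f p.1 p.2‖ := by
    intro p hp
    refine norm_pos_iff.2 fun h0 => ?_
    have h1 : p.2 = 0 := H.imm p.1 (by rw [h0, map_zero])
    have h2 := hp.2
    rw [h1] at h2
    simp at h2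
  obtain ⟨c, hc, h⟩ := hK.exists_forall_le' hco.continuousOn hpos
  refine ⟨c, hc, fun x ξ => ?_⟩
  rcases eq_or_ne ξ 0 with rfl | hξ
  · simp
  obtain ⟨n, x0, h0, rfl⟩ := exists_reduce x
  rw [H.per_fderiv]
  have hn : 0 < ‖ξ‖ := norm_pos_iff.2 hξ
  have h1 := h (x0, ‖ξ‖⁻¹ • ξ) ⟨by simpa using h0, by
    simp [norm_smul, inv_mul_cancel₀ hn.ne']⟩
  simp only [map_smul, norm_smul, norm_inv, norm_norm] at h1
  rwa [le_inv_mul_iff₀ hn, mul_comm] at h1

lemma Emb.taylor (H : Emb f N) {κ : ℝ} (hκ : 0 < κ) : ∃ r : ℝ, 0 < r ∧ ∀ x x', ‖x' - x‖ ≤ r →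
    ‖f x' - f x - fderiv ℝ f x (x' - x)‖ ≤ κ * ‖x' - x‖ := by
  obtain ⟨r, hr, h⟩ := H.per_fderiv.unif H.cont_fderiv hκ
  refine ⟨r, hr, fun x x' hx => ?_⟩
  exact (convex_closedBall x r).norm_image_sub_le_of_norm_fderiv_le'
    (fun y _ => H.diff y) (fun y hy => h x y (by rwa [mem_closedBall, dist_eq_norm] at hy))
    (mem_closedBall_self hr.le) (by rwa [mem_closedBall, dist_eq_norm])

theorem Emb.unif (H : Emb f N) : ∃ δ C : ℝ, 0 < δ ∧ 0 < C ∧ ∀ x x' n,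
    ‖f x' + zc n - f x‖ < δ → ∃ m, zc n = N (zc m) ∧
      ‖x' + zc m - x‖ ≤ C * ‖f x' + zc n - f x‖ := by
  obtain ⟨c, hc, hlow⟩ := H.lower
  obtain ⟨r, hr, htay⟩ := H.taylor (half_pos hc)
  have hcont := H.smooth.continuous
  obtain ⟨M, hM⟩ := (isCompact_closedBall (0 : Fin k → ℝ) 1).exists_bound_of_continuousOn
    hcont.continuousOn
  set K : (Fin d → ℤ) → Set ((Fin k → ℝ) × (Fin k → ℝ)) := fun n =>
    (closedBall 0 1 ×ˢ closedBall 0 1) ∩
      ⋂ m : Fin k → ℤ, {p | zc n = N (zc m) → r ≤ ‖p.2 + zc m - p.1‖} with hK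
  have h1 : ∀ n, ∀ᶠ δ in 𝓝[>] (0:ℝ), ∀ p ∈ K n, δ ≤ ‖f p.2 + zc n - f p.1‖ := by
    intro n
    have hKc : IsCompact (K n) := by
      refine ((isCompact_closedBall _ _).prod (isCompact_closedBall _ _)).inter_right
        (isClosed_iInter fun m => ?_)
      by_cases hm : zc n = N (zc m)
      · simp only [hm, true_imp_iff]
        exact isClosed_le continuous_const (by fun_prop)
      · simp [hm]
    obtain ⟨a, ha, h⟩ := hKc.exists_forall_le' (f := fun p => ‖f p.2 + zc n - f p.1‖) (a := 0)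
      (by fun_prop) (fun p hp => by
        refine norm_pos_iff.2 fun h0 => ?_
        have h2 : f p.1 = f p.2 + zc n := (sub_eq_zero.1 h0).symm
        obtain ⟨m, hm⟩ := H.inj _ _ _ h2
        have h3 : zc n = N (zc m) := by
          rw [hm, H.equi] at h2
          exact (add_left_cancel h2).symm
        have h4 := mem_iInter.1 hp.2 m h3
        rw [← hm, sub_self, norm_zero] at h4
        linarith)
    filter_upwards [Ioo_mem_nhdsGT ha] with δ hδ p hp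
    exact hδ.2.le.trans (h p hp)
  obtain ⟨δ, hδ, hδ1⟩ := (((eventually_all_finite (finite_zc (d := d) (2 * M + 1))).2
    fun n _ => h1 n).and (Ioo_mem_nhdsGT one_pos)).exists
  refine ⟨δ, 2 / c, hδ1.1, by positivity, ?_⟩
  have key : ∀ x x' n, ‖x‖ ≤ 1 → ‖x'‖ ≤ 1 → ‖f x' + zc n - f x‖ < δ → ∃ m, zc n = N (zc m) ∧
      ‖x' + zc m - x‖ ≤ 2 / c * ‖f x' + zc n - f x‖ := by
    intro x x' n hx hx' hlt
    have h2 : ‖zc n‖ ≤ 2 * M + 1 := by
      have h3 := hM x (by simpa using hx)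
      have h4 := hM x' (by simpa using hx')
      calc ‖zc n‖ = ‖(f x' + zc n - f x) - f x' + f x‖ := by congr 1; abel
        _ ≤ ‖f x' + zc n - f x‖ + ‖f x'‖ + ‖f x‖ :=
            (norm_add_le _ _).trans (by gcongr; exact norm_sub_le _ _)
        _ ≤ _ := by linarith [hδ1.2]
    have h3 : (x, x') ∉ K n := fun hp => absurd (hδ n h2 _ hp) (not_le.2 hlt)
    have h4 : ∃ m, zc n = N (zc m) ∧ ‖x' + zc m - x‖ < r := by
      by_contra hc'
      push Not at hc'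
      exact h3 ⟨⟨by simpa using hx, by simpa using hx'⟩, mem_iInter.2 fun m hm => hc' m hm⟩
    obtain ⟨m, hm, hlt'⟩ := h4
    refine ⟨m, hm, ?_⟩
    have h5 := htay x (x' + zc m) hlt'.le
    have h6 := hlow x (x' + zc m - x)
    rw [H.equi, ← hm] at h5
    have h7 := norm_sub_norm_le (fderiv ℝ f x (x' + zc m - x)) (f x' + zc n - f x)
    rw [norm_sub_rev] at h5
    rw [div_mul_eq_mul_div, le_div_iff₀ hc]
    linarith
  intro x x' n hlt
  obtain ⟨m0, x0, h0, rfl⟩ := exists_reduce x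
  obtain ⟨m1, x1, h1, rfl⟩ := exists_reduce x'
  obtain ⟨n0, hn0⟩ := H.int m0
  obtain ⟨n1, hn1⟩ := H.int m1
  have e : f (x1 + zc m1) + zc n - f (x0 + zc m0) = f x1 + zc (n + n1 - n0) - f x0 := by
    rw [H.equi, H.equi, hn0, hn1, zc_sub, zc_add]; abel
  rw [e] at hlt ⊢
  obtain ⟨m, hm, hle⟩ := key x0 x1 _ h0 h1 hlt
  refine ⟨m + m0 - m1, ?_, ?_⟩
  · rw [zc_sub, zc_add, map_sub, map_add, ← hm, hn0, hn1, zc_sub, zc_add]; abel
  · convert hle using 2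
    rw [zc_sub, zc_add]; abel

lemma Emb.isClosed (H : Emb f N) : IsClosed {y | ∃ x n, y = f x + zc n} := by
  have : {y | ∃ x n, y = f x + zc n} = f '' closedBall 0 1 + range (zc (d := d)) := by
    ext y
    constructor
    · rintro ⟨x, n, rfl⟩
      obtain ⟨m, x0, h0, rfl⟩ := exists_reduce x
      obtain ⟨n0, hn0⟩ := H.int m
      refine ⟨f x0, ⟨x0, by simpa using h0, rfl⟩, zc (n0 + n), ⟨_, rfl⟩, ?_⟩
      rw [H.equi, hn0, zc_add]
      simp only [add_assoc]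
    · rintro ⟨_, ⟨x, -, rfl⟩, _, ⟨n, rfl⟩, rfl⟩
      exact ⟨x, n, rfl⟩
  rw [this]
  exact isClosed_range_zc.add_left_of_isCompact
    ((isCompact_closedBall _ _).image H.smooth.continuous)

lemma Emb.local_inv (H : Emb f N) (x0 : Fin k → ℝ) :
    ∃ U ∈ 𝓝 (f x0), ∃ r : (Fin d → ℝ) → (Fin k → ℝ), ContDiffOn ℝ ∞ r U ∧
      ∀ᶠ x in 𝓝 x0, r (f x) = x := by
  obtain ⟨P0, hP0⟩ := (fderiv ℝ f x0).toLinearMap.exists_leftInverse_of_injective
    (LinearMap.ker_eq_bot.2 (H.imm x0))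
  let P : (Fin d → ℝ) →L[ℝ] (Fin k → ℝ) := LinearMap.toContinuousLinearMap P0
  have hP : P.comp (fderiv ℝ f x0) = ContinuousLinearMap.id ℝ _ := by
    ext1 ξ
    exact LinearMap.congr_fun hP0 ξ
  set h : (Fin k → ℝ) → (Fin k → ℝ) := fun x => P (f x) with hh
  have hhc : ContDiff ℝ ∞ h := P.contDiff.comp H.smooth
  have hd : ∀ x, HasFDerivAt h (P.comp (fderiv ℝ f x)) x := fun x =>
    P.hasFDerivAt.comp x (H.diff x).hasFDerivAt
  have hd0 : HasFDerivAt h ((ContinuousLinearEquiv.refl ℝ (Fin k → ℝ) :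
      (Fin k → ℝ) →L[ℝ] (Fin k → ℝ))) x0 := by
    have := hd x0
    rwa [hP] at this
  let e := (hhc.contDiffAt (x := x0)).toOpenPartialHomeomorph h hd0 (by simp)
  have hsrc : x0 ∈ e.source :=
    (hhc.contDiffAt (x := x0)).mem_toOpenPartialHomeomorph_source hd0 (by simp)
  have htgt : h x0 ∈ e.target := e.map_source hsrc
  set O : Set (Fin k → ℝ) := {x | P.comp (fderiv ℝ f x) ∈
    range ((↑) : ((Fin k → ℝ) ≃L[ℝ] (Fin k → ℝ)) → (Fin k → ℝ) →L[ℝ] (Fin k → ℝ))} with hO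
  have hOo : IsOpen O := ContinuousLinearEquiv.isOpen.preimage
    (continuous_const.clm_comp H.cont_fderiv)
  have hO0 : x0 ∈ O := ⟨ContinuousLinearEquiv.refl ℝ _, hP.symm⟩
  have hV : IsOpen (e.target ∩ e.symm ⁻¹' O) :=
    e.continuousOn_symm.isOpen_inter_preimage e.open_target hOo
  have hV0 : h x0 ∈ e.target ∩ e.symm ⁻¹' O := ⟨htgt, by
    have : e.symm (h x0) = x0 := e.left_inv hsrc
    rw [mem_preimage, this]; exact hO0⟩
  refine ⟨P ⁻¹' (e.target ∩ e.symm ⁻¹' O), (hV.preimage P.continuous).mem_nhds hV0,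
    fun y => e.symm (P y), fun y hy => ?_, ?_⟩
  · obtain ⟨A, hA⟩ := hy.2
    have h1 : ContDiffAt ℝ ∞ e.symm (P y) :=
      e.contDiffAt_symm (f₀' := A) hy.1 (by rw [hA]; exact hd _) hhc.contDiffAt
    exact (h1.comp y P.contDiff.contDiffAt).contDiffWithinAt
  · filter_upwards [e.open_source.mem_nhds hsrc] with x hx
    exact e.left_inv hx

/-- Smooth periodic extension of the periodic part of `f`. -/
theorem Emb.extend (H : Emb f N) : ∃ G : (Fin d → ℝ) → (Fin d → ℝ), ContDiff ℝ ∞ G ∧ Per G ∧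
    ∀ x, G (f x) = f x - N x := by
  obtain ⟨δ, C, hδ, hC, hu⟩ := H.unif
  obtain ⟨G, hG, hGp, hGe⟩ := periodic_glue
    (fun y (z : Fin d → ℝ) => ∃ x n, y = f x + zc n ∧ z = f x - N x)
    (by
      rintro _ _ n' ⟨x, n, rfl, rfl⟩
      exact ⟨x, n + n', by rw [zc_add, add_assoc], rfl⟩)
    (fun y0 => by
      by_cases hy : y0 ∈ {y | ∃ x n, y = f x + zc n}
      · obtain ⟨x0, n0, rfl⟩ := hy
        obtain ⟨U, hU, r, hr, hx⟩ := H.local_inv x0
        obtain ⟨ε, hε, hx⟩ := Metric.eventually_nhds_iff.1 hx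
        have hc : ContinuousAt (fun y : Fin d → ℝ => y - zc n0) (f x0 + zc n0) := by fun_prop
        have hU' : (fun y : Fin d → ℝ => y - zc n0) ⁻¹' U ∈ 𝓝 (f x0 + zc n0) :=
          hc.preimage_mem_nhds (by simpa using hU)
        refine ⟨_ ∩ ball (f x0 + zc n0) (min δ (ε / (2 * C))), inter_mem hU'
          (ball_mem_nhds _ (by positivity)), fun y => f (r (y - zc n0)) - N (r (y - zc n0)),
          ?_, ?_⟩
        · have h1 : ContDiffOn ℝ ∞ (fun y => r (y - zc n0))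
              ((fun y : Fin d → ℝ => y - zc n0) ⁻¹' U ∩
                ball (f x0 + zc n0) (min δ (ε / (2 * C)))) :=
            hr.comp (contDiff_id.sub contDiff_const).contDiffOn fun y hy => hy.1
          exact (H.smooth.comp_contDiffOn h1).sub (N.contDiff.comp_contDiffOn h1)
        · rintro _ ⟨-, hy⟩ _ ⟨x, n, rfl, rfl⟩
          rw [mem_ball, dist_eq_norm] at hy
          have e : f x + zc n - (f x0 + zc n0) = f x + zc (n - n0) - f x0 := by
            rw [zc_sub]; abel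
          rw [e] at hy
          obtain ⟨m, hm, hle⟩ := hu x0 x _ (hy.trans_le (min_le_left _ _))
          have h2 : dist (x + zc m) x0 < ε := by
            rw [dist_eq_norm]
            have h3 := hy.trans_le (min_le_right _ _)
            rw [lt_div_iff₀ (by positivity)] at h3
            nlinarith [norm_nonneg (f x + zc (n - n0) - f x0)]
          have e2 : f x + zc n - zc n0 = f (x + zc m) := by
            rw [H.equi, ← hm, zc_sub]; abel
          simp only [e2, hx h2]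
          rw [H.equi, map_add]; abel
      · exact ⟨_, H.isClosed.isOpen_compl.mem_nhds hy, fun _ => 0, contDiffOn_const,
          fun y hy' z ⟨x, n, h1, _⟩ => absurd ⟨x, n, h1⟩ hy'⟩)
  exact ⟨G, hG, hGp, fun x => hGe _ _ ⟨x, 0, by rw [zc_zero, add_zero], rfl⟩⟩

end Pool.Agent.Lib.MP_fac2a6_gt
end

-- part Pool.Agent.Lib.MP_fac2a6_gt.Disp
section

/-!
Displacement of isotropic tori on which the flux group has arbitrarily small nonzero elements.
-/

namespace Pool.Agent.Lib.MP_fac2a6_gt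

open Set Filter Topology Metric Function
open scoped ContDiff NNReal

variable {k d : ℕ} {f : (Fin k → ℝ) → (Fin d → ℝ)} {N : (Fin k → ℝ) →L[ℝ] (Fin d → ℝ)}

lemma Emb.linear_near (H : Emb f N) : ∃ ρ : ℝ, 0 < ρ ∧ ∀ ℓ : (Fin d → ℝ) →L[ℝ] ℝ, ℓ.comp N = 0 →
    ∃ K : (Fin d → ℝ) → ℝ, ContDiff ℝ ∞ K ∧ Per K ∧ ∀ x y, ‖y - f x‖ ≤ ρ → K y = ℓ y := by
  obtain ⟨δ, C, hδ, hC, hu⟩ := H.unif
  refine ⟨δ / 4, by positivity, fun ℓ hℓ => ?_⟩
  obtain ⟨K, hK, hKp, hKe⟩ := periodic_glue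
    (fun y (z : ℝ) => ∃ x n u, ‖u‖ ≤ δ / 4 ∧ y = f x + u + zc n ∧ z = ℓ (f x + u))
    (by
      rintro _ _ n' ⟨x, n, u, hu, rfl, rfl⟩
      exact ⟨x, n + n', u, hu, by rw [zc_add, add_assoc], rfl⟩)
    (fun y0 => by
      by_cases hy : ∃ x n u, ‖u‖ < δ / 2 ∧ y0 = f x + u + zc n
      · obtain ⟨x0, n0, u0, hu0, rfl⟩ := hy
        refine ⟨ball _ (δ / 4), ball_mem_nhds _ (by positivity), fun y => ℓ (y - zc n0),
          (ℓ.contDiff.comp (contDiff_id.sub contDiff_const)).contDiffOn, ?_⟩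
        rintro _ hy _ ⟨x, n, u, hu1, rfl, rfl⟩
        rw [mem_ball, dist_eq_norm] at hy
        have h1 : ‖f x + zc (n - n0) - f x0‖ < δ := by
          calc _ = ‖(f x + u + zc n - (f x0 + u0 + zc n0)) - u + u0‖ := by
                congr 1; rw [zc_sub]; abel
            _ ≤ ‖f x + u + zc n - (f x0 + u0 + zc n0)‖ + ‖u‖ + ‖u0‖ :=
                (norm_add_le _ _).trans (by gcongr; exact norm_sub_le _ _)
            _ < δ := by linarith
        obtain ⟨m, hm, -⟩ := hu x0 x _ h1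
        have e : f x + u + zc n - zc n0 = f x + u + N (zc m) := by
          rw [← hm, zc_sub]; abel
        have h2 : ℓ (N (zc m)) = 0 := by
          rw [← ContinuousLinearMap.comp_apply, hℓ]; rfl
        simp only [e]
        rw [map_add ℓ (f x + u), h2, add_zero]
      · refine ⟨ball y0 (δ / 4), ball_mem_nhds _ (by positivity), fun _ => 0, contDiffOn_const, ?_⟩
        rintro _ hy' _ ⟨x, n, u, hu1, rfl, rfl⟩
        refine absurd ⟨x, n, u - (f x + u + zc n - y0), ?_, by abel⟩ hy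
        rw [mem_ball, dist_eq_norm] at hy'
        exact (norm_sub_le _ _).trans_lt (by linarith))
  exact ⟨K, hK, hKp, fun x y hy => hKe _ _ ⟨x, 0, y - f x, hy, by rw [zc_zero]; abel, by
    congr 1; abel⟩⟩

lemma exists_section {V : Type*} [NormedAddCommGroup V] [NormedSpace ℝ V]
    (α : (Fin d → ℝ) →ₗ[ℝ] V) :
    ∃ C : ℝ, 0 < C ∧ ∀ a, ∃ v, α v = α a ∧ ‖v‖ ≤ C * ‖α a‖ := by
  obtain ⟨R, hR⟩ := α.rangeRestrict.exists_rightInverse_of_surjective α.range_rangeRestrict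
  obtain ⟨C, hC, h⟩ := (LinearMap.toContinuousLinearMap R).bound
  refine ⟨C, hC, fun a => ⟨R ⟨α a, a, rfl⟩, ?_, h ⟨α a, a, rfl⟩⟩⟩
  exact congrArg Subtype.val (LinearMap.congr_fun hR ⟨α a, a, rfl⟩)

theorem Emb.displace (H : Emb f N) (Ω : (Fin d → ℝ) →L[ℝ] (Fin d → ℝ) →L[ℝ] ℝ)
    (J : ((Fin d → ℝ) →L[ℝ] ℝ) →L[ℝ] (Fin d → ℝ)) (hJ : ∀ ℓ, Ω (J ℓ) = ℓ) (hJ' : ∀ a, J (Ω a) = a)
    (hiso : ∀ x u v, Ω (fderiv ℝ f x u) (fderiv ℝ f x v) = 0)
    (hsmall : ∀ ε : ℝ, 0 < ε → ∃ n : Fin d → ℤ, (Ω (zc n)).comp N ≠ 0 ∧ ‖(Ω (zc n)).comp N‖ < ε) :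
    ∃ (F : (Fin d → ℝ) → ℝ) (n : Fin d → ℤ) (η : (Fin d → ℝ) → ℝ → (Fin d → ℝ)),
      ContDiff ℝ ∞ F ∧ Per F ∧ (∀ x, η x 0 = x) ∧
      (∀ x t, HasDerivAt (η x) (J (fderiv ℝ F (η x t)) - zc n) t) ∧
      ∀ x y n', η (f x) 1 ≠ f y + zc n' := by
  obtain ⟨δ, C, hδ, hC, hu⟩ := H.unif
  obtain ⟨ρ, hρ, hlin⟩ := H.linear_near
  obtain ⟨G, hG, hGp, hGe⟩ := H.extend
  have hGd : Differentiable ℝ G := hG.differentiable (by simp)
  have hGc : Continuous (fderiv ℝ G) := hG.continuous_fderiv (by simp)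
  obtain ⟨MG, hMG0, hMG⟩ := hGp.fderiv.bounded hGc
  obtain ⟨D, hD0, hD⟩ := H.per_fderiv.bounded H.cont_fderiv
  let α : (Fin d → ℝ) →ₗ[ℝ] ((Fin k → ℝ) →L[ℝ] ℝ) :=
    { toFun := fun v => (Ω v).comp N
      map_add' := fun a b => by rw [map_add, ContinuousLinearMap.add_comp]
      map_smul' := fun c a => by rw [map_smul, ContinuousLinearMap.smul_comp]; rfl }
  obtain ⟨C', hC', hsec⟩ := exists_section α
  set A := ‖J‖ * ‖Ω‖ with hA
  have hA0 : 0 ≤ A := by positivity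
  set M := 1 + A * MG with hM
  have hM0 : 0 < M := by positivity
  set Q := ‖Ω‖ * (A + 2 * C * M) * D * C' with hQ
  have hQ0 : 0 ≤ Q := by positivity
  set κ := 1 / (Q + 1) with hκ
  have hκ0 : 0 < κ := by positivity
  obtain ⟨ρ', hρ', hGu⟩ := hGp.fderiv.unif hGc hκ0
  obtain ⟨r, hr, htay⟩ := H.taylor hκ0
  set s := min (min (min ρ ρ') δ / (2 * M)) (r / (2 * C * M)) with hs
  have hs0 : 0 < s := by positivity
  obtain ⟨n, hn0, hn⟩ := hsmall (s / C') (by positivity)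
  obtain ⟨v, hv, hvle⟩ := hsec (-zc n)
  have hαn : ‖α (-zc n)‖ = ‖(Ω (zc n)).comp N‖ := by rw [map_neg, norm_neg]; rfl
  have hαv : α v ≠ 0 := by
    rw [hv, map_neg, neg_ne_zero]; exact hn0
  have hv0 : 0 < ‖v‖ := norm_pos_iff.2 fun h => hαv (by rw [h, map_zero])
  have hvs : ‖v‖ < s := by
    rw [hαn] at hvle
    rw [lt_div_iff₀ hC'] at hn
    linarith
  have hv1 : 2 * M * ‖v‖ < min (min ρ ρ') δ := by
    have := hvs.trans_le (min_le_left _ _)
    rw [lt_div_iff₀ (by positivity)] at this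
    linarith
  have hv2 : 2 * C * M * ‖v‖ < r := by
    have := hvs.trans_le (min_le_right _ _)
    rw [lt_div_iff₀ (by positivity)] at this
    linarith
  have hvρ : 2 * M * ‖v‖ < ρ := hv1.trans_le ((min_le_left _ _).trans (min_le_left _ _))
  have hvρ' : 2 * M * ‖v‖ < ρ' := hv1.trans_le ((min_le_left _ _).trans (min_le_right _ _))
  have hvδ : 2 * M * ‖v‖ < δ := hv1.trans_le (min_le_right _ _)
  obtain ⟨K, hK, hKp, hKe⟩ := hlin (Ω (zc n + v)) (by
    change α (zc n + v) = 0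
    rw [map_add, hv, map_neg, add_neg_cancel])
  set F : (Fin d → ℝ) → ℝ := fun y => K y - Ω v (G y) with hF
  have hFc : ContDiff ℝ ∞ F := hK.sub ((Ω v).contDiff.comp hG)
  have hFp : Per F := fun y m => by simp only [hF]; rw [hKp, hGp]
  set Z : (Fin d → ℝ) → (Fin d → ℝ) := fun y => J (fderiv ℝ F y) - zc n with hZ
  have hZp : Per Z := fun y m => by simp only [hZ]; rw [hFp.fderiv]
  have hZc : ContDiff ℝ 1 Z :=
    (J.contDiff.comp (hFc.fderiv_right (m := 1) (by norm_cast))).sub contDiff_const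
  obtain ⟨Lz, hLz⟩ := hZp.lipschitz hZc
  obtain ⟨Bz, hBz0, hBz⟩ := hZp.bounded hZc.continuous
  choose η hη0 hη using fun x => exists_global (L := ⟨Bz, hBz0.le⟩) hLz hBz x
  refine ⟨F, n, η, hFc, hFp, hη0, hη, fun x y n' heq => ?_⟩
  set Y : (Fin d → ℝ) → (Fin d → ℝ) := fun y => v - J ((Ω v).comp (fderiv ℝ G y)) with hY
  have hZY : ∀ y, ‖y - f x‖ < ρ → Z y = Y y := by
    intro y hy
    have h1 : F =ᶠ[𝓝 y] fun y => Ω (zc n + v) y - Ω v (G y) := by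
      have : ball (f x) ρ ∈ 𝓝 y := isOpen_ball.mem_nhds (by rwa [mem_ball, dist_eq_norm])
      filter_upwards [this] with y' hy'
      rw [mem_ball, dist_eq_norm] at hy'
      simp only [hF]
      rw [hKe x y' hy'.le]
    have h2 : HasFDerivAt (fun y => Ω (zc n + v) y - Ω v (G y))
        (Ω (zc n + v) - (Ω v).comp (fderiv ℝ G y)) y :=
      (Ω (zc n + v)).hasFDerivAt.sub ((Ω v).hasFDerivAt.comp y (hGd y).hasFDerivAt)
    simp only [hZ, hY]
    rw [h1.fderiv_eq, h2.fderiv, map_sub, hJ']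
    abel
  have hJb : ∀ T : (Fin d → ℝ) →L[ℝ] (Fin d → ℝ), ‖J ((Ω v).comp T)‖ ≤ A * ‖T‖ * ‖v‖ := by
    intro T
    calc _ ≤ ‖J‖ * ‖(Ω v).comp T‖ := J.le_opNorm _
      _ ≤ ‖J‖ * (‖Ω v‖ * ‖T‖) := by gcongr; exact ContinuousLinearMap.opNorm_comp_le _ _
      _ ≤ ‖J‖ * (‖Ω‖ * ‖v‖ * ‖T‖) := by gcongr; exact Ω.le_opNorm _
      _ = _ := by rw [hA]; ring
  have hYb : ∀ y, ‖Y y‖ ≤ M * ‖v‖ := by
    intro y
    refine (norm_sub_le _ _).trans ?_
    have h1 := hJb (fderiv ℝ G y)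
    have h2 : A * ‖fderiv ℝ G y‖ * ‖v‖ ≤ A * MG * ‖v‖ := by gcongr; exact hMG y
    rw [hM]
    linarith
  have hfence : ∀ t ∈ Icc (0:ℝ) 1, ‖η (f x) t - f x‖ ≤ 2 * M * ‖v‖ * t := by
    refine image_norm_le_of_norm_deriv_right_lt_deriv_boundary (f := fun t => η (f x) t - f x)
      (f' := fun t => Z (η (f x) t)) (B := fun t => 2 * M * ‖v‖ * t) (B' := fun _ => 2 * M * ‖v‖)
      (fun t _ => ((hη (f x) t).sub_const _).continuousAt.continuousWithinAt)
      (fun t _ => ((hη (f x) t).sub_const _).hasDerivWithinAt) (by simp [hη0])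
      (fun t => by simpa using (hasDerivAt_id t).const_mul (2 * M * ‖v‖)) fun t ht h => ?_
    have h1 : 0 < M * ‖v‖ := by positivity
    rw [hZY _ (by rw [h]; nlinarith [ht.2])]
    linarith [hYb (η (f x) t)]
  have hnear : ∀ t ∈ Icc (0:ℝ) 1, ‖η (f x) t - f x‖ ≤ 2 * M * ‖v‖ := fun t ht =>
    (hfence t ht).trans (by
      have h1 : 0 < M * ‖v‖ := by positivity
      nlinarith [ht.2])
  have h1 : ‖η (f x) 1 - f x - Y (f x)‖ ≤ A * κ * ‖v‖ := by
    have h2 := norm_image_sub_le_of_norm_deriv_le_segment_01'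
      (f := fun t => η (f x) t - t • Y (f x)) (f' := fun t => Z (η (f x) t) - Y (f x))
      (C := A * κ * ‖v‖) (fun t _ => by
        have h3 := (hη (f x) t).fun_sub ((hasDerivAt_id' t).smul_const (Y (f x)))
        rw [one_smul] at h3
        exact h3.hasDerivWithinAt)
      (fun t ht => by
        have h3 := hnear t (Ico_subset_Icc_self ht)
        rw [hZY _ (h3.trans_lt hvρ)]
        have e : Y (η (f x) t) - Y (f x) =
            -J ((Ω v).comp (fderiv ℝ G (η (f x) t) - fderiv ℝ G (f x))) := by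
          simp only [hY]
          rw [ContinuousLinearMap.comp_sub, map_sub]
          abel
        rw [e, norm_neg]
        refine (hJb _).trans ?_
        gcongr
        exact hGu _ _ (h3.trans hvρ'.le))
    simp only [one_smul, zero_smul, sub_zero, hη0] at h2
    rwa [sub_right_comm] at h2
  have h2 := hnear 1 ⟨zero_le_one, le_rfl⟩
  rw [heq] at h1 h2
  obtain ⟨m, hm, hle⟩ := hu x y n' (h2.trans_lt hvδ)
  have h3 : ‖y + zc m - x‖ ≤ 2 * C * M * ‖v‖ := by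
    refine hle.trans ?_
    calc C * ‖f y + zc n' - f x‖ ≤ C * (2 * M * ‖v‖) := by gcongr
      _ = _ := by ring
  have h4 := htay x (y + zc m) (h3.trans hv2.le)
  rw [H.equi, ← hm] at h4
  set ξ := y + zc m - x
  have h5 : ‖Y (f x) - fderiv ℝ f x ξ‖ ≤ κ * (A + 2 * C * M) * ‖v‖ := by
    calc _ = ‖(f y + zc n' - f x - fderiv ℝ f x ξ) - (f y + zc n' - f x - Y (f x))‖ := by
          congr 1; abel
      _ ≤ κ * ‖ξ‖ + A * κ * ‖v‖ := (norm_sub_le _ _).trans (add_le_add h4 h1)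
      _ ≤ κ * (2 * C * M * ‖v‖) + A * κ * ‖v‖ := by gcongr
      _ = _ := by ring
  have hchain : (fderiv ℝ G (f x)).comp (fderiv ℝ f x) = fderiv ℝ f x - N := by
    have e1 := ((hGd (f x)).hasFDerivAt.comp x (H.diff x).hasFDerivAt)
    have e2 : HasFDerivAt (G ∘ f) (fderiv ℝ f x - N) x := by
      have : G ∘ f = fun x => f x - N x := funext hGe
      rw [this]
      exact (H.diff x).hasFDerivAt.sub N.hasFDerivAt
    exact e1.unique e2
  have h6 : ‖α v‖ ≤ ‖Ω‖ * (κ * (A + 2 * C * M) * ‖v‖) * D := by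
    refine ContinuousLinearMap.opNorm_le_bound _ (by positivity) fun a => ?_
    have e : α v a = Ω (Y (f x) - fderiv ℝ f x ξ) (fderiv ℝ f x a) := by
      have e1 := congrArg (fun T => T a) hchain
      simp only [ContinuousLinearMap.comp_apply, sub_apply] at e1
      rw [map_sub, sub_apply, hiso, sub_zero]
      simp only [hY]
      rw [map_sub, hJ, sub_apply, ContinuousLinearMap.comp_apply, e1, map_sub]
      change Ω v (N a) = _
      ring
    rw [e]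
    calc _ ≤ ‖Ω‖ * ‖Y (f x) - fderiv ℝ f x ξ‖ * ‖fderiv ℝ f x a‖ := Ω.le_opNorm₂ _ _
      _ ≤ ‖Ω‖ * (κ * (A + 2 * C * M) * ‖v‖) * (D * ‖a‖) := by
          gcongr
          exact ((fderiv ℝ f x).le_opNorm a).trans (by gcongr; exact hD x)
      _ = _ := by ring
  have h7 : 0 < ‖α v‖ := norm_pos_iff.2 hαv
  rw [← hv] at hvle
  have h8 : ‖α v‖ ≤ κ * Q * ‖α v‖ := by
    calc _ ≤ ‖Ω‖ * (κ * (A + 2 * C * M) * ‖v‖) * D := h6
      _ ≤ ‖Ω‖ * (κ * (A + 2 * C * M) * (C' * ‖α v‖)) * D := by gcongr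
      _ = _ := by rw [hQ]; ring
  have h9 : κ * Q < 1 := by
    rw [hκ, div_mul_eq_mul_div, one_mul, div_lt_one (by positivity)]
    linarith
  nlinarith

end Pool.Agent.Lib.MP_fac2a6_gt
end

-- part Pool.Agent.Lib.MP_fac2a6_gt.Main
section

/-!
Lagrangian tori with nontrivial image of the fundamental group in irrational four-tori.
-/

namespace Pool.Agent.Lib.MP_fac2a6_gt

open Set Filter Topology Metric Function Matrix
open scoped ContDiff NNReal

lemma exists_small {V : Type*} [NormedAddCommGroup V] [NormedSpace ℝ V] [FiniteDimensional ℝ V]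
    (hV : Module.finrank ℝ V < 3) (v : Fin 3 → V) (hv : LinearIndependent ℤ v) {ε : ℝ}
    (hε : 0 < ε) : ∃ c : Fin 3 → ℤ, ∑ i, c i • v i ≠ 0 ∧ ‖∑ i, c i • v i‖ < ε := by
  by_contra hc
  push Not at hc
  have hd : DiscreteTopology (Submodule.span ℤ (range v)) := by
    refine DiscreteTopology.of_forall_le_norm hε fun x hx => ?_
    obtain ⟨c, hc'⟩ := (Submodule.mem_span_range_iff_exists_fun ℤ).1 x.2
    have := hc c (by rw [hc']; exact fun h => hx (Subtype.ext h))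
    rwa [hc'] at this
  have h1 := Real.finrank_eq_int_finrank_of_discrete hd
  have h2 : Set.finrank ℤ (range v) = 3 := by
    rw [Set.finrank, finrank_span_eq_card hv]; simp
  have h3 : Set.finrank ℝ (range v) ≤ Module.finrank ℝ V := Submodule.finrank_le _
  omega

lemma exists_form {d : ℕ} (W : Matrix (Fin d) (Fin d) ℝ) (hW : W.det ≠ 0) :
    ∃ (Ω : (Fin d → ℝ) →L[ℝ] (Fin d → ℝ) →L[ℝ] ℝ) (J : ((Fin d → ℝ) →L[ℝ] ℝ) →L[ℝ] (Fin d → ℝ)),
      (∀ a b, Ω a b = a ⬝ᵥ (W *ᵥ b)) ∧ (∀ ℓ, Ω (J ℓ) = ℓ) ∧ ∀ a, J (Ω a) = a := by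
  let Ω0 : (Fin d → ℝ) →ₗ[ℝ] ((Fin d → ℝ) →L[ℝ] ℝ) :=
    (LinearMap.toContinuousLinearMap (𝕜 := ℝ) (E := Fin d → ℝ) (F' := ℝ)).toLinearMap ∘ₗ
      Matrix.toLinearMap₂' ℝ W
  have h0 : ∀ a b, Ω0 a b = a ⬝ᵥ (W *ᵥ b) := fun a b => Matrix.toLinearMap₂'_apply' W a b
  have hinj : Injective Ω0 := by
    rw [injective_iff_map_eq_zero]
    intro a ha
    have h1 : a ᵥ* W = 0 := by
      funext i
      have := h0 a (Pi.single i 1)
      rw [ha, dotProduct_mulVec] at this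
      simpa using this.symm
    exact Matrix.eq_zero_of_vecMul_eq_zero hW h1
  have hdim : Module.finrank ℝ (Fin d → ℝ) = Module.finrank ℝ ((Fin d → ℝ) →L[ℝ] ℝ) := by
    rw [← (LinearMap.toContinuousLinearMap (𝕜 := ℝ) (E := Fin d → ℝ) (F' := ℝ)).finrank_eq]
    exact (Subspace.dual_finrank_eq).symm
  let e := (LinearMap.linearEquivOfInjective Ω0 hinj hdim).toContinuousLinearEquiv
  exact ⟨e, e.symm, h0, fun ℓ => e.apply_symm_apply ℓ, fun a => e.symm_apply_apply a⟩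

lemma irr_ne {W : Matrix (Fin 4) (Fin 4) ℝ} (hW : Wᵀ = -W)
    (hirr : ∀ c : Fin 4 → Fin 4 → ℚ,
      (∑ i, ∑ j, (if i < j then ((c i j : ℚ) : ℝ) * W i j else 0)) = 0 → ∀ i j, i < j → c i j = 0)
    {l n : Fin 4 → ℤ} (h : zc l ⬝ᵥ (W *ᵥ zc n) = 0) (i j : Fin 4) : l i * n j = l j * n i := by
  have hs : ∀ i j, W j i = -W i j := fun i j => congrFun (congrFun hW i) j
  have hd : ∀ i, W i i = 0 := fun i => by linarith [hs i i]
  have key := hirr (fun i j => ((l i * n j - l j * n i : ℤ) : ℚ)) (by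
    refine Eq.trans ?_ h
    simp only [dotProduct, mulVec, Fin.sum_univ_four, zc, hd]
    rw [hs 0 1, hs 0 2, hs 0 3, hs 1 2, hs 1 3, hs 2 3]
    simp
    ring)
  have key' : ∀ i j, i < j → l i * n j = l j * n i := fun i j hij => by
    have := key i j hij
    exact sub_eq_zero.1 (by exact_mod_cast this)
  rcases lt_trichotomy i j with hij | rfl | hij
  · exact key' i j hij
  · rfl
  · exact (key' j i hij).symm

lemma small_flux {W : Matrix (Fin 4) (Fin 4) ℝ} (hW : Wᵀ = -W)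
    (hirr : ∀ c : Fin 4 → Fin 4 → ℚ,
      (∑ i, ∑ j, (if i < j then ((c i j : ℚ) : ℝ) * W i j else 0)) = 0 → ∀ i j, i < j → c i j = 0)
    (Ω : (Fin 4 → ℝ) →L[ℝ] (Fin 4 → ℝ) →L[ℝ] ℝ) (hΩ : ∀ a b, Ω a b = a ⬝ᵥ (W *ᵥ b))
    (N : (Fin 2 → ℝ) →L[ℝ] (Fin 4 → ℝ)) {a : Fin 2 → ℝ} {n0 : Fin 4 → ℤ} (ha : N a = zc n0)
    (hn0 : n0 ≠ 0) (ε : ℝ) (hε : 0 < ε) :
    ∃ n : Fin 4 → ℤ, (Ω (zc n)).comp N ≠ 0 ∧ ‖(Ω (zc n)).comp N‖ < ε := by
  obtain ⟨i0, hi0⟩ := Function.ne_iff.1 hn0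
  let β : (Fin 4 → ℤ) →+ ((Fin 2 → ℝ) →L[ℝ] ℝ) := AddMonoidHom.mk' (fun n => (Ω (zc n)).comp N)
    (fun a b => by rw [zc_add, map_add, ContinuousLinearMap.add_comp])
  let lam : (Fin 3 → ℤ) → (Fin 4 → ℤ) := fun c => ∑ j, c j • Pi.single (i0.succAbove j) 1
  have hβ : ∀ c : Fin 3 → ℤ, ∑ j, c j • β (Pi.single (i0.succAbove j) 1) = β (lam c) := by
    intro c
    simp only [lam, map_sum, map_zsmul]
  have hdim : Module.finrank ℝ ((Fin 2 → ℝ) →L[ℝ] ℝ) < 3 := by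
    rw [← (LinearMap.toContinuousLinearMap (𝕜 := ℝ) (E := Fin 2 → ℝ) (F' := ℝ)).finrank_eq]
    have : Module.finrank ℝ ((Fin 2 → ℝ) →ₗ[ℝ] ℝ) = Module.finrank ℝ (Fin 2 → ℝ) :=
      Subspace.dual_finrank_eq
    rw [this]
    simp
  have hli : LinearIndependent ℤ fun j : Fin 3 => β (Pi.single (i0.succAbove j) 1) := by
    rw [Fintype.linearIndependent_iff]
    intro c hc j
    rw [hβ] at hc
    have h1 : zc (lam c) ⬝ᵥ (W *ᵥ zc n0) = 0 := by
      rw [← hΩ, ← ha]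
      exact congrArg (fun T : (Fin 2 → ℝ) →L[ℝ] ℝ => T a) hc
    have h2 := irr_ne hW hirr h1 (i0.succAbove j) i0
    have h3 : lam c i0 = 0 := by
      simp [lam, Finset.sum_apply, Fin.ne_succAbove]
    have h4 : lam c (i0.succAbove j) = c j := by
      simp [lam, Finset.sum_apply, Pi.single_apply]
    rw [h3, h4, zero_mul] at h2
    exact (mul_eq_zero.1 h2).resolve_right hi0
  obtain ⟨c, h1, h2⟩ := exists_small hdim _ hli hε
  rw [hβ] at h1 h2
  exact ⟨lam c, h1, h2⟩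

theorem main (W : Matrix (Fin 4) (Fin 4) ℝ) (hW : Wᵀ = -W) (hdet : W.det ≠ 0)
    (hirr : ∀ c : Fin 4 → Fin 4 → ℚ,
      (∑ i, ∑ j, (if i < j then ((c i j : ℚ) : ℝ) * W i j else 0)) = 0 → ∀ i j, i < j → c i j = 0)
    (f : (Fin 2 → ℝ) → (Fin 4 → ℝ)) (hf : ContDiff ℝ ∞ f)
    (hequi : ∀ m : Fin 2 → ℤ, ∃ n : Fin 4 → ℤ, ∀ x, f (x + zc m) = f x + zc n)
    (hinj : ∀ x y, (∃ n : Fin 4 → ℤ, f x = f y + zc n) → ∃ m : Fin 2 → ℤ, x = y + zc m)
    (himm : ∀ x, Injective (fderiv ℝ f x))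
    (hlag : ∀ x u v, (fderiv ℝ f x u) ⬝ᵥ (W *ᵥ (fderiv ℝ f x v)) = 0)
    (hnt : ∃ (x : Fin 2 → ℝ) (m : Fin 2 → ℤ), f (x + zc m) ≠ f x) :
    ∃ H : ℝ → (Fin 4 → ℝ) → ℝ,
      ContDiff ℝ ∞ (fun p : ℝ × (Fin 4 → ℝ) => H p.1 p.2) ∧
      (∀ t x (n : Fin 4 → ℤ), H t (x + zc n) = H t x) ∧
      ∃ φ : ℝ → (Fin 4 → ℝ) → (Fin 4 → ℝ), ∃ V : ℝ → (Fin 4 → ℝ) → (Fin 4 → ℝ),
        (∀ x, φ 0 x = x) ∧
        (∀ t x, HasDerivAt (fun s => φ s x) (V t (φ t x)) t) ∧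
        (∀ t y v, V t y ⬝ᵥ (W *ᵥ v) = fderiv ℝ (H t) y v) ∧
        (∀ x y : Fin 2 → ℝ, ¬ ∃ n : Fin 4 → ℤ, φ 1 (f x) = f y + zc n) := by
  obtain ⟨N, hN, hint⟩ := exists_lin hequi
  have HE : Emb f N := ⟨hf, hN, hint, fun x y n h => hinj x y ⟨n, h⟩, himm⟩
  obtain ⟨Ω, J, hΩ, hJ, hJ'⟩ := exists_form W hdet
  obtain ⟨x0, m0, hne⟩ := hnt
  obtain ⟨n0, hn0⟩ := hint m0
  have hn0' : n0 ≠ 0 := by
    rintro rfl
    rw [hN, hn0, zc_zero, add_zero] at hne
    exact hne rfl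
  obtain ⟨F, n, η, hF, hFp, hη0, hη, hdis⟩ := HE.displace Ω J hJ hJ'
    (fun x u v => by rw [hΩ]; exact hlag x u v) (small_flux hW hirr Ω hΩ N hn0 hn0')
  refine ⟨fun t y => F (y - t • zc n), hF.comp (by fun_prop), fun t x m => ?_,
    fun t x => η x t + t • zc n, fun t y => J (fderiv ℝ F (y - t • zc n)), fun x => by
      simp [hη0], fun t x => ?_, fun t y v => ?_, ?_⟩
  · simp only
    rw [add_sub_right_comm, hFp]
  · have h1 := (hη x t).fun_add ((hasDerivAt_id' t).smul_const (zc n))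
    simpa using h1
  · rw [← hΩ, hJ, fderiv_comp_sub]
  · rintro x y ⟨n', h⟩
    refine hdis x y (n' - n) ?_
    simp only [one_smul] at h
    rw [zc_sub, ← add_sub_assoc, ← h, add_sub_cancel_right]

end Pool.Agent.Lib.MP_fac2a6_gt
end
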