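import Pool.Agent.Lib.MP_fac2a6_gt.Box

/-!
The point reflection of a lattice cube is the restriction of a Hamiltonian diffeomorphism.
-/

namespace Pool.Agent.Lib.MP_fac2a6_gt

open Set Filter Topology Metric Function Matrix
open scoped ContDiff

variable {W : Matrix (Fin 4) (Fin 4) ℝ}

/-- The map `f` agrees on `K` with a Hamiltonian diffeomorphism. -/
def Move (W : Matrix (Fin 4) (Fin 4) ℝ) (K : Set (Fin 4 → ℝ)) (f : (Fin 4 → ℝ) → (Fin 4 → ℝ)) :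
    Prop := ∃ ψ, Ham W ψ ∧ ∀ x ∈ K, ψ x = f x

lemma Move.comp {K : Set (Fin 4 → ℝ)} {f g : (Fin 4 → ℝ) → (Fin 4 → ℝ)} (h₁ : Move W K f)
    (h₂ : Move W (f '' K) g) : Move W K (fun x => g (f x)) := by
  obtain ⟨ψ₁, a₁, b₁⟩ := h₁
  obtain ⟨ψ₂, a₂, b₂⟩ := h₂
  exact ⟨_, a₁.comp a₂, fun x hx => by
    simp only [b₁ x hx]
    exact b₂ _ (mem_image_of_mem _ hx)⟩

lemma Move.congr {K : Set (Fin 4 → ℝ)} {f g : (Fin 4 → ℝ) → (Fin 4 → ℝ)} (h : Move W K f)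
    (e : ∀ x ∈ K, f x = g x) : Move W K g := by
  obtain ⟨ψ, a, b⟩ := h
  exact ⟨ψ, a, fun x hx => (b x hx).trans (e x hx)⟩

/-- Sliding a column along its own direction. -/
lemma move_column (hdet : W.det ≠ 0) (p : Fin 3 → (Fin 4 → ℝ)) (l e x₀ : Fin 4 → ℝ)
    (hsep : ∀ N : Fin 4 → ℤ, (∀ k, |p k ⬝ᵥ zc N| < 1) → l ⬝ᵥ zc N = 0)
    (he : ∀ u, e ⬝ᵥ (W *ᵥ u) = l ⬝ᵥ u) (hle : l ⬝ᵥ e = 0) (hpe : ∀ k, p k ⬝ᵥ e = 0)
    {K : Set (Fin 4 → ℝ)} (hK : IsCompact K) (hx : ∀ x ∈ K, ∀ k, |p k ⬝ᵥ (x - x₀)| < 1 / 2)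
    (κ : ℝ) : Move W K (fun x => x + (κ * (l ⬝ᵥ (x - x₀))) • e) := by
  classical
  obtain ⟨r, hr, hr'⟩ := exists_margin hK (g := fun x => ‖fun k => p k ⬝ᵥ (x - x₀)‖)
    (by fun_prop) (a := 1 / 2) fun x hx' => by
      rw [pi_norm_lt_iff (by norm_num)]
      exact fun k => hx x hx' k
  set ρ : ℝ := (r + 1 / 2) / 2 with hρ
  let L : (Fin 4 → ℝ) →L[ℝ] ℝ :=
    LinearMap.toContinuousLinearMap
      { toFun := fun x => l ⬝ᵥ x
        map_add' := fun a b => dotProduct_add _ _ _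
        map_smul' := fun c a => dotProduct_smul _ _ _ }
  have hL : ∀ x, L x = l ⬝ᵥ x := fun x => rfl
  set q : (Fin 4 → ℝ) → ℝ := fun x => κ * ((L x - L x₀) ^ 2 / 2) with hq
  have hqs : ContDiff ℝ ∞ q := by rw [hq]; fun_prop
  obtain ⟨G, hG, hGp, hGe⟩ := periodic_glue (d := 4) (F := ℝ)
    (fun y z => ∃ n : Fin 4 → ℤ, (∀ k, |p k ⬝ᵥ (y - zc n - x₀)| ≤ ρ) ∧ z = q (y - zc n))
    (by
      rintro y z m ⟨n, h1, h2⟩
      have e1 : y + zc m - zc (n + m) = y - zc n := by rw [zc_add]; abel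
      exact ⟨n + m, by rw [e1]; exact h1, by rw [e1]; exact h2⟩)
    (by
      intro y0
      have hδ : 0 < (1 - 2 * ρ) / 2 := by rw [hρ]; linarith
      have hU : {y : Fin 4 → ℝ | ∀ k, |p k ⬝ᵥ (y - y0)| < (1 - 2 * ρ) / 2} ∈ 𝓝 y0 := by
        refine IsOpen.mem_nhds ?_ (fun k => by simpa using hδ)
        rw [Set.ofPred_forall]
        exact isOpen_iInter_of_finite fun k => isOpen_lt (by fun_prop) continuous_const
      by_cases hex : ∃ y ∈ {y : Fin 4 → ℝ | ∀ k, |p k ⬝ᵥ (y - y0)| < (1 - 2 * ρ) / 2},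
          ∃ n : Fin 4 → ℤ, ∀ k, |p k ⬝ᵥ (y - zc n - x₀)| ≤ ρ
      · obtain ⟨y1, hy1, n1, hn1⟩ := hex
        refine ⟨_, hU, fun y => q (y - zc n1), ?_, ?_⟩
        · exact (hqs.comp (by fun_prop)).contDiffOn
        · rintro y hy z ⟨n, hn, rfl⟩
          have h1 : l ⬝ᵥ zc (n - n1) = 0 := by
            refine hsep _ fun k => ?_
            have a1 := abs_lt.1 (hy k)
            have a2 := abs_lt.1 (hy1 k)
            have a3 := abs_le.1 (hn k)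
            have a4 := abs_le.1 (hn1 k)
            simp only [dotProduct_sub, zc_sub] at a1 a2 a3 a4 ⊢
            rw [abs_lt]
            constructor <;> linarith
          rw [zc_sub, dotProduct_sub] at h1
          simp only [hq, hL, dotProduct_sub]
          rw [sub_eq_zero.1 h1]
      · refine ⟨_, hU, fun _ => 0, contDiffOn_const, ?_⟩
        rintro y hy z ⟨n, hn, -⟩
        exact absurd ⟨y, hy, n, hn⟩ hex)
  obtain ⟨Ω, J, hΩ, hJ, hJ'⟩ := exists_form W hdet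
  have hJL : J L = e := by
    rw [← hJ' e]
    congr 1
    ext u
    rw [hΩ, he, hL]
  set Z : (Fin 4 → ℝ) → (Fin 4 → ℝ) := fun y => J (fderiv ℝ G y) with hZ
  have hZp : Per Z := fun y m => by simp only [hZ]; rw [hGp.fderiv]
  have hZc : ContDiff ℝ 1 Z := J.contDiff.comp (hG.fderiv_right (m := 1) (by norm_cast))
  obtain ⟨Lz, hLz⟩ := hZp.lipschitz hZc
  obtain ⟨Bz, hBz0, hBz⟩ := hZp.bounded hZc.continuous
  choose η hη0 hη using fun x => exists_global (L := ⟨Bz, hBz0.le⟩) hLz hBz x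
  have hZO : ∀ y, (∀ k, |p k ⬝ᵥ (y - x₀)| < ρ) → Z y = (κ * (l ⬝ᵥ (y - x₀))) • e := by
    intro y hy
    have hO : {y : Fin 4 → ℝ | ∀ k, |p k ⬝ᵥ (y - x₀)| < ρ} ∈ 𝓝 y := by
      refine IsOpen.mem_nhds ?_ hy
      rw [Set.ofPred_forall]
      exact isOpen_iInter_of_finite fun k => isOpen_lt (by fun_prop) continuous_const
    have e1 : G =ᶠ[𝓝 y] q := by
      filter_upwards [hO] with y' hy'
      exact hGe _ _ ⟨0, fun k => by simpa [zc_zero] using (hy' k).le, by simp [zc_zero]⟩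
    have h1 : HasFDerivAt q ((κ * (L y - L x₀)) • L) y := by
      have h2 : HasDerivAt (fun s : ℝ => κ * ((s - L x₀) ^ 2 / 2)) (κ * (L y - L x₀)) (L y) := by
        refine (((((hasDerivAt_id' (L y)).sub_const (L x₀)).fun_pow 2).div_const 2).const_mul
          κ).congr_deriv ?_
        norm_num
      exact h2.comp_hasFDerivAt y L.hasFDerivAt
    simp only [hZ]
    rw [e1.fderiv_eq, h1.fderiv, map_smul, hJL, hL, hL, dotProduct_sub]
  refine ⟨fun x => if x ∈ K then x + (1 : ℝ) • ((κ * (l ⬝ᵥ (x - x₀))) • e) else η x 1,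
    ⟨fun _ => G, hG.comp contDiff_snd, fun _ x n => hGp x n,
      fun t x => if x ∈ K then x + t • ((κ * (l ⬝ᵥ (x - x₀))) • e) else η x t, fun _ => Z,
      fun x => ?_, fun t x => ?_, fun t y u => ?_, rfl⟩, fun x hx' => ?_⟩
  · by_cases h : x ∈ K <;> simp [h, hη0]
  · by_cases h : x ∈ K
    · simp only [if_pos h]
      have e1 : ∀ w : Fin 4 → ℝ, w ⬝ᵥ e = 0 →
          w ⬝ᵥ (x + t • ((κ * (l ⬝ᵥ (x - x₀))) • e) - x₀) = w ⬝ᵥ (x - x₀) := by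
        intro w hw
        rw [add_sub_right_comm, dotProduct_add, dotProduct_smul, dotProduct_smul, hw]
        simp
      rw [hZO _ fun k => by
        rw [e1 _ (hpe k)]
        have := (norm_le_pi_norm _ k).trans (hr' x h)
        rw [Real.norm_eq_abs] at this
        rw [hρ]
        linarith, e1 _ hle]
      simpa using ((hasDerivAt_id' t).smul_const ((κ * (l ⬝ᵥ (x - x₀))) • e)).const_add x
    · simp only [if_neg h]
      exact hη x t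
  · simp only [hZ]
    rw [← hΩ, hJ]
  · simp [hx']

lemma skew_dot (hW : Wᵀ = -W) (a b : Fin 4 → ℝ) : a ⬝ᵥ (W *ᵥ b) = -(b ⬝ᵥ (W *ᵥ a)) := by
  rw [dotProduct_mulVec, ← mulVec_transpose, hW, neg_mulVec, neg_dotProduct, dotProduct_comm]

/-- Four slides whose product is minus the identity on a symplectic plane. -/
lemma move_word (hW : Wᵀ = -W) (hdet : W.det ≠ 0) (a b la lb p₀ p₁ ga gb x₀ : Fin 4 → ℝ)
    (s : ℝ) (hs : s ≠ 0) (ha : ∀ u, a ⬝ᵥ (W *ᵥ u) = la ⬝ᵥ u) (hb : ∀ u, b ⬝ᵥ (W *ᵥ u) = lb ⬝ᵥ u)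
    (hβ : lb ⬝ᵥ a ≠ 0) (h0a : p₀ ⬝ᵥ a = 0) (h0b : p₀ ⬝ᵥ b = 0) (h1a : p₁ ⬝ᵥ a = 0)
    (h1b : p₁ ⬝ᵥ b = 0) (haa : ga ⬝ᵥ a = 0) (hab : ga ⬝ᵥ b = 0) (hba : gb ⬝ᵥ a = 0)
    (hbb : gb ⬝ᵥ b = 0)
    (hN : ∀ N : Fin 4 → ℤ, |p₀ ⬝ᵥ zc N| < 1 → |p₁ ⬝ᵥ zc N| < 1 → ga ⬝ᵥ zc N = 0 ∧
      gb ⬝ᵥ zc N = 0 ∧ ∃ i j : ℤ, s * (la ⬝ᵥ zc N) = i ∧ s * (lb ⬝ᵥ zc N) = j)
    {K : Set (Fin 4 → ℝ)} (hK : IsCompact K)
    (hx : ∀ x ∈ K, |p₀ ⬝ᵥ (x - x₀)| < 1 / 2 ∧ |p₁ ⬝ᵥ (x - x₀)| < 1 / 2 ∧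
      |s * (la ⬝ᵥ (x - x₀)) + ga ⬝ᵥ (x - x₀)| < 1 / 2 ∧
      |s * (lb ⬝ᵥ (x - x₀)) + gb ⬝ᵥ (x - x₀)| < 1 / 2) :
    Move W K (fun x => x + (2 / (lb ⬝ᵥ a)) • ((la ⬝ᵥ (x - x₀)) • b - (lb ⬝ᵥ (x - x₀)) • a)) := by
  set β := lb ⬝ᵥ a with hβd
  have laa : la ⬝ᵥ a = 0 := by have := skew_dot hW a a; rw [ha] at this; linarith
  have lbb : lb ⬝ᵥ b = 0 := by have := skew_dot hW b b; rw [hb] at this; linarith
  have lab : la ⬝ᵥ b = -β := by have := skew_dot hW a b; rw [ha, hb] at this; exact this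
  have step : ∀ (i j : ℤ) (g : Fin 4 → ℝ), (g = ga ∨ g = gb) → ∀ (σ : ℝ), (σ = 1 ∨ σ = -1) →
      ∀ (K' : Set (Fin 4 → ℝ)), IsCompact K' →
      (∀ x ∈ K', |p₀ ⬝ᵥ (x - x₀)| < 1 / 2 ∧ |p₁ ⬝ᵥ (x - x₀)| < 1 / 2 ∧
        |σ * s * (i * (la ⬝ᵥ (x - x₀)) + j * (lb ⬝ᵥ (x - x₀))) + g ⬝ᵥ (x - x₀)| < 1 / 2) →
      ∀ κ : ℝ, Move W K' (fun x => x + (κ * (i * (la ⬝ᵥ (x - x₀)) + j * (lb ⬝ᵥ (x - x₀)))) •
        ((i : ℝ) • a + (j : ℝ) • b)) := by
    intro i j g hg σ hσ K' hK' hx' κ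
    have hga : g ⬝ᵥ a = 0 := by rcases hg with rfl | rfl <;> assumption
    have hgb : g ⬝ᵥ b = 0 := by rcases hg with rfl | rfl <;> assumption
    have el : ∀ u, ((i : ℝ) • la + (j : ℝ) • lb) ⬝ᵥ u = i * (la ⬝ᵥ u) + j * (lb ⬝ᵥ u) := by
      intro u
      rw [add_dotProduct, smul_dotProduct, smul_dotProduct]; rfl
    have ez : ∀ u, ((σ * s) • ((i : ℝ) • la + (j : ℝ) • lb) + g) ⬝ᵥ u
        = σ * s * (i * (la ⬝ᵥ u) + j * (lb ⬝ᵥ u)) + g ⬝ᵥ u := by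
      intro u
      rw [add_dotProduct, smul_dotProduct, el]; rfl
    have ee : ∀ w : Fin 4 → ℝ, w ⬝ᵥ ((i : ℝ) • a + (j : ℝ) • b) = i * (w ⬝ᵥ a) + j * (w ⬝ᵥ b) := by
      intro w
      rw [dotProduct_add, dotProduct_smul, dotProduct_smul]; rfl
    have hle : ((i : ℝ) • la + (j : ℝ) • lb) ⬝ᵥ ((i : ℝ) • a + (j : ℝ) • b) = 0 := by
      rw [el, ee, ee, laa, lbb, lab, ← hβd]; ring
    have h := move_column hdet ![p₀, p₁, (σ * s) • ((i : ℝ) • la + (j : ℝ) • lb) + g]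
      ((i : ℝ) • la + (j : ℝ) • lb) ((i : ℝ) • a + (j : ℝ) • b) x₀ (fun N hk => ?_) (fun u => ?_)
      hle (fun k => ?_) hK' (fun x hx'' k => ?_) κ
    · simpa only [el] using h
    · obtain ⟨c1, c2, m, n, hm, hn⟩ := hN N (hk 0) (hk 1)
      have c3 : g ⬝ᵥ zc N = 0 := by rcases hg with rfl | rfl <;> assumption
      have h2 : |((σ * s) • ((i : ℝ) • la + (j : ℝ) • lb) + g) ⬝ᵥ zc N| < 1 := hk 2
      have e1 : s * (i * (la ⬝ᵥ zc N) + j * (lb ⬝ᵥ zc N)) = ((i * m + j * n : ℤ) : ℝ) := by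
        push_cast
        rw [← hm, ← hn]; ring
      rw [ez, c3, add_zero, mul_assoc, e1, abs_mul] at h2
      have h3 : |σ| = 1 := by rcases hσ with rfl | rfl <;> simp
      rw [h3, one_mul] at h2
      have h4 : |i * m + j * n| < 1 := by exact_mod_cast h2
      rw [Int.abs_lt_one_iff] at h4
      rw [h4] at e1
      rw [el]
      exact (mul_eq_zero.1 (by simpa using e1)).resolve_left hs
    · rw [add_dotProduct, smul_dotProduct, smul_dotProduct, ha, hb, el]; rfl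
    · fin_cases k
      · change p₀ ⬝ᵥ _ = 0
        rw [ee, h0a, h0b]; simp
      · change p₁ ⬝ᵥ _ = 0
        rw [ee, h1a, h1b]; simp
      · change ((σ * s) • ((i : ℝ) • la + (j : ℝ) • lb) + g) ⬝ᵥ _ = 0
        rw [add_dotProduct, smul_dotProduct, hle, ee, hga, hgb]; simp
    · fin_cases k
      · exact (hx' x hx'').1
      · exact (hx' x hx'').2.1
      · change |((σ * s) • ((i : ℝ) • la + (j : ℝ) • lb) + g) ⬝ᵥ _| < _
        rw [ez]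
        exact (hx' x hx'').2.2
  have ev : ∀ (w x : Fin 4 → ℝ) (c d : ℝ),
      w ⬝ᵥ (x + (c • a + d • b) - x₀) = w ⬝ᵥ (x - x₀) + c * (w ⬝ᵥ a) + d * (w ⬝ᵥ b) := by
    intro w x c d
    rw [add_sub_right_comm, dotProduct_add, dotProduct_add, dotProduct_smul, dotProduct_smul,
      add_assoc]; rfl
  let f : ℝ → ℝ → ℝ → ℝ → (Fin 4 → ℝ) → (Fin 4 → ℝ) := fun c₁ c₂ d₁ d₂ x =>
    x + (((c₁ * (la ⬝ᵥ (x - x₀)) + c₂ * (lb ⬝ᵥ (x - x₀))) / β) • a +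
      ((d₁ * (la ⬝ᵥ (x - x₀)) + d₂ * (lb ⬝ᵥ (x - x₀))) / β) • b)
  have fc : ∀ c₁ c₂ d₁ d₂, Continuous (f c₁ c₂ d₁ d₂) := fun _ _ _ _ => by
    simp only [f]; fun_prop
  have m1 : Move W K (f 2 0 0 0) := by
    refine (step 1 0 ga (Or.inl rfl) 1 (Or.inl rfl) K hK (fun x h => ?_) (2 / β)).congr
      fun x _ => ?_
    · obtain ⟨c1, c2, c3, -⟩ := hx x h
      exact ⟨c1, c2, by simpa using c3⟩
    · simp only [f]
      push_cast
      module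
  have m2 : Move W K (f 2 (-2) 0 1) := by
    refine (m1.comp (step (-2) 1 gb (Or.inr rfl) 1 (Or.inl rfl) _ (hK.image (fc _ _ _ _)) ?_
      (1 / β))).congr fun x _ => ?_
    · rintro _ ⟨x, h, rfl⟩
      obtain ⟨c1, c2, -, c4⟩ := hx x h
      simp only [f, ev, h0a, h0b, h1a, h1b, hba, hbb, laa, lbb, lab, ← hβd, mul_zero, add_zero]
      refine ⟨c1, c2, ?_⟩
      convert c4 using 3
      push_cast
      field_simp
      ring
    · simp only [f, ev, laa, lbb, lab, ← hβd]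
      push_cast
      match_scalars <;> field_simp <;> ring
  have m3 : Move W K (f 0 (-2) 2 1) := by
    refine (m2.comp (step (-1) 1 ga (Or.inl rfl) 1 (Or.inl rfl) _ (hK.image (fc _ _ _ _)) ?_
      (2 / β))).congr fun x _ => ?_
    · rintro _ ⟨x, h, rfl⟩
      obtain ⟨c1, c2, c3, -⟩ := hx x h
      simp only [f, ev, h0a, h0b, h1a, h1b, haa, hab, laa, lbb, lab, ← hβd, mul_zero, add_zero]
      refine ⟨c1, c2, ?_⟩
      convert c3 using 3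
      push_cast
      field_simp
      ring
    · simp only [f, ev, laa, lbb, lab, ← hβd]
      push_cast
      match_scalars <;> field_simp <;> ring
  refine (m3.comp (step 0 1 gb (Or.inr rfl) (-1) (Or.inr rfl) _ (hK.image (fc _ _ _ _)) ?_
    (1 / β))).congr fun x _ => ?_
  · rintro _ ⟨x, h, rfl⟩
    obtain ⟨c1, c2, -, c4⟩ := hx x h
    simp only [f, ev, h0a, h0b, h1a, h1b, hba, hbb, laa, lbb, lab, ← hβd, mul_zero, add_zero]
    refine ⟨c1, c2, ?_⟩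
    convert c4 using 3
    push_cast
    field_simp
    ring
  · simp only [f, ev, laa, lbb, lab, ← hβd]
    push_cast
    match_scalars <;> field_simp <;> ring

variable {v : (Fin 4 → ℤ) → (Fin 4 → ℝ)}

lemma int_zero_of_abs {ξ N : Fin 4 → ℤ} (h : |zc ξ ⬝ᵥ zc N| < 1) : zc ξ ⬝ᵥ zc N = 0 := by
  rw [zc_dot] at h ⊢
  have h1 : |ξ ⬝ᵥ N| < 1 := by exact_mod_cast h
  rw [Int.abs_lt_one_iff] at h1
  rw [h1]; simp

theorem move_refl (hW : Wᵀ = -W) (hdet : W.det ≠ 0) (hv : Dual W v)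
    {P : Matrix (Fin 4) (Fin 4) ℤ} (hP : P.det ≠ 0) (c : Fin 4 → ℝ) {K : Set (Fin 4 → ℝ)}
    (hK : IsCompact K) (hx : ∀ x ∈ K, ∀ k, |crd P c x k| < 1 / 2) :
    ∃ f, Move W K f ∧ ∀ x ∈ K, crd P c (f x) = -crd P c x := by
  set R : Matrix (Fin 4) (Fin 4) ℝ := (Int.castRingHom ℝ).mapMatrix P with hR
  have hRd : IsUnit R.det := by
    rw [hR, ← RingHom.map_det, isUnit_iff_ne_zero]
    simpa using hP
  have hRu : ∀ u k, (R *ᵥ u) k = zc (P k) ⬝ᵥ u := fun u k => rfl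
  set x₀ := R⁻¹ *ᵥ c with hx₀
  have hc : ∀ x k, crd P c x k = zc (P k) ⬝ᵥ (x - x₀) := by
    intro x k
    rw [dotProduct_sub, ← hRu x₀, hx₀, mulVec_mulVec, mul_nonsing_inv _ hRd, one_mulVec]
    rfl
  obtain ⟨e, he⟩ : ∃ e : Fin 4 → (Fin 4 → ℝ), ∀ l, e l = R⁻¹ *ᵥ Pi.single l 1 := ⟨_, fun _ => rfl⟩
  have hξe : ∀ k l, zc (P k) ⬝ᵥ e l = if k = l then 1 else 0 := by
    intro k l
    rw [← hRu, he, mulVec_mulVec, mul_nonsing_inv _ hRd, one_mulVec, Pi.single_apply]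
  have hexp : ∀ u, u = (zc (P 0) ⬝ᵥ u) • e 0 + (zc (P 1) ⬝ᵥ u) • e 1 + (zc (P 2) ⬝ᵥ u) • e 2
      + (zc (P 3) ⬝ᵥ u) • e 3 := by
    intro u
    have h1 : R *ᵥ u = (zc (P 0) ⬝ᵥ u) • Pi.single 0 1 + (zc (P 1) ⬝ᵥ u) • Pi.single 1 1
        + (zc (P 2) ⬝ᵥ u) • Pi.single 2 1 + (zc (P 3) ⬝ᵥ u) • Pi.single 3 1 := by
      funext k
      rw [hRu]
      fin_cases k <;> simp
    simp only [he, ← mulVec_smul, ← mulVec_add]
    rw [← h1, mulVec_mulVec, nonsing_inv_mul _ hRd, one_mulVec]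
  obtain ⟨om, hom⟩ : ∃ om : Fin 4 → Fin 4 → ℝ, ∀ k l, om k l = (e k ᵥ* W) ⬝ᵥ e l := ⟨_, fun _ _ => rfl⟩
  have hsk : ∀ k l, om k l = -om l k := by
    intro k l
    rw [hom, hom, ← dotProduct_mulVec, ← dotProduct_mulVec, skew_dot hW]
  have hdg : ∀ k, om k k = 0 := fun k => by linarith [hsk k k]
  have hl : ∀ k u, (e k ᵥ* W) ⬝ᵥ u = (zc (P 0) ⬝ᵥ u) * om k 0 + (zc (P 1) ⬝ᵥ u) * om k 1
      + (zc (P 2) ⬝ᵥ u) * om k 2 + (zc (P 3) ⬝ᵥ u) * om k 3 := by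
    intro k u
    conv_lhs => rw [hexp u]
    simp only [dotProduct_add, dotProduct_smul, smul_eq_mul, hom]
  have hlv : ∀ k j, (e k ᵥ* W) ⬝ᵥ v (P j) = -(if j = k then 1 else 0) := by
    intro k j
    rw [← dotProduct_mulVec, skew_dot hW, hv.ham, hξe]
  have hβ : zc (P 1) ⬝ᵥ v (P 0) ≠ 0 := (hv.indep hP 0).ne_zero 0
  set β := zc (P 1) ⬝ᵥ v (P 0) with hβd
  have hβ' : zc (P 0) ⬝ᵥ v (P 1) = -β := by
    rw [hβd, ← hv.ham, ← hv.ham, skew_dot hW]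
  have i20 := hl 2 (v (P 0))
  have i21 := hl 2 (v (P 1))
  have i22 := hl 2 (v (P 2))
  have i30 := hl 3 (v (P 0))
  have i31 := hl 3 (v (P 1))
  rw [hlv] at i20 i21 i22 i30 i31
  simp only [hv.self, hdg, hβ', ← hβd, hsk 2 3, Fin.reduceEq, reduceIte] at i20 i21 i22 i30 i31
  have hγ : om 3 2 ≠ 0 := by
    intro h0
    rw [h0] at i20 i21 i22
    have a1 : om 2 1 = 0 := (mul_eq_zero.1 (by linarith : β * om 2 1 = 0)).resolve_left hβ
    have a0 : om 2 0 = 0 := (mul_eq_zero.1 (by linarith : β * om 2 0 = 0)).resolve_left hβ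
    rw [a0, a1] at i22
    norm_num at i22
  have eg : ∀ (r₀ r₁ : ℝ) (u : Fin 4 → ℝ), (r₀ • zc (P 0) + r₁ • zc (P 1)) ⬝ᵥ u
      = r₀ * (zc (P 0) ⬝ᵥ u) + r₁ * (zc (P 1) ⬝ᵥ u) := by
    intro r₀ r₁ u
    rw [add_dotProduct, smul_dotProduct, smul_dotProduct]; rfl
  have m1 := move_word hW hdet (e 2) (e 3) (e 2 ᵥ* W) (e 3 ᵥ* W) (zc (P 0)) (zc (P 1))
    ((-om 2 0 / om 3 2) • zc (P 0) + (-om 2 1 / om 3 2) • zc (P 1))
    ((-om 3 0 / om 3 2) • zc (P 0) + (-om 3 1 / om 3 2) • zc (P 1)) x₀ (1 / om 3 2)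
    (one_div_ne_zero hγ) (fun u => dotProduct_mulVec _ _ _) (fun u => dotProduct_mulVec _ _ _)
    (by rw [← hom]; exact hγ) (by simp [hξe]) (by simp [hξe]) (by simp [hξe]) (by simp [hξe])
    (by rw [eg]; simp [hξe]) (by rw [eg]; simp [hξe]) (by rw [eg]; simp [hξe])
    (by rw [eg]; simp [hξe])
    (fun N h0 h1 => by
      have a0 := int_zero_of_abs h0
      have a1 := int_zero_of_abs h1
      refine ⟨by rw [eg, a0, a1]; simp, by rw [eg, a0, a1]; simp, -(P 3 ⬝ᵥ N), P 2 ⬝ᵥ N, ?_, ?_⟩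
      · rw [hl, a0, a1, hdg, hsk 2 3, zc_dot (P 3)]
        push_cast
        field_simp
        ring
      · rw [hl, a0, a1, hdg, zc_dot (P 2)]
        field_simp
        ring) hK
    (fun x h => by
      refine ⟨by rw [← hc]; exact hx x h 0, by rw [← hc]; exact hx x h 1, ?_, ?_⟩
      · have := hx x h 3
        rw [hc, ← abs_neg] at this
        convert this using 2
        rw [hl, eg, hdg, hsk 2 3]
        field_simp
        ring
      · have := hx x h 2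
        rw [hc] at this
        convert this using 2
        rw [hl, eg, hdg]
        field_simp
        ring)
  rw [← hom] at m1
  have ev : ∀ (w x a b : Fin 4 → ℝ) (r c d : ℝ), w ⬝ᵥ (x + r • (c • a - d • b) - x₀)
      = w ⬝ᵥ (x - x₀) + r * (c * (w ⬝ᵥ a) - d * (w ⬝ᵥ b)) := by
    intro w x a b r c d
    rw [add_sub_right_comm, dotProduct_add, dotProduct_smul, dotProduct_sub w (c • a),
      dotProduct_smul, dotProduct_smul]; rfl
  have m2 := m1.comp (move_word hW hdet (v (P 0)) (v (P 1)) (zc (P 0)) (zc (P 1)) 0 0 0 0 x₀ 1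
    one_ne_zero (hv.ham _) (hv.ham _) hβ (by simp) (by simp) (by simp) (by simp) (by simp)
    (by simp) (by simp) (by simp)
    (fun N _ _ => ⟨by simp, by simp, P 0 ⬝ᵥ N, P 1 ⬝ᵥ N, by rw [one_mul, zc_dot],
      by rw [one_mul, zc_dot]⟩) (hK.image (by fun_prop))
    (by
      rintro _ ⟨x, h, rfl⟩
      have a0 := hx x h 0
      have a1 := hx x h 1
      rw [hc] at a0 a1
      simp only [zero_dotProduct, one_mul, add_zero, ev, hξe, Fin.reduceEq, reduceIte, mul_zero,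
        sub_zero, abs_zero]
      exact ⟨by norm_num, by norm_num, a0, a1⟩))
  refine ⟨_, m2, fun x _ => ?_⟩
  funext k
  simp only [Pi.neg_apply, hc, ev, hξe, ← hβd, hl, Fin.reduceEq, reduceIte, mul_zero, sub_zero,
    add_zero]
  fin_cases k
  · simp only [Fin.zero_eta, hv.self, hβ', Fin.reduceEq, reduceIte]
    field_simp
    ring
  · simp only [Fin.mk_one, hv.self, ← hβd, Fin.reduceEq, reduceIte]
    field_simp
    ring
  · simp only [Fin.reduceFinMk, hdg, Fin.reduceEq, reduceIte]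
    field_simp
    linear_combination (-2 * zc (P 0) ⬝ᵥ (x - x₀)) * i31 + (2 * zc (P 1) ⬝ᵥ (x - x₀)) * i30
  · simp only [Fin.reduceFinMk, hdg, hsk 2 3, Fin.reduceEq, reduceIte]
    field_simp
    linear_combination (2 * zc (P 0) ⬝ᵥ (x - x₀)) * i21 - (2 * zc (P 1) ⬝ᵥ (x - x₀)) * i20

theorem good_refl (hW : Wᵀ = -W) (hdet : W.det ≠ 0) (hv : Dual W v) {U : Set (Fin 4 → ℝ)}
    (h1 : ∀ y ∈ U, ∀ k, |y k| < 1 / 2) (h2 : ∀ y ∈ U, -y ∉ U) : Good W U := by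
  intro P c K hP hK hx
  obtain ⟨f, ⟨ψ, hψ, hf⟩, hr⟩ := move_refl hW hdet hv hP c hK fun x h => h1 _ (hx x h)
  refine ⟨ψ, hψ, fun x h y h' n heq => h2 _ (hx x h) ?_⟩
  rw [hf x h] at heq
  have e : -crd P c x = crd P c y := by
    funext k
    have a1 := congrFun (hr x h) k
    have a2 := abs_lt.1 (h1 _ (hx x h) k)
    have a3 := abs_lt.1 (h1 _ (hx y h') k)
    rw [heq] at a1
    simp only [crd, dotProduct_add, Pi.neg_apply] at a1 a2 a3 ⊢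
    have a4 : zc (P k) ⬝ᵥ zc n = 0 := int_zero_of_abs (by rw [abs_lt]; constructor <;> linarith)
    linarith
  rw [e]
  exact hx y h'

end Pool.Agent.Lib.MP_fac2a6_gt
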