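import Pool.Agent.Lib.MP_fac2a6_gt.Main

/-!
Hamiltonian diffeomorphisms of a four-torus with a constant form: composition and shears.
-/

namespace Pool.Agent.Lib.MP_fac2a6_gt

open Set Filter Topology Metric Function Matrix
open scoped ContDiff

/-- `ψ` is the time-one map of a smooth periodic Hamiltonian. -/
def Ham (W : Matrix (Fin 4) (Fin 4) ℝ) (ψ : (Fin 4 → ℝ) → (Fin 4 → ℝ)) : Prop :=
  ∃ H : ℝ → (Fin 4 → ℝ) → ℝ,
    ContDiff ℝ ∞ (fun p : ℝ × (Fin 4 → ℝ) => H p.1 p.2) ∧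
    (∀ t x (n : Fin 4 → ℤ), H t (x + zc n) = H t x) ∧
    ∃ φ : ℝ → (Fin 4 → ℝ) → (Fin 4 → ℝ), ∃ V : ℝ → (Fin 4 → ℝ) → (Fin 4 → ℝ),
      (∀ x, φ 0 x = x) ∧
      (∀ t x, HasDerivAt (fun s => φ s x) (V t (φ t x)) t) ∧
      (∀ t y v, V t y ⬝ᵥ (W *ᵥ v) = fderiv ℝ (H t) y v) ∧ φ 1 = ψ

/-- The image of `K` in the torus is displaceable. -/
def Disp (W : Matrix (Fin 4) (Fin 4) ℝ) (K : Set (Fin 4 → ℝ)) : Prop :=
  ∃ ψ, Ham W ψ ∧ ∀ x ∈ K, ∀ y ∈ K, ∀ n : Fin 4 → ℤ, ψ x ≠ y + zc n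

variable {W : Matrix (Fin 4) (Fin 4) ℝ}

lemma slice_diff {H : ℝ → (Fin 4 → ℝ) → ℝ}
    (h : ContDiff ℝ ∞ (fun p : ℝ × (Fin 4 → ℝ) => H p.1 p.2)) (t : ℝ) :
    Differentiable ℝ (H t) := by
  have h1 : ContDiff ℝ ∞ (fun y : Fin 4 → ℝ => H t y) :=
    h.comp (f := fun y : Fin 4 → ℝ => (t, y)) (contDiff_const.prodMk contDiff_id)
  exact h1.differentiable (by simp)

lemma Ham.comp {ψ₁ ψ₂ : (Fin 4 → ℝ) → (Fin 4 → ℝ)} (h₁ : Ham W ψ₁) (h₂ : Ham W ψ₂) :
    Ham W (fun x => ψ₂ (ψ₁ x)) := by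
  obtain ⟨H₁, hs₁, hp₁, φ₁, V₁, h0₁, hd₁, hV₁, rfl⟩ := h₁
  obtain ⟨H₂, hs₂, hp₂, φ₂, V₂, h0₂, hd₂, hV₂, rfl⟩ := h₂
  set a : ℝ → ℝ := fun t => Real.smoothTransition (3 * t) with ha
  set b : ℝ → ℝ := fun t => Real.smoothTransition (3 * t - 2) with hb
  have has : ContDiff ℝ ∞ a := Real.smoothTransition.contDiff.comp (by fun_prop)
  have hbs : ContDiff ℝ ∞ b := Real.smoothTransition.contDiff.comp (by fun_prop)
  have had : ContDiff ℝ ∞ (deriv a) := (contDiff_infty_iff_deriv.1 has).2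
  have hbd : ContDiff ℝ ∞ (deriv b) := (contDiff_infty_iff_deriv.1 hbs).2
  have ha1 : ∀ t, 1 / 3 ≤ t → a t = 1 := fun t ht =>
    Real.smoothTransition.one_of_one_le (by linarith)
  have hb0 : ∀ t, t ≤ 2 / 3 → b t = 0 := fun t ht =>
    Real.smoothTransition.zero_of_nonpos (by linarith)
  have ha0 : a 0 = 0 := Real.smoothTransition.zero_of_nonpos (by norm_num)
  have hb1 : b 1 = 1 := Real.smoothTransition.one_of_one_le (by norm_num)
  refine ⟨fun t y => deriv a t * H₁ (a t) y + deriv b t * H₂ (b t) y, ?_, fun t x n => ?_,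
    fun t x => φ₂ (b t) (φ₁ (a t) x),
    fun t y => deriv a t • V₁ (a t) y + deriv b t • V₂ (b t) y, fun x => ?_, fun t x => ?_,
    fun t y v => ?_, ?_⟩
  · refine ((had.comp contDiff_fst).mul ?_).add ((hbd.comp contDiff_fst).mul ?_)
    · exact hs₁.comp (f := fun p : ℝ × (Fin 4 → ℝ) => (a p.1, p.2))
        ((has.comp contDiff_fst).prodMk contDiff_snd)
    · exact hs₂.comp (f := fun p : ℝ × (Fin 4 → ℝ) => (b p.1, p.2))
        ((hbs.comp contDiff_fst).prodMk contDiff_snd)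
  · simp only [hp₁, hp₂]
  · simp only [ha0, hb0 0 (by norm_num), h0₁, h0₂]
  · rcases lt_or_ge t (2 / 3) with ht | ht
    · have e : b =ᶠ[𝓝 t] fun _ => 0 := by
        filter_upwards [Iio_mem_nhds ht] with s hs using hb0 s (le_of_lt hs)
      have e1 : deriv b t = 0 := by rw [e.deriv_eq]; simp
      have h := (hd₁ (a t) x).scomp t ((has.differentiable (by simp)) t).hasDerivAt
      simp only [e1, zero_smul, add_zero, hb0 t ht.le, h0₂]
      refine h.congr_of_eventuallyEq ?_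
      filter_upwards [e] with s hs
      simp only [hs, h0₂, Function.comp]
    · have ht' : 1 / 3 < t := by linarith
      have e : a =ᶠ[𝓝 t] fun _ => 1 := by
        filter_upwards [Ioi_mem_nhds ht'] with s hs using ha1 s (le_of_lt hs)
      have e1 : deriv a t = 0 := by rw [e.deriv_eq]; simp
      have h := (hd₂ (b t) (φ₁ 1 x)).scomp t ((hbs.differentiable (by simp)) t).hasDerivAt
      simp only [e1, zero_smul, zero_add, ha1 t ht'.le]
      refine h.congr_of_eventuallyEq ?_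
      filter_upwards [e] with s hs
      simp only [hs, Function.comp]
  · have h1 := ((slice_diff hs₁ (a t) y).hasFDerivAt.const_mul (deriv a t)).fun_add
      ((slice_diff hs₂ (b t) y).hasFDerivAt.const_mul (deriv b t))
    rw [h1.fderiv, add_dotProduct, smul_dotProduct, smul_dotProduct, hV₁, hV₂]
    simp
  · funext x
    simp only [ha1 1 (by norm_num), hb1]

lemma zc_dot (ξ n : Fin 4 → ℤ) : zc ξ ⬝ᵥ zc n = ((ξ ⬝ᵥ n : ℤ) : ℝ) := by
  simp [zc, dotProduct]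

lemma ham_shear {ξ : Fin 4 → ℤ} {v : Fin 4 → ℝ} (hv : ∀ u, v ⬝ᵥ (W *ᵥ u) = zc ξ ⬝ᵥ u)
    (hv0 : zc ξ ⬝ᵥ v = 0) {h : ℝ → ℝ} (hs : ContDiff ℝ ∞ h) (hp : ∀ s (m : ℤ), h (s + m) = h s) :
    Ham W (fun x => x + deriv h (zc ξ ⬝ᵥ x) • v) := by
  let L : (Fin 4 → ℝ) →L[ℝ] ℝ :=
    LinearMap.toContinuousLinearMap
      { toFun := fun x => zc ξ ⬝ᵥ x
        map_add' := fun a b => dotProduct_add _ _ _
        map_smul' := fun c a => dotProduct_smul _ _ _ }
  have hL : ∀ x, L x = zc ξ ⬝ᵥ x := fun x => rfl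
  refine ⟨fun _ y => h (L y), hs.comp (L.contDiff.comp contDiff_snd), fun t x n => ?_,
    fun t x => x + t • (deriv h (zc ξ ⬝ᵥ x) • v), fun _ y => deriv h (zc ξ ⬝ᵥ y) • v,
    fun x => by simp, fun t x => ?_, fun t y u => ?_, ?_⟩
  · simp only [hL]
    rw [dotProduct_add, zc_dot, hp]
  · have e : zc ξ ⬝ᵥ (x + t • (deriv h (zc ξ ⬝ᵥ x) • v)) = zc ξ ⬝ᵥ x := by
      rw [dotProduct_add, dotProduct_smul, dotProduct_smul, hv0]; simp
    simp only [e]
    have := ((hasDerivAt_id' t).smul_const (deriv h (zc ξ ⬝ᵥ x) • v)).const_add x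
    simpa using this
  · have h1 := ((hs.differentiable (by simp)) (L y)).hasDerivAt.comp_hasFDerivAt y L.hasFDerivAt
    have e : (fun y => h (L y)) = h ∘ L := rfl
    simp only
    rw [e, h1.fderiv, smul_dotProduct, hv]
    simp [hL]
  · funext x
    simp

lemma disp_of_shear {ξ : Fin 4 → ℤ} {v : Fin 4 → ℝ} (hv : ∀ u, v ⬝ᵥ (W *ᵥ u) = zc ξ ⬝ᵥ u)
    (hv0 : zc ξ ⬝ᵥ v = 0) {h : ℝ → ℝ} (hs : ContDiff ℝ ∞ h) (hp : ∀ s (m : ℤ), h (s + m) = h s)
    {K : Set (Fin 4 → ℝ)} (hK : Disp W ((fun x => x + deriv h (zc ξ ⬝ᵥ x) • v) '' K)) :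
    Disp W K := by
  obtain ⟨ψ, hψ, hd⟩ := hK
  have h1 := ham_shear hv hv0 hs hp
  have h2 := ham_shear hv hv0 (h := fun s => -h s) hs.neg (fun s m => by simp only [hp])
  have hdp : ∀ s (m : ℤ), deriv h (s + m) = deriv h s := by
    intro s m
    rw [← deriv_comp_add_const]
    simp only [hp]
  refine ⟨_, (h1.comp hψ).comp h2, fun x hx y hy n heq => ?_⟩
  refine hd _ (mem_image_of_mem _ hx) _ (mem_image_of_mem _ hy) n ?_
  set z := ψ (x + deriv h (zc ξ ⬝ᵥ x) • v) with hz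
  simp only [deriv.fun_neg] at heq
  have e : zc ξ ⬝ᵥ z = zc ξ ⬝ᵥ y + ((ξ ⬝ᵥ n : ℤ) : ℝ) := by
    have := congrArg (fun w => zc ξ ⬝ᵥ w) heq
    simp only [dotProduct_add, dotProduct_smul, hv0, zc_dot] at this
    simpa using this
  rw [e, hdp, neg_smul, ← sub_eq_add_neg, sub_eq_iff_eq_add] at heq
  rw [heq]
  abel

/-- A smooth function of period one with prescribed affine derivative on a short interval. -/
lemma exists_profile {r : ℝ} (hr : r < 1 / 2) (c κ κ₀ : ℝ) :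
    ∃ h : ℝ → ℝ, ContDiff ℝ ∞ h ∧ (∀ s (m : ℤ), h (s + m) = h s) ∧
      ∀ s, |s - c| ≤ r → deriv h s = κ * (s - c) + κ₀ := by
  set ρ : ℝ := (r + 1 / 2) / 2 with hρ
  set q : ℝ → ℝ := fun s => κ * ((s - c) ^ 2 / 2) + κ₀ * s with hq
  have hqs : ContDiff ℝ ∞ q := by rw [hq]; fun_prop
  obtain ⟨G, hG, hGp, hGe⟩ := periodic_glue (d := 1) (F := ℝ)
    (fun y z => ∃ n : ℤ, |y 0 - n - c| ≤ ρ ∧ z = q (y 0 - n))
    (by
      rintro y z m ⟨n, h1, h2⟩
      refine ⟨n + m 0, ?_, ?_⟩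
      · convert h1 using 2; simp [zc]
      · rw [h2]; congr 1; simp [zc])
    (by
      intro y0
      have hδ : 0 < (1 - 2 * ρ) / 2 := by rw [hρ]; linarith
      by_cases hex : ∃ y ∈ ball y0 ((1 - 2 * ρ) / 2), ∃ n : ℤ, |y 0 - n - c| ≤ ρ
      · obtain ⟨y1, hy1, n1, hn1⟩ := hex
        refine ⟨_, ball_mem_nhds y0 hδ, fun y => q (y 0 - n1), ?_, ?_⟩
        · exact (hqs.comp (by fun_prop)).contDiffOn
        · rintro y hy z ⟨n, hn, rfl⟩
          have h1 := (dist_le_pi_dist y y0 0).trans_lt hy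
          have h2 := (dist_le_pi_dist y1 y0 0).trans_lt hy1
          rw [Real.dist_eq, abs_lt] at h1 h2
          rw [abs_le] at hn hn1
          have h3 : ((n - n1 : ℤ) : ℝ) < 1 := by push_cast; linarith
          have h4 : (-1 : ℝ) < ((n - n1 : ℤ) : ℝ) := by push_cast; linarith
          have h5 : n - n1 < 1 := by exact_mod_cast h3
          have h6 : -1 < n - n1 := by exact_mod_cast h4
          have h7 : n = n1 := by omega
          rw [h7]
      · refine ⟨_, ball_mem_nhds y0 hδ, fun _ => 0, contDiffOn_const, ?_⟩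
        rintro y hy z ⟨n, hn, -⟩
        exact absurd ⟨y, hy, n, hn⟩ hex)
  refine ⟨fun s => G (fun _ => s), hG.comp (by fun_prop), fun s m => ?_, fun s hs => ?_⟩
  · exact hGp (fun _ => s) (fun _ => m)
  · have e : (fun s => G (fun _ => s)) =ᶠ[𝓝 s] q := by
      have hδ : 0 < ρ - r := by rw [hρ]; linarith
      filter_upwards [ball_mem_nhds s hδ] with s' hs'
      refine hGe _ _ ⟨0, ?_, by simp⟩
      rw [mem_ball, Real.dist_eq, abs_lt] at hs'
      rw [abs_le] at hs ⊢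
      push_cast
      constructor <;> linarith
    rw [e.deriv_eq]
    have h1 : HasDerivAt q (κ * (s - c) + κ₀) s := by
      have h2 := ((((hasDerivAt_id' s).sub_const c).fun_pow 2).div_const 2).const_mul κ
      have h3 := (hasDerivAt_id' s).const_mul κ₀
      refine (h2.fun_add h3).congr_deriv ?_
      norm_num
    exact h1.deriv

end Pool.Agent.Lib.MP_fac2a6_gt
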