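import Pool.Agent.Lib.MP_fac2a6_gt.Half

/-!
The reshaping chain with a frame that records the brackets of the lattice coordinates.
-/

namespace Pool.Agent.Lib.MP_fac2a6_gt

open Set Filter Topology Metric Function Matrix
open scoped ContDiff

variable {W : Matrix (Fin 4) (Fin 4) ℝ} {v : (Fin 4 → ℤ) → (Fin 4 → ℝ)}

/-- A point together with a frame. -/
abbrev PF := (Fin 4 → ℝ) × (Fin 4 → Fin 4 → ℝ)

/-- The brackets of the lattice coordinates are those of the model `B` read in the frame `a`. -/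
def Framed (v : (Fin 4 → ℤ) → (Fin 4 → ℝ)) (B : Matrix (Fin 4) (Fin 4) ℝ)
    (P : Matrix (Fin 4) (Fin 4) ℤ) (a : Fin 4 → Fin 4 → ℝ) : Prop :=
  ∀ k l, zc (P l) ⬝ᵥ v (P k) = ∑ p, ∑ q, a p k * B p q * a q l

/-- Every compact set whose coordinates and frame lie in `U` is displaceable. -/
def Good2 (W : Matrix (Fin 4) (Fin 4) ℝ) (v : (Fin 4 → ℤ) → (Fin 4 → ℝ))
    (B : Matrix (Fin 4) (Fin 4) ℝ) (U : Set PF) : Prop :=
  ∀ (P : Matrix (Fin 4) (Fin 4) ℤ) (c : Fin 4 → ℝ) (K : Set (Fin 4 → ℝ)) (a : Fin 4 → Fin 4 → ℝ),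
    P.det ≠ 0 → IsCompact K → Framed v B P a → (∀ x ∈ K, (crd P c x, a) ∈ U) → Disp W K

/-- The action of a map on points and frames. -/
def act (f : (Fin 4 → ℝ) → (Fin 4 → ℝ)) (p : PF) : PF := (f p.1, fun j => f (p.2 j))

/-- The map `f` can be carried out on the set `S`. -/
structure Adm (W : Matrix (Fin 4) (Fin 4) ℝ) (v : (Fin 4 → ℤ) → (Fin 4 → ℝ))
    (B : Matrix (Fin 4) (Fin 4) ℝ) (f : (Fin 4 → ℝ) → (Fin 4 → ℝ)) (S : Set (Fin 4 → ℝ)) :
    Prop where
  cont : Continuous f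
  good : ∀ U : Set PF, IsOpen U → Good2 W v B U → Good2 W v B {p | p.1 ∈ S ∧ act f p ∈ U}

variable {B : Matrix (Fin 4) (Fin 4) ℝ}

lemma Good2.mono {U U' : Set PF} (h : Good2 W v B U') (hU : U ⊆ U') : Good2 W v B U :=
  fun P c K a hP hK hF hx => h P c K a hP hK hF fun x hx' => hU (hx x hx')

lemma continuous_act {f : (Fin 4 → ℝ) → (Fin 4 → ℝ)} (hf : Continuous f) : Continuous (act f) := by
  unfold act
  fun_prop

lemma Adm.comp {f g : (Fin 4 → ℝ) → (Fin 4 → ℝ)} {S T : Set (Fin 4 → ℝ)} (hf : Adm W v B f S)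
    (hg : Adm W v B g T) (hT : IsOpen T) : Adm W v B (fun y => g (f y)) {y | y ∈ S ∧ f y ∈ T} := by
  refine ⟨hg.cont.comp hf.cont, fun U hU hG => ?_⟩
  have o : IsOpen {p : PF | p.1 ∈ T ∧ act g p ∈ U} :=
    (hT.preimage continuous_fst).inter (hU.preimage (continuous_act hg.cont))
  exact (hf.good _ o (hg.good U hU hG)).mono fun p hp => ⟨hp.1.1, hp.1.2, hp.2⟩

lemma Adm.mono {f g : (Fin 4 → ℝ) → (Fin 4 → ℝ)} {S T : Set (Fin 4 → ℝ)} (hf : Adm W v B f S)
    (e : ∀ y, f y = g y) (hT : T ⊆ S) : Adm W v B g T := by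
  obtain rfl : f = g := funext e
  exact ⟨hf.cont, fun U hU hG => (hf.good U hU hG).mono fun p hp => ⟨hT hp.1, hp.2⟩⟩

lemma adm_id (S : Set (Fin 4 → ℝ)) : Adm W v B (fun y => y) S :=
  ⟨continuous_id, fun _ _ hG => hG.mono fun _ hp => hp.2⟩

lemma Dual.skew (hW : Wᵀ = -W) (hv : Dual W v) (ξ η : Fin 4 → ℤ) :
    zc η ⬝ᵥ v ξ = -(zc ξ ⬝ᵥ v η) := by
  rw [← hv.ham, ← hv.ham, skew_dot hW]

lemma isOpen_half (i : Fin 4) : IsOpen {y : Fin 4 → ℝ | |y i| < 1 / 2} :=
  isOpen_lt (by fun_prop) continuous_const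

lemma adm_step (hW : Wᵀ = -W) (hv : Dual W v) (i : Fin 4) (t : Fin 4 → ℝ) (ht : t i = 0) :
    Adm W v B (fun y => y + y i • t) {y | |y i| < 1 / 2} := by
  refine ⟨by fun_prop, fun U hU hG => ?_⟩
  intro P c K a hP hK hF hx
  have hc := continuous_crd P c
  obtain ⟨r, hr, hr'⟩ := exists_margin hK (g := fun x => |crd P c x i|) (by fun_prop)
    fun x hx' => (hx x hx').1
  have hO : IsOpen {q : (Fin 4 → ℝ) × (Fin 4 → ℝ) |
      act (fun y => y + y i • q.1) (crd P c q.2, a) ∈ U} :=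
    hU.preimage (f := fun q : (Fin 4 → ℝ) × (Fin 4 → ℝ) =>
      act (fun y => y + y i • q.1) (crd P c q.2, a)) (by unfold act; fun_prop)
  obtain ⟨u₁, u₂, o₁, -, s₁, s₂, hs₁₂⟩ := generalized_tube_lemma (isCompact_singleton (x := t)) hK hO
    (by
      rintro ⟨t', x⟩ ⟨h1, h2⟩
      obtain rfl : t' = t := h1
      exact (hx x h2).2)
  obtain ⟨δ, hδ, hball⟩ := Metric.isOpen_iff.1 o₁ t (s₁ rfl)
  obtain ⟨κ, n, hn0, hn⟩ := hv.approx hP i t ht hδ
  set t' : Fin 4 → ℝ := fun k => κ * (zc (P k) ⬝ᵥ v (P i)) - n k with ht'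
  have ht'1 : t' ∈ u₁ := hball (by
    rw [mem_ball, dist_pi_lt_iff hδ]
    intro k
    rw [Real.dist_eq]
    convert hn k using 2
    simp only [ht']
    ring)
  obtain ⟨h, hs, hp, hd⟩ := exists_profile hr (c i) κ 0
  refine disp_of_shear (hv.ham (P i)) (hv.self (P i)) hs hp ?_
  have hdc : Continuous (deriv h) := hs.continuous_deriv (by simp)
  have e0 : ∀ (k : Fin 4) (w : Fin 4 → ℝ),
      zc ((Matrix.of fun k a => P k a + (-n k) * P i a) k) ⬝ᵥ w
        = zc (P k) ⬝ᵥ w - n k * (zc (P i) ⬝ᵥ w) := by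
    intro k w
    simp only [zc, dotProduct, Fin.sum_univ_four, Matrix.of_apply]
    push_cast
    ring
  refine hG (Matrix.of fun k a => P k a + (-n k) * P i a) (fun k => c k - n k * c i) _
    (fun j => a j + a j i • t') ?_ (hK.image (by fun_prop)) (fun k l => ?_) ?_
  · have e := Matrix.det_eq_of_forall_row_eq_smul_add_const
      (A := Matrix.of fun k a => P k a + (-n k) * P i a) (B := P) (fun k => -n k) i
      (by simp [hn0]) (fun _ _ => rfl)
    rwa [e]
  · rw [e0, hv.skew hW _ (P l), hv.skew hW _ (P i), e0, e0, hv.self]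
    have e1 : ∑ p, ∑ q, (a p + a p i • t') k * B p q * (a q + a q i • t') l
        = (∑ p, ∑ q, a p k * B p q * a q l) + t' l * (∑ p, ∑ q, a p k * B p q * a q i)
          + t' k * (∑ p, ∑ q, a p i * B p q * a q l)
          + t' k * t' l * (∑ p, ∑ q, a p i * B p q * a q i) := by
      simp only [Fin.sum_univ_four, Pi.add_apply, Pi.smul_apply, smul_eq_mul]
      ring
    rw [e1, ← hF, ← hF, ← hF, ← hF, hv.self, hv.skew hW (P k) (P l), hv.skew hW (P k) (P i),
      hv.skew hW (P l) (P i)]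
    simp only [ht']
    ring
  · rintro _ ⟨x, hx', rfl⟩
    have hm : act (fun y => y + y i • t') (crd P c x, a) ∈ U :=
      hs₁₂ (a := (t', x)) ⟨ht'1, s₂ hx'⟩
    convert hm using 1
    refine Prod.ext ?_ rfl
    funext k
    have h1 := hr' x hx'
    simp only [crd] at h1
    simp only [act, crd]
    rw [hd _ h1, e0]
    simp only [dotProduct_add, dotProduct_smul, hv.self, smul_eq_mul, Pi.add_apply,
      Pi.smul_apply, crd, ht']
    ring

lemma adm_sq (hW : Wᵀ = -W) (hv : Dual W v)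
    {s : Fin 4 → ℝ} {ε μ : ℝ} (hε : 0 < ε) (hε1 : ε < 1) (hμ : 1 - ε ^ 2 ≤ μ) (hμ1 : μ ≤ 1)
    {i j : Fin 4} (hij : i ≠ j) (hi : s i ≤ 1 - ε) (hj : s j ≤ μ * (1 - ε)) :
    Adm W v B (fun y => dg i j μ * y) (box s) := by
  have hμ0 : 0 < μ := by nlinarith
  obtain ⟨η, hη0, hη1, hη⟩ : ∃ η : ℝ, 0 ≤ η ∧ η ≤ ε ∧ μ = 1 - η ^ 2 :=
    ⟨√(1 - μ), Real.sqrt_nonneg _, Real.sqrt_le_iff.2 ⟨hε.le, by linarith⟩, by
      rw [Real.sq_sqrt (by linarith)]; ring⟩
  have g3 := adm_step (B := B) hW hv j (Pi.single i (η * μ)) (Pi.single_eq_of_ne hij.symm _)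
  have g2 := adm_step (B := B) hW hv i (Pi.single j (-η / μ)) (Pi.single_eq_of_ne hij _)
  have g1 := adm_step (B := B) hW hv j (Pi.single i (-η)) (Pi.single_eq_of_ne hij.symm _)
  have g0 := adm_step (B := B) hW hv i (Pi.single j η) (Pi.single_eq_of_ne hij _)
  have g := ((g0.comp g1 (isOpen_half j)).comp g2 (isOpen_half i)).comp g3 (isOpen_half j)
  have e1 : ∀ y : Fin 4 → ℝ, y i + (y j + y i * η) * -η = μ * y i - η * y j := fun y => by
    rw [hη]; ring
  have e2 : ∀ y : Fin 4 → ℝ, y j + y i * η + (μ * y i - η * y j) * (-η / μ) = y j / μ :=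
    fun y => by
      field_simp
      rw [hη]; ring
  have e3 : ∀ y : Fin 4 → ℝ, μ * y i - η * y j + y j / μ * (η * μ) = μ * y i := fun y => by
    field_simp; ring
  refine g.mono (fun y => ?_) fun y hy => ?_
  · funext k
    by_cases hki : k = i
    · subst hki
      simp only [Pi.add_apply, Pi.smul_apply, Pi.single_eq_same, smul_eq_mul,
        Pi.single_eq_of_ne hij, Pi.single_eq_of_ne hij.symm, mul_zero, add_zero, e1, e2, e3,
        Pi.mul_apply, dg_left]
    · by_cases hkj : k = j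
      · subst hkj
        simp only [Pi.add_apply, Pi.smul_apply, Pi.single_eq_same, smul_eq_mul,
          Pi.single_eq_of_ne hki, Pi.single_eq_of_ne hij, mul_zero, add_zero, e1, e2, Pi.mul_apply,
          dg_right hij]
        rw [inv_mul_eq_div]
      · simp only [Pi.add_apply, Pi.smul_apply, smul_eq_mul, Pi.single_eq_of_ne hki,
          Pi.single_eq_of_ne hkj, mul_zero, add_zero, Pi.mul_apply, dg_other hki hkj, one_mul]
  · have hyi := hy i
    have hyj := hy j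
    have hj' : s j ≤ 1 - ε := hj.trans (by nlinarith)
    have a2 : |y j / μ| < s j / μ / 2 := by
      rw [abs_div, abs_of_pos hμ0, div_right_comm]
      exact div_lt_div_of_pos_right hyj hμ0
    have a3 : s j / μ ≤ 1 - ε := by rw [div_le_iff₀ hμ0]; linarith
    simp only [Set.mem_ofPred_eq, Pi.add_apply, Pi.smul_apply, Pi.single_eq_same, smul_eq_mul,
      Pi.single_eq_of_ne hij, Pi.single_eq_of_ne hij.symm, mul_zero, add_zero, e1, e2]
    have b1 := abs_lt.1 hyi
    have b2 := abs_lt.1 hyj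
    refine ⟨⟨⟨by linarith, ?_⟩, ?_⟩, by linarith⟩
    · rw [abs_lt]; constructor <;> nlinarith
    · rw [abs_lt]; constructor <;> nlinarith

lemma adm_pair (hW : Wᵀ = -W) (hv : Dual W v) {ε : ℝ}
    (hε : 0 < ε) (hε1 : ε < 1) {i j : Fin 4} (hij : i ≠ j) (n : ℕ) :
    ∀ (μ : ℝ) (s : Fin 4 → ℝ), (1 - ε ^ 2) ^ n ≤ μ → μ ≤ 1 → s i ≤ 1 - ε → s j ≤ μ * (1 - ε) →
      Adm W v B (fun y => dg i j μ * y) (box s) := by
  have h0 : 0 < 1 - ε ^ 2 := by nlinarith
  have h1 : 1 - ε ^ 2 ≤ 1 := by nlinarith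
  induction n with
  | zero =>
    intro μ s a b c d
    exact adm_sq hW hv hε hε1 (h1.trans (by simpa using a)) b hij c d
  | succ n ih =>
    intro μ s a b c d
    rcases le_total (1 - ε ^ 2) μ with h | h
    · exact adm_sq hW hv hε hε1 h b hij c d
    · have g := ih (μ / (1 - ε ^ 2)) (dg i j (1 - ε ^ 2) * s)
        (by rw [le_div_iff₀ h0, ← pow_succ]; exact a) (by rw [div_le_one h0]; exact h)
        (by rw [Pi.mul_apply, dg_left]; nlinarith)
        (by
          rw [Pi.mul_apply, dg_right hij, inv_mul_eq_div, div_mul_eq_mul_div]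
          exact div_le_div_of_nonneg_right d h0.le)
      refine ((adm_sq hW hv hε hε1 le_rfl h1 hij c (d.trans (by nlinarith))).comp g
        (isOpen_box _)).mono (fun y => ?_) fun y hy => ⟨hy, box_mul (dg_pos i j h0) hy⟩
      rw [← mul_assoc, dg_mul, div_mul_cancel₀ _ h0.ne']

lemma adm_diag (hW : Wᵀ = -W) (hv : Dual W v) {ε : ℝ} (hε : 0 < ε) (hε1 : ε < 1) (n : ℕ) :
    ∀ (D s : Fin 4 → ℝ), (Finset.univ.filter fun k => D k ≠ 1).card ≤ n → (∀ k, 0 < D k) →
      ∏ k, D k = 1 → (∀ k, s k ≤ 1 - ε) → (∀ k, D k * s k ≤ 1 - ε) →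
      Adm W v B (fun y => D * y) (box s) := by
  have base : ∀ D s : Fin 4 → ℝ, (∀ k, D k = 1) → Adm W v B (fun y => D * y) (box s) := by
    intro D s h
    have : D = 1 := funext h
    exact (adm_id _).mono (fun y => by simp [this]) le_rfl
  induction n with
  | zero =>
    intro D s hc _ _ _ _
    refine base D s fun k => ?_
    by_contra h
    have : 0 < (Finset.univ.filter fun k => D k ≠ 1).card :=
      Finset.card_pos.2 ⟨k, Finset.mem_filter.2 ⟨Finset.mem_univ k, h⟩⟩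
    omega
  | succ n ih =>
    intro D s hc hD hp hs hDs
    by_cases hall : ∀ k, D k = 1
    · exact base D s hall
    push Not at hall
    obtain ⟨k₀, hk₀⟩ := hall
    obtain ⟨i, hi⟩ : ∃ i, D i < 1 := by
      by_contra h
      push Not at h
      have := Finset.prod_lt_prod (s := Finset.univ) (f := fun _ : Fin 4 => (1 : ℝ)) (g := D)
        (fun _ _ => one_pos) (fun k _ => h k)
        ⟨k₀, Finset.mem_univ _, lt_of_le_of_ne (h k₀) hk₀.symm⟩
      simp [hp] at this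
    obtain ⟨j, hj⟩ : ∃ j, 1 < D j := by
      by_contra h
      push Not at h
      have := Finset.prod_lt_prod (s := Finset.univ) (f := D) (g := fun _ : Fin 4 => (1 : ℝ))
        (fun k _ => hD k) (fun k _ => h k) ⟨i, Finset.mem_univ _, hi⟩
      simp [hp] at this
    have hij : i ≠ j := by rintro rfl; linarith
    set μ := max (D i) (D j)⁻¹ with hμ
    have hDj := hD j
    have hμ0 : 0 < μ := lt_max_of_lt_left (hD i)
    have hμ1 : μ < 1 := max_lt hi (inv_lt_one_of_one_lt₀ hj)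
    have hμj : (D j)⁻¹ ≤ μ := le_max_right _ _
    have hsj : s j ≤ μ * (1 - ε) := by
      have a1 : s j ≤ (D j)⁻¹ * (1 - ε) := by
        rw [le_inv_mul_iff₀ hDj]; exact hDs j
      exact a1.trans (mul_le_mul_of_nonneg_right hμj (by linarith))
    have hcan : dg i j μ⁻¹ * dg i j μ = 1 := by
      rw [dg_mul, inv_mul_cancel₀ hμ0.ne']
      funext k
      simp [dg]
    have g := ih (D * dg i j μ⁻¹) (dg i j μ * s) ?_
      (fun k => mul_pos (hD k) (dg_pos i j (inv_pos.2 hμ0) k)) ?_ (fun k => ?_) (fun k => ?_)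
    · obtain ⟨N, hN⟩ := exists_pow_lt_of_lt_one hμ0 (show 1 - ε ^ 2 < 1 by nlinarith)
      refine ((adm_pair hW hv hε hε1 hij N μ s hN.le hμ1.le (hs i) hsj).comp g
        (isOpen_box _)).mono (fun y => ?_) fun y hy => ⟨hy, box_mul (dg_pos i j hμ0) hy⟩
      rw [mul_assoc, ← mul_assoc (dg i j μ⁻¹), hcan, one_mul]
    · refine Nat.lt_succ_iff.1 (lt_of_lt_of_le (Finset.card_lt_card ?_) hc)
      rw [Finset.ssubset_iff_of_subset]
      · rcases le_total (D i) (D j)⁻¹ with h | h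
        · refine ⟨j, by simpa using hj.ne', ?_⟩
          simp [dg_right hij, hμ, max_eq_right h, hDj.ne']
        · refine ⟨i, by simpa using hi.ne, ?_⟩
          simp [dg_left, hμ, max_eq_left h, (hD i).ne']
      · intro k hk
        simp only [Finset.mem_filter, Finset.mem_univ, true_and, Pi.mul_apply] at hk ⊢
        by_cases a : k = i
        · rw [a]; exact hi.ne
        by_cases b : k = j
        · rw [b]; exact hj.ne'
        rwa [dg_other a b, mul_one] at hk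
    · simp only [Pi.mul_apply]
      rw [Finset.prod_mul_distrib, hp, Fintype.prod_eq_mul i j hij
        (fun k hk => dg_other hk.1 hk.2 _), dg_left, dg_right hij]
      field_simp
    · rw [Pi.mul_apply]
      by_cases a : k = i
      · rw [a, dg_left]; nlinarith [hs i]
      by_cases b : k = j
      · rw [b, dg_right hij, inv_mul_le_iff₀ hμ0]; exact hsj
      rw [dg_other a b, one_mul]
      exact hs k
    · have e := congrFun hcan k
      simp only [Pi.mul_apply, Pi.one_apply] at e ⊢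
      rw [mul_assoc, ← mul_assoc (dg i j μ⁻¹ k), e, one_mul]
      exact hDs k

lemma adm_lower (hW : Wᵀ = -W) (hv : Dual W v) (M : Matrix (Fin 4) (Fin 4) ℝ)
    (h1 : ∀ i, M i i = 1) (h0 : ∀ i j, i < j → M i j = 0) :
    Adm W v B (fun y => M *ᵥ y) {y | M *ᵥ y ∈ box 1} := by
  have g2 := adm_step (B := B) hW hv 2 ![0, 0, 0, M 3 2] rfl
  have g1 := adm_step (B := B) hW hv 1 ![0, 0, M 2 1, M 3 1 - M 3 2 * M 2 1] rfl
  have g0 := adm_step (B := B) hW hv 0 ![0, M 1 0, M 2 0 - M 2 1 * M 1 0,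
    M 3 0 - M 3 2 * M 2 0 - (M 3 1 - M 3 2 * M 2 1) * M 1 0] rfl
  have e : ∀ y : Fin 4 → ℝ, M *ᵥ y = ![y 0, M 1 0 * y 0 + y 1, M 2 0 * y 0 + M 2 1 * y 1 + y 2,
      M 3 0 * y 0 + M 3 1 * y 1 + M 3 2 * y 2 + y 3] := by
    intro y
    funext k
    fin_cases k <;>
      simp [mulVec, dotProduct, Fin.sum_univ_four, h1, h0 0 1 (by decide), h0 0 2 (by decide),
        h0 0 3 (by decide), h0 1 2 (by decide), h0 1 3 (by decide), h0 2 3 (by decide)]
  refine ((g0.comp g1 (isOpen_half 1)).comp g2 (isOpen_half 2)).mono (fun y => ?_) fun y hy => ?_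
  · rw [e]
    funext k
    simp only [Pi.add_apply, Pi.smul_apply, smul_eq_mul]
    fin_cases k <;> simp <;> ring
  · have a0 := hy 0
    have a1 := hy 1
    have a2 := hy 2
    rw [e] at a0 a1 a2
    change |M 1 0 * y 0 + y 1| < 1 / 2 at a1
    change |M 2 0 * y 0 + M 2 1 * y 1 + y 2| < 1 / 2 at a2
    refine ⟨⟨a0, ?_⟩, ?_⟩
    · change |y 1 + y 0 * M 1 0| < 1 / 2
      convert a1 using 2
      ring
    · change |y 2 + y 0 * (M 2 0 - M 2 1 * M 1 0) + (y 1 + y 0 * M 1 0) * M 2 1| < 1 / 2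
      convert a2 using 2
      ring

end Pool.Agent.Lib.MP_fac2a6_gt
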