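import Pool.Agent.Lib.MP_fac2a6_gt.TrChain

/-!
A displacement in a model torus survives a small change of the constant form.
-/

namespace Pool.Agent.Lib.MP_fac2a6_gt

open Set Filter Topology Metric Function Matrix
open scoped ContDiff NNReal

variable {W : Matrix (Fin 4) (Fin 4) ℝ} {v : (Fin 4 → ℤ) → (Fin 4 → ℝ)}

lemma strip_bound {F : Type*} [NormedAddCommGroup F] {u : ℝ × (Fin 4 → ℝ) → F}
    (hp : ∀ p (n : Fin 4 → ℤ), u (p + (0, zc n)) = u p) (hc : Continuous u) :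
    ∃ M : ℝ≥0, ∀ s ∈ Icc (0 : ℝ) 1, ∀ y, ‖u (s, y)‖ ≤ M := by
  obtain ⟨M, hM⟩ := ((isCompact_Icc (a := (0 : ℝ)) (b := 1)).prod
    (isCompact_closedBall (0 : Fin 4 → ℝ) 1)).exists_bound_of_continuousOn hc.continuousOn
  refine ⟨⟨max M 0, le_max_right _ _⟩, fun s hs y => ?_⟩
  obtain ⟨n, y0, h0, rfl⟩ := exists_reduce y
  have e : ((s, y0 + zc n) : ℝ × (Fin 4 → ℝ)) = (s, y0) + (0, zc n) := by simp
  rw [e, hp]
  exact (hM (s, y0) ⟨hs, by simpa using h0⟩).trans (le_max_left _ _)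

lemma strip_fderiv {F : Type*} [NormedAddCommGroup F] [NormedSpace ℝ F] {u : ℝ × (Fin 4 → ℝ) → F}
    (hp : ∀ p (n : Fin 4 → ℤ), u (p + (0, zc n)) = u p) (p : ℝ × (Fin 4 → ℝ)) (n : Fin 4 → ℤ) :
    fderiv ℝ u (p + (0, zc n)) = fderiv ℝ u p := by
  rw [← fderiv_comp_add_right]
  congr 1
  funext z
  exact hp z n

lemma exists_grad {H : ℝ → (Fin 4 → ℝ) → ℝ}
    (hs : ContDiff ℝ ∞ (fun p : ℝ × (Fin 4 → ℝ) => H p.1 p.2))
    (hp : ∀ t x (n : Fin 4 → ℤ), H t (x + zc n) = H t x) :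
    ∃ (g : ℝ → (Fin 4 → ℝ) → (Fin 4 → ℝ)) (C L : ℝ≥0),
      (∀ s y u, fderiv ℝ (H s) y u = g s y ⬝ᵥ u) ∧ (∀ y, Continuous fun s => g s y) ∧
      (∀ s ∈ Icc (0 : ℝ) 1, ∀ y, ‖g s y‖ ≤ C) ∧ ∀ s ∈ Icc (0 : ℝ) 1, LipschitzWith L (g s) := by
  set F : ℝ × (Fin 4 → ℝ) → ℝ := fun p => H p.1 p.2 with hF
  have hFp : ∀ p (n : Fin 4 → ℤ), F (p + (0, zc n)) = F p := fun p n => by simp [hF, hp]
  set G : ℝ × (Fin 4 → ℝ) → (Fin 4 → ℝ) := fun p i => fderiv ℝ F p (0, Pi.single i 1) with hG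
  have hGp : ∀ p (n : Fin 4 → ℤ), G (p + (0, zc n)) = G p := fun p n => by
    simp only [hG, strip_fderiv hFp]
  have hGs : ContDiff ℝ 1 G := by
    refine contDiff_pi.2 fun i => ?_
    exact (hs.fderiv_right (m := 1) (by norm_cast)).clm_apply contDiff_const
  obtain ⟨C, hC⟩ := strip_bound hGp hGs.continuous
  obtain ⟨L, hL⟩ := strip_bound (strip_fderiv hGp) (hGs.continuous_fderiv one_ne_zero)
  have hin : ∀ (s : ℝ) (y : Fin 4 → ℝ), HasFDerivAt (fun y : Fin 4 → ℝ => ((s, y) : ℝ × (Fin 4 → ℝ)))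
      (ContinuousLinearMap.inr ℝ ℝ (Fin 4 → ℝ)) y := fun s y => hasFDerivAt_prodMk_right s y
  refine ⟨fun s y => G (s, y), C, L, fun s y u => ?_, fun y => hGs.continuous.comp (by fun_prop),
    hC, fun s hs' => ?_⟩
  · have h1 := ((hs.differentiable (by simp)) (s, y)).hasFDerivAt.comp y (hin s y)
    have h2 : fderiv ℝ (H s) y = _ := h1.fderiv
    have h3 : u = ∑ i, u i • (Pi.single i 1 : Fin 4 → ℝ) := by
      funext k
      simp [Finset.sum_apply, Pi.single_apply]
    rw [h2]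
    conv_lhs => rw [h3]
    rw [map_sum]
    simp only [map_smul, dotProduct, hG, smul_eq_mul, ContinuousLinearMap.comp_apply,
      ContinuousLinearMap.inr_apply]
    exact Finset.sum_congr rfl fun i _ => mul_comm _ _
  · have h1 : ∀ y, HasFDerivAt (fun y => G (s, y))
        ((fderiv ℝ G (s, y)).comp (ContinuousLinearMap.inr ℝ ℝ (Fin 4 → ℝ))) y := fun y =>
      ((hGs.differentiable one_ne_zero) (s, y)).hasFDerivAt.comp y (hin s y)
    refine lipschitzWith_of_nnnorm_fderiv_le (𝕜 := ℝ) (fun y => (h1 y).differentiableAt) fun y => ?_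
    rw [(h1 y).fderiv, ← NNReal.coe_le_coe, coe_nnnorm]
    refine ContinuousLinearMap.opNorm_le_bound _ L.2 fun u => ?_
    have h2 := (fderiv ℝ G (s, y)).le_opNorm (0, u)
    have h3 : ‖((0, u) : ℝ × (Fin 4 → ℝ))‖ = ‖u‖ := by simp
    rw [h3] at h2
    exact h2.trans (mul_le_mul_of_nonneg_right (hL s hs' y) (norm_nonneg _))

/-- Right multiplication by a matrix as a continuous linear map. -/
noncomputable def vm (A : Matrix (Fin 4) (Fin 4) ℝ) : (Fin 4 → ℝ) →L[ℝ] (Fin 4 → ℝ) :=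
  LinearMap.toContinuousLinearMap (Matrix.vecMulLinear A)

lemma vm_apply (A : Matrix (Fin 4) (Fin 4) ℝ) (x : Fin 4 → ℝ) (k : Fin 4) :
    vm A x k = ∑ i, x i * A i k := rfl

theorem good2_base (hv : Dual W v) {W' B : Matrix (Fin 4) (Fin 4) ℝ} (hB : B * W' = 1)
    {K₀ : Set (Fin 4 → ℝ)} (hK₀ : IsCompact K₀) (hD : Disp W' K₀) :
    ∃ U : Set PF, IsOpen U ∧ (∀ y ∈ K₀, (y, fun j => Pi.single j 1) ∈ U) ∧ Good2 W v B U := by
  obtain ⟨_, ⟨H, hs, hp, φ, V, h0, hd, hV, rfl⟩, hdis⟩ := hD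
  obtain ⟨g, C, L, hg, hgc, hgC, hgL⟩ := exists_grad hs hp
  have hVg : ∀ t y, V t y = vm B (g t y) := by
    intro t y
    have h1 : V t y ᵥ* W' = g t y := by
      funext i
      have := hV t y (Pi.single i 1)
      rw [hg, dotProduct_mulVec] at this
      simpa using this
    have h2 : V t y = g t y ᵥ* B := by
      rw [← h1, vecMul_vecMul, mul_eq_one_comm.1 hB, vecMul_one]
    exact h2
  set L₀ : ℝ≥0 := ‖vm B‖₊ * L + 1 with hL₀
  have hL₀0 : (0 : ℝ) < L₀ := by rw [hL₀]; positivity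
  have gron : ∀ (β β' : ℝ → (Fin 4 → ℝ)) (y : Fin 4 → ℝ) (δ ε : ℝ), ContinuousOn β (Icc 0 1) →
      (∀ s ∈ Ico (0 : ℝ) 1, HasDerivWithinAt β (β' s) (Ici s) s) →
      (∀ s ∈ Ico (0 : ℝ) 1, dist (β' s) (vm B (g s (β s))) ≤ ε) → dist (β 0) y ≤ δ →
      dist (β 1) (φ 1 y) ≤ δ * Real.exp L₀ + ε / L₀ * (Real.exp L₀ - 1) := by
    intro β β' y δ ε c1 c2 c3 c4
    have h := dist_le_of_approx_trajectories_ODE_of_mem (K := L₀) (s := fun _ => univ)
      (v := fun s y => vm B (g s y)) (g := fun s => φ s y) (g' := fun s => V s (φ s y)) (εg := 0)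
      (δ := δ)
      (fun s hs' => (((vm B).lipschitz.comp (hgL s (Ico_subset_Icc_self hs'))).weaken
        (by rw [hL₀]; exact le_self_add)).lipschitzOnWith) c1 c2 c3 (fun _ _ => trivial)
      (fun s _ => (hd s y).continuousAt.continuousWithinAt)
      (fun s _ => (hd s y).hasDerivWithinAt) (fun s _ => by rw [hVg]; simp)
      (fun _ _ => trivial) (by rw [h0]; exact c4) 1 ⟨zero_le_one, le_rfl⟩
    rw [gronwallBound_of_K_ne_0 hL₀0.ne'] at h
    simpa using h
  have hφc : Continuous (φ 1) := by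
    refine (LipschitzWith.of_dist_le_mul (K := ⟨Real.exp L₀, (Real.exp_pos _).le⟩)
      fun x y => ?_).continuous
    have := gron (fun s => φ s x) (fun s => V s (φ s x)) y (dist x y) 0
      (fun s _ => (hd s x).continuousAt.continuousWithinAt)
      (fun s _ => (hd s x).hasDerivWithinAt) (fun s _ => by rw [hVg]; simp) (by rw [h0])
    change _ ≤ Real.exp L₀ * _
    simpa [mul_comm] using this
  have hS : IsCompact ((fun p : (Fin 4 → ℝ) × (Fin 4 → ℝ) => φ 1 p.1 - p.2) '' K₀ ×ˢ K₀) :=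
    (hK₀.prod hK₀).image (by fun_prop)
  obtain ⟨ρ, hρ, hth⟩ := hS.exists_thickening_subset_open isClosed_range_zc.isOpen_compl (by
    rintro _ ⟨⟨x, y⟩, ⟨hx, hy⟩, rfl⟩ ⟨n, hn⟩
    exact hdis x hx y hy n (by rw [hn]; simp))
  have hE : 1 ≤ Real.exp L₀ := Real.one_le_exp hL₀0.le
  set Λ : ℝ := Real.exp L₀ + 4 * C / L₀ * (Real.exp L₀ - 1) + 1 with hΛ
  have hΛ0 : 0 < Λ := by
    have : 0 ≤ 4 * (C : ℝ) / L₀ * (Real.exp L₀ - 1) :=
      mul_nonneg (by positivity) (by linarith)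
    rw [hΛ]; linarith
  set δ : ℝ := ρ / (2 * Λ) with hδd
  have hδ : 0 < δ := by positivity
  have hδΛ : δ * Λ < ρ := by
    rw [hδd, div_mul_eq_mul_div, div_lt_iff₀ (by positivity)]
    nlinarith [mul_pos hρ hΛ0]
  refine ⟨{p | p.1 ∈ thickening δ K₀ ∧
    ∀ k l, |∑ i, ∑ j, p.2 i k * B i j * p.2 j l - B k l| < δ}, ?_, fun y hy => ⟨?_, fun k l => ?_⟩,
    ?_⟩
  · refine (isOpen_thickening.preimage continuous_fst).inter ?_
    change IsOpen {p : PF | ∀ k l, _}
    rw [Set.ofPred_forall]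
    refine isOpen_iInter_of_finite fun k => ?_
    rw [Set.ofPred_forall]
    exact isOpen_iInter_of_finite fun l => isOpen_lt (by fun_prop) continuous_const
  · exact self_subset_thickening hδ _ hy
  · simpa [Pi.single_apply] using hδ
  intro P c K a hP hK hF hx
  set Vm : Matrix (Fin 4) (Fin 4) ℝ := Matrix.of fun i => v (P i) with hVm
  set R : (Fin 4 → ℝ) →L[ℝ] (Fin 4 → ℝ) := vm (Matrix.of fun i k => (P k i : ℝ)) with hR
  have hRa : ∀ x k, R x k = zc (P k) ⬝ᵥ x := fun x k => by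
    rw [hR, vm_apply]
    exact Finset.sum_congr rfl fun i _ => mul_comm _ _
  have hcrd : ∀ x, crd P c x = R x - c := fun x => funext fun k => by simp [crd, hRa]
  have hcd : ∀ x, HasFDerivAt (crd P c) R x := fun x => by
    rw [show crd P c = fun x => R x - c from funext hcrd]
    exact R.hasFDerivAt.sub_const c
  have hcL : LipschitzWith ‖R‖₊ (crd P c) := LipschitzWith.of_dist_le_mul fun x y => by
    rw [hcrd, hcrd, dist_sub_right]
    exact R.lipschitz.dist_le_mul x y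
  set X : ℝ → (Fin 4 → ℝ) → (Fin 4 → ℝ) := fun s x => vm Vm (g s (crd P c x)) with hX
  have hXs : ∀ s x, X s x = ∑ i, g s (crd P c x) i • v (P i) := fun s x => by
    funext k
    simp only [hX, vm_apply, Finset.sum_apply, Pi.smul_apply, smul_eq_mul, hVm, Matrix.of_apply]
  have hsol : ∀ x, ∃ α : ℝ → (Fin 4 → ℝ), α 0 = x ∧
      ∀ s ∈ Icc (0 : ℝ) 1, HasDerivWithinAt α (X s (α s)) (Icc 0 1) s := by
    intro x
    have hpl : IsPicardLindelof X (tmin := 0) (tmax := 1) ⟨0, le_rfl, zero_le_one⟩ x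
        (‖vm Vm‖₊ * C) 0 (‖vm Vm‖₊ * C) (‖vm Vm‖₊ * (L * ‖R‖₊)) :=
      ⟨fun s hs' => ((vm Vm).lipschitz.comp ((hgL s hs').comp hcL)).lipschitzOnWith,
        fun y _ => ((vm Vm).continuous.comp (hgc _)).continuousOn,
        fun s hs' y _ => ((vm Vm).le_opNorm _).trans
          (mul_le_mul_of_nonneg_left (hgC s hs' _) (norm_nonneg _)), by simp⟩
    exact hpl.exists_eq_forall_mem_Icc_hasDerivWithinAt₀
  choose α hα0 hα using hsol
  have has : ContDiff ℝ ∞ Real.smoothTransition := Real.smoothTransition.contDiff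
  have had : ContDiff ℝ ∞ (deriv Real.smoothTransition) := (contDiff_infty_iff_deriv.1 has).2
  have hmem : ∀ t, Real.smoothTransition t ∈ Icc (0 : ℝ) 1 := fun t =>
    ⟨Real.smoothTransition.nonneg t, Real.smoothTransition.le_one t⟩
  have hcs : ContDiff ℝ ∞ (crd P c) := by
    rw [show crd P c = fun x => R x - c from funext hcrd]
    exact R.contDiff.sub contDiff_const
  have hper : ∀ x (n : Fin 4 → ℤ), crd P c (x + zc n) = crd P c x + zc fun k => P k ⬝ᵥ n := by
    intro x n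
    funext k
    simp only [crd, dotProduct_add, zc_dot, Pi.add_apply]
    simp only [zc]
    ring
  refine ⟨fun x => α x 1, ⟨fun t x => deriv Real.smoothTransition t *
      H (Real.smoothTransition t) (crd P c x), ?_, fun t x n => by simp only [hper, hp],
    fun t x => α x (Real.smoothTransition t),
    fun t x => deriv Real.smoothTransition t • X (Real.smoothTransition t) x, fun x => ?_,
    fun t x => ?_, fun t y u => ?_, ?_⟩, fun x hx1 y hy1 n heq => ?_⟩
  · exact (had.comp contDiff_fst).mul (hs.comp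
      (f := fun p : ℝ × (Fin 4 → ℝ) => (Real.smoothTransition p.1, crd P c p.2))
      ((has.comp contDiff_fst).prodMk (hcs.comp contDiff_snd)))
  · simp [hα0]
  · exact (hα x _ (hmem t)).scomp_hasDerivAt t ((has.differentiable (by simp)) t).hasDerivAt hmem
  · have h1 := (((slice_diff hs (Real.smoothTransition t)) (crd P c y)).hasFDerivAt.comp y
      (hcd y)).const_mul (deriv Real.smoothTransition t)
    have h2 : fderiv ℝ (fun x => deriv Real.smoothTransition t *
      H (Real.smoothTransition t) (crd P c x)) y = _ := h1.fderiv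
    rw [h2, smul_dotProduct, hXs]
    simp only [_root_.smul_apply, ContinuousLinearMap.comp_apply, hg, smul_eq_mul,
      Fin.sum_univ_four, add_dotProduct, smul_dotProduct, hv.ham]
    simp only [dotProduct, Fin.sum_univ_four, hRa]
  · funext x
    simp
  · obtain ⟨x₀, hx₀, d1⟩ := mem_thickening_iff.1 (hx x hx1).1
    obtain ⟨y₀, hy₀, d2⟩ := mem_thickening_iff.1 (hx y hy1).1
    have hb := (hx x hx1).2
    have h1 := gron (fun s => crd P c (α x s)) (fun s => R (X s (α x s))) x₀ δ (4 * C * δ)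
      ((continuous_crd P c).comp_continuousOn fun s hs' => (hα x s hs').continuousWithinAt)
      (fun s hs' => (hcd _).comp_hasDerivWithinAt s
        ((hα x s (Ico_subset_Icc_self hs')).mono_of_mem_nhdsWithin (Icc_mem_nhdsGE_of_mem hs')))
      (fun s hs' => ?_) (by rw [hα0]; exact d1.le)
    · simp only at heq h1
      rw [heq, hper] at h1
      refine hth (a := zc fun k => P k ⬝ᵥ n) (mem_thickening_iff.2
        ⟨_, mem_image_of_mem _ (mk_mem_prod hx₀ hy₀), ?_⟩) ⟨_, rfl⟩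
      rw [dist_eq_norm] at h1 d2 ⊢
      have e : zc (fun k => P k ⬝ᵥ n) - (φ 1 x₀ - y₀)
          = (crd P c y + zc (fun k => P k ⬝ᵥ n) - φ 1 x₀) - (crd P c y - y₀) := by abel
      rw [e]
      refine (norm_sub_le _ _).trans_lt ?_
      have e2 : δ * Λ = δ * Real.exp L₀ + 4 * C * δ / L₀ * (Real.exp L₀ - 1) + δ := by
        rw [hΛ]; ring
      linarith
    · rw [dist_pi_le_iff (by positivity)]
      intro k
      rw [Real.dist_eq, hRa, hXs, vm_apply]
      have hb' : ∀ i, |g s (crd P c (α x s)) i * (zc (P k) ⬝ᵥ v (P i) - B i k)| ≤ C * δ := by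
        intro i
        rw [abs_mul, hF]
        exact mul_le_mul ((norm_le_pi_norm _ i).trans (hgC s (Ico_subset_Icc_self hs') _))
          (hb i k).le (abs_nonneg _) C.2
      have a0 := abs_le.1 (hb' 0)
      have a1 := abs_le.1 (hb' 1)
      have a2 := abs_le.1 (hb' 2)
      have a3 := abs_le.1 (hb' 3)
      simp only [Fin.sum_univ_four, dotProduct_add, dotProduct_smul, smul_eq_mul]
      rw [abs_le]
      constructor <;> nlinarith

end Pool.Agent.Lib.MP_fac2a6_gt
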