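import Pool.Agent.Lib.MP_fac2a6_gt.TrSwap

/-!
The exchange of the two factors on a torus whose second factor has `k` times the area of the first.
-/

namespace Pool.Agent.Lib.MP_fac2a6_gt

open Set Filter Topology Metric Function Matrix
open scoped ContDiff

/-- If two Hamiltonian images of `K` are disjoint, the second given by one shear, then `K` is
displaceable. -/
lemma disp_pair {W : Matrix (Fin 4) (Fin 4) ℝ} {K : Set (Fin 4 → ℝ)}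
    {f : (Fin 4 → ℝ) → (Fin 4 → ℝ)} (hf : Move W K f)
    (ξ η : Fin 4 → ℤ) (u w : Fin 4 → ℝ) (hu : ∀ z, u ⬝ᵥ (W *ᵥ z) = zc ξ ⬝ᵥ z)
    (hw : ∀ z, w ⬝ᵥ (W *ᵥ z) = zc η ⬝ᵥ z) (h1 : zc ξ ⬝ᵥ u = 0) (h2 : zc ξ ⬝ᵥ w = 0)
    (h3 : zc η ⬝ᵥ u = 0) (h4 : zc η ⬝ᵥ w = 0) {r : ℝ} (hr : r < 1 / 2) (c d : ℝ)
    (hx : ∀ x ∈ K, |zc ξ ⬝ᵥ x - c| ≤ r ∧ |zc η ⬝ᵥ x - d| ≤ r) (κ : ℝ)
    (hd : ∀ x ∈ K, ∀ y ∈ K, ∀ n : Fin 4 → ℤ,
      f x ≠ y - κ • ((zc η ⬝ᵥ y - d) • u + (zc ξ ⬝ᵥ y - c) • w) + zc n) : Disp W K := by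
  obtain ⟨a, a1, a2, a3⟩ := exists_saw hr c
  obtain ⟨b, b1, b2, b3⟩ := exists_saw hr d
  have a2' : ∀ s (m : ℤ), deriv a (s + m) = deriv a s := fun s m => by
    rw [← deriv_comp_add_const]
    simp only [a2]
  have b2' : ∀ s (m : ℤ), deriv b (s + m) = deriv b s := fun s m => by
    rw [← deriv_comp_add_const]
    simp only [b2]
  obtain ⟨ψ, hψ, e⟩ := hf
  refine ⟨_, hψ.comp (ham_two hu hw h1 h2 h3 h4 a1 b1 a2 b2 κ), fun x hx' y hy n h => ?_⟩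
  rw [e x hx'] at h
  have e1 := congrArg (fun p => zc ξ ⬝ᵥ p) h
  have e2 := congrArg (fun p => zc η ⬝ᵥ p) h
  simp only [dotProduct_add, dotProduct_smul, h1, h2, h3, h4, smul_zero, add_zero, zc_dot]
    at e1 e2
  rw [e1, e2, a2, a2', b2, b2', (a3 _ (hx y hy).1).1, (a3 _ (hx y hy).1).2,
    (b3 _ (hx y hy).2).1, (b3 _ (hx y hy).2).2, one_mul, mul_one] at h
  apply hd x hx' y hy n
  rw [← sub_eq_zero] at h ⊢
  rw [← h]
  abel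

/-- The product form with areas `l` and `k * l`. -/
def lngW (l k : ℝ) : Matrix (Fin 4) (Fin 4) ℝ :=
  !![0, l, 0, 0; -l, 0, 0, 0; 0, 0, 0, k * l; 0, 0, -(k * l), 0]

lemma lngW_dot (l k : ℝ) (u z : Fin 4 → ℝ) :
    u ⬝ᵥ (lngW l k *ᵥ z) = l * (u 0 * z 1 - u 1 * z 0 + k * (u 2 * z 3 - u 3 * z 2)) := by
  simp [lngW, dotProduct, mulVec, Fin.sum_univ_four]
  ring

variable {l : ℝ} {k : ℤ}

lemma lng_dual (hl : l ≠ 0) (hk : (k : ℝ) ≠ 0) (a b c d : ℤ) (z : Fin 4 → ℝ) :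
    ![b / l, -a / l, d / (k * l), -c / (k * l)] ⬝ᵥ (lngW l k *ᵥ z) = zc ![a, b, c, d] ⬝ᵥ z := by
  rw [lngW_dot, zc_vec]; simp; field_simp; ring

lemma lng_shift (hl : l ≠ 0) (hk : (k : ℝ) ≠ 0) {K : Set (Fin 4 → ℝ)}
    {f : (Fin 4 → ℝ) → (Fin 4 → ℝ)}
    (hf : Move (lngW l k) K f) (a b c d : ℤ) {r : ℝ} (hr : r < 1 / 2) (s : ℝ)
    (hx : ∀ x ∈ K, |a * f x 0 + b * f x 1 + c * f x 2 + d * f x 3 - s| ≤ r) (κ : ℝ) :
    Move (lngW l k) K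
      (fun x => ![f x 0 + κ * b, f x 1 - κ * a, f x 2 + κ * d / k, f x 3 - κ * c / k]) := by
  refine (move_shift hf ![a, b, c, d] _ (lng_dual hl hk a b c d) ?_ hr s
    (fun x h => by rw [zc_vec]; exact hx x h) (κ * l)).congr fun x _ => ?_
  · rw [zc_vec]; simp; field_simp; ring
  · funext i
    simp only [Pi.add_apply, Pi.smul_apply, smul_eq_mul]
    fin_cases i <;> simp <;> field_simp <;> ring

lemma lng_two (hl : l ≠ 0) (hk : (k : ℝ) ≠ 0) {K : Set (Fin 4 → ℝ)}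
    {f : (Fin 4 → ℝ) → (Fin 4 → ℝ)}
    (hf : Move (lngW l k) K f) (a b c d a' b' c' d' : ℤ)
    (h : k * (a' * b - b' * a) + c' * d - d' * c = 0) {r : ℝ} (hr : r < 1 / 2) (s t : ℝ)
    (p q : (Fin 4 → ℝ) → ℝ) (hp : ∀ x, a * f x 0 + b * f x 1 + c * f x 2 + d * f x 3 - s = p x)
    (hq : ∀ x, a' * f x 0 + b' * f x 1 + c' * f x 2 + d' * f x 3 - t = q x)
    (hx : ∀ x ∈ K, |p x| ≤ r ∧ |q x| ≤ r) (κ : ℝ) :
    Move (lngW l k) K (fun x => ![f x 0 + κ * (q x * b + p x * b'),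
      f x 1 - κ * (q x * a + p x * a'), f x 2 + κ * (q x * d + p x * d') / k,
      f x 3 - κ * (q x * c + p x * c') / k]) := by
  have h' : (k : ℝ) * (a' * b - b' * a) + c' * d - d' * c = 0 := by exact_mod_cast h
  refine (move_two hf ![a, b, c, d] ![a', b', c', d'] _ _ (lng_dual hl hk a b c d)
    (lng_dual hl hk a' b' c' d') ?_ ?_ ?_ ?_ hr s t
    (fun x h => by rw [zc_vec, zc_vec, hp, hq]; exact hx x h) (κ * l)).congr fun x _ => ?_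
  · rw [zc_vec]; simp; field_simp; ring
  · rw [zc_vec]; simp; field_simp; linarith
  · rw [zc_vec]; simp; field_simp; linarith
  · rw [zc_vec]; simp; field_simp; ring
  · rw [zc_vec, zc_vec, hp, hq]
    funext i
    simp only [Pi.add_apply, Pi.smul_apply, smul_eq_mul]
    fin_cases i <;> simp <;> field_simp <;> ring

/-- The displacement criterion on the cube of the model torus. -/
theorem disp_lng_model (hl : l ≠ 0) (hk : (k : ℝ) ≠ 0) {K : Set (Fin 4 → ℝ)} {r : ℝ}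
    (hr : r < 1 / 2) (m c : Fin 4 → ℝ) (hx : ∀ x ∈ K, ∀ i, |x i - m i| ≤ r)
    (hd : ∀ x ∈ K, ∀ y ∈ K, ∀ n : Fin 4 → ℤ, k ∣ n 0 - n 2 →
      ¬ (-(k * x 2) + c 0 = y 0 + n 0 ∧ -x 3 + c 1 = y 1 + n 1 ∧ x 0 + c 2 = k * y 2 + n 2 ∧
        x 1 + c 3 = y 3 + n 3)) : Disp (lngW l k) K := by
  obtain ⟨τ, hτ⟩ : ∃ τ : Fin 4 → ℝ, τ = ![c 0 - k * m 2 - m 0, c 1 + c 3 - 2 * m 3,
    (c 2 - c 0 + 2 * m 0) / k, c 3 + m 1 - m 3] := ⟨_, rfl⟩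
  have t0 := lng_shift hl hk (move_id (lngW l k) K) 0 1 0 0 hr (m 1)
    (fun x h => by simpa using hx x h 1) (τ 0)
  have t1 := lng_shift hl hk t0 (-1) 0 0 0 hr (-(m 0 + τ 0)) (fun x h => by
    rw [← abs_neg]; convert hx x h 0 using 2; simp; ring) (τ 1)
  have t2 := lng_shift hl hk t1 0 0 0 1 hr (m 3) (fun x h => by simpa using hx x h 3) (τ 2 * k)
  have t3 := (lng_shift hl hk t2 0 0 (-1) 0 hr (-(m 2 + τ 2)) (fun x h => by
    rw [← abs_neg]; convert hx x h 2 using 2; simp; field_simp; ring) (τ 3 * k)).congr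
    (g := fun x => ![x 0 + τ 0, x 1 + τ 1, x 2 + τ 2, x 3 + τ 3])
    fun x _ => by funext i; fin_cases i <;> simp <;> field_simp <;> ring
  have s1 := (lng_two hl hk t3 0 1 0 0 0 0 1 0 (by simp) hr (m 1 + τ 1) (m 2 + τ 2)
    (fun x => x 1 - m 1) (fun x => x 2 - m 2) (fun x => by simp) (fun x => by simp)
    (fun x h => ⟨hx x h 1, hx x h 2⟩) (-k)).congr
    (g := fun x => ![x 0 + τ 0 - k * (x 2 - m 2), x 1 + τ 1, x 2 + τ 2, x 3 + τ 3 + (x 1 - m 1)])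
    fun x _ => by funext i; fin_cases i <;> simp <;> field_simp <;> ring
  have s2 := (lng_two hl hk s1 1 0 k 0 0 (-1) 0 1 (by simp) hr
    (m 0 + τ 0 + k * (m 2 + τ 2)) (m 3 + τ 3 - (m 1 + τ 1))
    (fun x => x 0 - m 0) (fun x => x 3 - m 3) (fun x => by simp; ring) (fun x => by simp; ring)
    (fun x h => ⟨hx x h 0, hx x h 3⟩) 1).congr
    (g := fun x => ![m 0 + τ 0 - k * (x 2 - m 2), x 1 + τ 1 - (x 3 - m 3),
      x 2 + τ 2 + (x 0 - m 0) / k, m 3 + τ 3 + (x 1 - m 1)])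
    fun x _ => by funext i; fin_cases i <;> simp <;> field_simp <;> ring
  refine disp_pair s2 ![1, 0, 0, 0] ![0, 0, 0, 1] _ _ (lng_dual hl hk 1 0 0 0)
    (lng_dual hl hk 0 0 0 1) (by rw [zc_vec]; simp) (by rw [zc_vec]; simp) (by rw [zc_vec]; simp)
    (by rw [zc_vec]; simp) hr (m 0) (m 3)
    (fun x h => by rw [zc_vec, zc_vec]; simpa using ⟨hx x h 0, hx x h 3⟩) l
    fun x hx' y hy n h => ?_
  rw [zc_vec, zc_vec] at h
  have e0 := congrFun h 0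
  have e1 := congrFun h 1
  have e2 := congrFun h 2
  have e3 := congrFun h 3
  simp [hτ, zc] at e0 e1 e2 e3
  clear t0 t1 t2 t3 s1 s2 h
  field_simp at e1 e2
  rw [show vecHead y = y 0 from rfl] at e0
  rw [show vecHead (vecTail y) = y 1 from rfl] at e1
  rw [show vecHead (vecTail (vecTail y)) = y 2 from rfl] at e2
  rw [show vecHead (vecTail (vecTail (vecTail y))) = y 3 from rfl] at e3
  refine hd x hx' y hy ![n 0, n 1 - n 3, n 0 + k * n 2, n 3] (by simp) ?_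
  simp
  refine ⟨by linarith, by linarith, by linarith, by linarith⟩

theorem disp_lng {W : Matrix (Fin 4) (Fin 4) ℝ} (hW : Wᵀ = -W)
    {v : (Fin 4 → ℤ) → (Fin 4 → ℝ)}
    (hv : Dual W v) (P : Matrix (Fin 4) (Fin 4) ℤ) (hP : P.det ≠ 0) (M : Matrix (Fin 4) (Fin 4) ℝ)
    (h1 : ∀ i, M i i = 1) (h0 : ∀ i j, i < j → M i j = 0) (D : Fin 4 → ℝ) (hD : ∀ i, 0 < D i)
    (hDp : ∏ i, D i = 1) (z : (Fin 4 → ℝ) → (Fin 4 → ℝ))
    (hz : ∀ x, z x = M *ᵥ (P.map (fun b : ℤ => (b : ℝ)) *ᵥ x)) (hl : l ≠ 0) (hk : (k : ℝ) ≠ 0)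
    (hW' : ∀ x u, x ⬝ᵥ (W *ᵥ u) = (D * z x) ⬝ᵥ (lngW l k *ᵥ (D * z u)))
    {K : Set (Fin 4 → ℝ)} (hK : IsCompact K)
    (hwid : ∀ x ∈ K, ∀ x' ∈ K, ∀ i, |z x i - z x' i| < 1 ∧ D i * |z x i - z x' i| < 1)
    (c : Fin 4 → ℝ)
    (hd : ∀ x ∈ K, ∀ y ∈ K, ∀ n : Fin 4 → ℤ, k ∣ n 0 - n 2 →
      ¬ (-(k * (D * z x) 2) + c 0 = (D * z y) 0 + n 0 ∧ -(D * z x) 3 + c 1 = (D * z y) 1 + n 1 ∧
        (D * z x) 0 + c 2 = k * (D * z y) 2 + n 2 ∧ (D * z x) 1 + c 3 = (D * z y) 3 + n 3)) :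
    Disp W K := by
  refine disp_transfer hW hv P hP M h1 h0 D hD hDp z hz (lngW l k) hW' hK hwid ?_
  rcases K.eq_empty_or_nonempty with rfl | hne
  · obtain ⟨ψ, hψ, -⟩ := move_id (lngW l k) ∅
    exact ⟨ψ, hψ, by simp⟩
  have hzc : Continuous z := by
    rw [show z = fun x => M *ᵥ (P.map (fun b : ℤ => (b : ℝ)) *ᵥ x) from funext hz]
    fun_prop
  obtain ⟨m, s, ε, hε, -, hεs, hm⟩ := exists_centre hK hne hzc hD hwid
  refine disp_lng_model hl hk (r := (1 - ε) / 2) (by linarith) (D * m) c ?_ ?_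
  · rintro _ ⟨x, hx, rfl⟩ i
    have a := box_mul hD (hm x hx) i
    have b := (hεs i).2
    rw [mul_sub] at a
    simp only [Pi.mul_apply, Pi.sub_apply] at a ⊢
    linarith
  · rintro _ ⟨x, hx, rfl⟩ _ ⟨y, hy, rfl⟩ n hn
    exact hd x hx y hy n hn

end Pool.Agent.Lib.MP_fac2a6_gt
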