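import Pool.Agent.Lib.MP_fac2a6_gt.TrFlow

/-!
Transfer of displacements from a model torus to an irrational torus.
-/

namespace Pool.Agent.Lib.MP_fac2a6_gt

open Set Filter Topology Metric Function Matrix
open scoped ContDiff

variable {W : Matrix (Fin 4) (Fin 4) ℝ} {v : (Fin 4 → ℤ) → (Fin 4 → ℝ)}

lemma exists_centre {K : Set (Fin 4 → ℝ)} (hK : IsCompact K) (hne : K.Nonempty)
    {z : (Fin 4 → ℝ) → (Fin 4 → ℝ)} (hzc : Continuous z) {D : Fin 4 → ℝ} (hD : ∀ i, 0 < D i)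
    (hwid : ∀ x ∈ K, ∀ y ∈ K, ∀ i, |z x i - z y i| < 1 ∧ D i * |z x i - z y i| < 1) :
    ∃ (m s : Fin 4 → ℝ) (ε : ℝ), 0 < ε ∧ ε < 1 ∧ (∀ k, s k ≤ 1 - ε ∧ D k * s k ≤ 1 - ε) ∧
      ∀ x ∈ K, z x - m ∈ box s := by
  have hco : ∀ k, ∃ m s : ℝ, 0 < s ∧ s < 1 ∧ D k * s < 1 ∧ ∀ x ∈ K, |z x k - m| < s / 2 := by
    intro k
    have hc : ContinuousOn (fun x => z x k) K := by fun_prop
    obtain ⟨a, ha, hma⟩ := hK.exists_isMaxOn hne hc
    obtain ⟨b, hb, hmb⟩ := hK.exists_isMinOn hne hc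
    obtain ⟨b1, b2⟩ := hwid a ha b hb k
    have b4 : z b k ≤ z a k := hma hb
    rw [abs_of_nonneg (by linarith)] at b1 b2
    obtain ⟨s, c1, c2⟩ := exists_between (lt_min b1 ((lt_div_iff₀' (hD k)).2 b2))
    refine ⟨(z a k + z b k) / 2, s, by linarith, c2.trans_le (min_le_left _ _),
      (lt_div_iff₀' (hD k)).1 (c2.trans_le (min_le_right _ _)), fun x hx => ?_⟩
    have d1 : z x k ≤ z a k := hma hx
    have d2 : z b k ≤ z x k := hmb hx
    rw [abs_lt]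
    constructor <;> linarith
  choose m s hs0 hs1 hsD hm using hco
  have a1 : ‖s‖ < 1 := (pi_norm_lt_iff one_pos).2 fun k => by
    rw [Real.norm_eq_abs, abs_of_pos (hs0 k)]; exact hs1 k
  have a2 : ‖D * s‖ < 1 := (pi_norm_lt_iff one_pos).2 fun k => by
    rw [Real.norm_eq_abs, Pi.mul_apply, abs_of_pos (mul_pos (hD k) (hs0 k))]; exact hsD k
  have a3 : ∀ k, s k ≤ ‖s‖ := fun k => (le_abs_self _).trans (norm_le_pi_norm s k)
  have a4 : ∀ k, D k * s k ≤ ‖D * s‖ := fun k =>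
    (le_abs_self _).trans (norm_le_pi_norm (D * s) k)
  have a5 := le_max_left ‖s‖ ‖D * s‖
  have a6 := le_max_right ‖s‖ ‖D * s‖
  have a7 := max_lt a1 a2
  exact ⟨m, s, 1 - max ‖s‖ ‖D * s‖, by linarith, by linarith [a3 0, hs0 0], fun k =>
    ⟨by linarith [a3 k], by linarith [a4 k]⟩, fun x hx k => hm k x hx⟩

lemma Good2.shift {B : Matrix (Fin 4) (Fin 4) ℝ} {U : Set PF} (h : Good2 W v B U)
    (m : Fin 4 → ℝ) : Good2 W v B {p | (p.1 + m, p.2) ∈ U} := by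
  intro P c K a hP hK hF hx
  refine h P (c - m) K a hP hK hF fun x hx' => ?_
  have e : crd P (c - m) x = crd P c x + m := by
    funext k
    simp only [crd, Pi.sub_apply, Pi.add_apply]
    ring
  rw [e]
  exact hx x hx'

theorem disp_transfer (hW : Wᵀ = -W) (hv : Dual W v)
    (P : Matrix (Fin 4) (Fin 4) ℤ) (hP : P.det ≠ 0) (M : Matrix (Fin 4) (Fin 4) ℝ)
    (h1 : ∀ i, M i i = 1) (h0 : ∀ i j, i < j → M i j = 0) (D : Fin 4 → ℝ) (hD : ∀ i, 0 < D i)
    (hDp : ∏ i, D i = 1) (z : (Fin 4 → ℝ) → (Fin 4 → ℝ))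
    (hz : ∀ x, z x = M *ᵥ (P.map (fun b : ℤ => (b : ℝ)) *ᵥ x)) (W' : Matrix (Fin 4) (Fin 4) ℝ)
    (hW' : ∀ x u, x ⬝ᵥ (W *ᵥ u) = (D * z x) ⬝ᵥ (W' *ᵥ (D * z u)))
    {K : Set (Fin 4 → ℝ)} (hK : IsCompact K)
    (hwid : ∀ x ∈ K, ∀ y ∈ K, ∀ i, |z x i - z y i| < 1 ∧ D i * |z x i - z y i| < 1)
    (hdis : Disp W' ((fun x => D * z x) '' K)) : Disp W K := by
  rcases K.eq_empty_or_nonempty with rfl | hne
  · exact good_base hv P 0 ∅ hP hK (by simp)
  set R : Matrix (Fin 4) (Fin 4) ℝ := P.map (fun b : ℤ => (b : ℝ)) with hR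
  have hzc : Continuous z := by
    rw [show z = fun x => M *ᵥ (R *ᵥ x) from funext hz]
    fun_prop
  obtain ⟨m, s, ε, hε, hε1, hεs, hm⟩ := exists_centre hK hne hzc hD hwid
  have hRd : IsUnit R.det := by
    have : R = (Int.castRingHom ℝ).mapMatrix P := rfl
    rw [this, ← RingHom.map_det, isUnit_iff_ne_zero]
    simpa using hP
  have hMd : M.det = 1 := by
    rw [Matrix.det_of_isLowerTriangular M fun i j hij => h0 i j hij]
    simp [h1]
  set N : Matrix (Fin 4) (Fin 4) ℝ := diagonal D * M with hN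
  have hNd : IsUnit N.det := by rw [hN, det_mul, det_diagonal, hDp, hMd]; simp
  have hNv : ∀ y, D * (M *ᵥ y) = N *ᵥ y := fun y => by
    rw [hN, ← mulVec_mulVec]
    funext k
    rw [mulVec_diagonal, Pi.mul_apply]
  set Vm : Matrix (Fin 4) (Fin 4) ℝ := Matrix.of fun i => v (P i) with hVm
  have e1 : Vm * W = R := by
    ext i k
    have := hv.ham (P i) (Pi.single k 1)
    rw [dotProduct_mulVec] at this
    simpa [hVm, hR, zc, Matrix.mul_apply, vecMul, dotProduct, Pi.single_apply] using this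
  have e2 : W = (N * R)ᵀ * W' * (N * R) := by
    ext i k
    have := hW' (Pi.single i 1) (Pi.single k 1)
    have key : ∀ (A : Matrix (Fin 4) (Fin 4) ℝ) (x u : Fin 4 → ℝ),
        (A *ᵥ x) ⬝ᵥ (W' *ᵥ (A *ᵥ u)) = x ⬝ᵥ ((Aᵀ * W' * A) *ᵥ u) := fun A x u => by
      rw [← mulVec_mulVec, ← mulVec_mulVec, dotProduct_mulVec x Aᵀ, vecMul_transpose]
    rw [hz, hz, hNv, hNv, mulVec_mulVec _ N, mulVec_mulVec _ N, key] at this
    simpa using this
  have e3 : Vm * Rᵀ * Nᵀ * W' * N = 1 := by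
    have a : Vm * Rᵀ * Nᵀ * W' * N * R = 1 * R := by
      rw [Matrix.one_mul]
      conv_rhs => rw [← e1, e2]
      simp only [transpose_mul, Matrix.mul_assoc]
    have b := congrArg (· * R⁻¹) a
    simpa only [Matrix.mul_nonsing_inv_cancel_right _ _ hRd] using b
  have hB : N * (Vm * Rᵀ) * Nᵀ * W' = 1 := by
    have a := mul_eq_one_comm.1 e3
    simpa only [Matrix.mul_assoc] using a
  obtain ⟨U, hU, hU1, hG⟩ := good2_base hv hB (hK.image (by fun_prop)) hdis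
  have hU' : IsOpen {p : PF | (p.1 + D * m, p.2) ∈ U} :=
    hU.preimage (f := fun p : PF => (p.1 + D * m, p.2)) (by fun_prop)
  have g := ((adm_lower (B := N * (Vm * Rᵀ) * Nᵀ) hW hv M h1 h0).comp
    (adm_diag hW hv hε hε1 _ D s le_rfl hD hDp (fun k => (hεs k).1) fun k => (hεs k).2)
    (isOpen_box s)).good _ hU' (hG.shift (D * m))
  refine (g.shift (-(M⁻¹ *ᵥ m))) P 0 K (fun j => N⁻¹ *ᵥ Pi.single j 1) hP hK (fun k l => ?_)
    fun x hx => ?_
  · have a : Vm * Rᵀ = N⁻¹ * (N * (Vm * Rᵀ) * Nᵀ) * N⁻¹ᵀ := by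
      rw [Matrix.mul_assoc N, Matrix.nonsing_inv_mul_cancel_left _ _ hNd, Matrix.mul_assoc,
        ← transpose_mul, Matrix.nonsing_inv_mul _ hNd]
      simp
    have b : zc (P l) ⬝ᵥ v (P k) = (Vm * Rᵀ) k l := by
      simp only [hVm, hR, zc, Matrix.mul_apply, dotProduct, of_apply, transpose_apply, map_apply]
      exact Finset.sum_congr rfl fun i _ => mul_comm _ _
    rw [b]
    conv_lhs => rw [a]
    generalize N * (Vm * Rᵀ) * Nᵀ = B
    simp only [Matrix.mul_apply, mulVec_single_one, col_apply, transpose_apply, Fin.sum_univ_four]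
    ring
  · have e : M *ᵥ (crd P 0 x + -(M⁻¹ *ᵥ m)) = z x - m := by
      have a : crd P 0 x = R *ᵥ x := funext fun k => sub_zero _
      rw [mulVec_add, mulVec_neg, mulVec_mulVec, mul_nonsing_inv _ (by simp [hMd]), one_mulVec, hz,
        a, sub_eq_add_neg]
    simp only [Set.mem_ofPred_eq, act]
    rw [e]
    refine ⟨⟨fun k => ?_, hm x hx⟩, ?_⟩
    · have a := hm x hx k
      have b := (hεs k).1
      simp only [Pi.one_apply]
      linarith
    · have a : ∀ j, D * (M *ᵥ (N⁻¹ *ᵥ Pi.single j 1)) = Pi.single j 1 := fun j => by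
        rw [hNv, mulVec_mulVec, mul_nonsing_inv _ hNd, one_mulVec]
      simp only [a]
      rw [← mul_add, sub_add_cancel]
      exact hU1 _ (mem_image_of_mem _ hx)

end Pool.Agent.Lib.MP_fac2a6_gt
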