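import Pool.Agent.Lib.MP_fac2a6_gt.TrSwap

/-!
Every integral symplectic matrix acts on the cube of the standard torus by a Hamiltonian map.
-/

namespace Pool.Agent.Lib.MP_fac2a6_gt

open Set Filter Topology Metric Function Matrix
open scoped ContDiff

/-- The standard integral skew matrix. -/
def JZ : Matrix (Fin 4) (Fin 4) ℤ := !![0, 1, 0, 0; -1, 0, 0, 0; 0, 0, 0, 1; 0, 0, -1, 0]

/-- Integral symplectic matrices. -/
def IsSp (h : Matrix (Fin 4) (Fin 4) ℤ) : Prop := hᵀ * JZ * h = JZ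

lemma JZ_sq : JZ * JZ = -1 := by decide

lemma IsSp.inv_mul {h : Matrix (Fin 4) (Fin 4) ℤ} (H : IsSp h) : -(JZ * hᵀ * JZ) * h = 1 := by
  have : JZ * hᵀ * JZ * h = JZ * (hᵀ * JZ * h) := by simp only [Matrix.mul_assoc]
  rw [Matrix.neg_mul, this, H, JZ_sq, neg_neg]

lemma IsSp.row {h : Matrix (Fin 4) (Fin 4) ℤ} (H : IsSp h) : h * JZ * hᵀ = JZ := by
  have a := mul_eq_one_comm.1 H.inv_mul
  have b : h * -(JZ * hᵀ * JZ) * JZ = h * JZ * hᵀ := by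
    rw [Matrix.mul_assoc, Matrix.neg_mul, Matrix.mul_assoc (JZ * hᵀ), JZ_sq]
    simp [Matrix.mul_assoc]
  rw [← b, a, Matrix.one_mul]

lemma IsSp.mul {s h : Matrix (Fin 4) (Fin 4) ℤ} (S : IsSp s) (H : IsSp h) : IsSp (s * h) := by
  have : (s * h)ᵀ * JZ * (s * h) = hᵀ * (sᵀ * JZ * s) * h := by
    simp only [transpose_mul, Matrix.mul_assoc]
  rw [IsSp, this, S, H]

lemma IsSp.inv {h : Matrix (Fin 4) (Fin 4) ℤ} (H : IsSp h) : IsSp (-(JZ * hᵀ * JZ)) := by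
  have t : JZᵀ = -JZ := by decide
  have e : (-(JZ * hᵀ * JZ))ᵀ * JZ * -(JZ * hᵀ * JZ)
      = JZ * (h * (JZ * JZ * JZ) * hᵀ) * JZ := by
    simp only [transpose_neg, transpose_mul, transpose_transpose, t, Matrix.neg_mul,
      Matrix.mul_neg, neg_neg, Matrix.mul_assoc]
  rw [IsSp, e, JZ_sq, Matrix.neg_mul, Matrix.one_mul, Matrix.mul_neg, Matrix.neg_mul, H.row,
    Matrix.mul_neg, JZ_sq]
  simp

lemma IsSp.col {h : Matrix (Fin 4) (Fin 4) ℤ} (H : IsSp h) (i j : Fin 4) :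
    h 0 i * h 1 j - h 1 i * h 0 j + h 2 i * h 3 j - h 3 i * h 2 j = JZ i j := by
  rw [← congrFun (congrFun H i) j]
  simp [JZ, Matrix.mul_apply, Fin.sum_univ_four]
  ring

lemma IsSp.row' {h : Matrix (Fin 4) (Fin 4) ℤ} (H : IsSp h) (i j : Fin 4) :
    h i 0 * h j 1 - h i 1 * h j 0 + h i 2 * h j 3 - h i 3 * h j 2 = JZ i j := by
  rw [← congrFun (congrFun H.row i) j]
  simp [JZ, Matrix.mul_apply, Fin.sum_univ_four]
  ring

/-- The inverse of `h`, centred anywhere, is carried out on cubes by a Hamiltonian map. -/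
def Reach (l : ℝ) (h : Matrix (Fin 4) (Fin 4) ℤ) : Prop :=
  ∀ (K : Set (Fin 4 → ℝ)) (r : ℝ) (m : Fin 4 → ℝ), r < 1 / 2 → (∀ x ∈ K, ∀ k, |x k - m k| ≤ r) →
    ∃ f, Move (stdW l) K f ∧ ∀ x k, ∑ p, (h k p : ℝ) * (f x p - m p) = x k - m k

variable {l : ℝ}

lemma reach_one : Reach l 1 := fun K _ m _ _ =>
  ⟨_, move_id _ K, fun x k => by simp [Matrix.one_apply]⟩

lemma Reach.step (hl : l ≠ 0) {h s : Matrix (Fin 4) (Fin 4) ℤ} (H : IsSp h) (R : Reach l h)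
    (i j : Fin 4) (hij : JZ j i = 0) (κ : ℝ)
    (hs : ∀ (x : Fin 4 → ℝ) k, ∑ p, (s k p : ℝ) * (x p + κ * (x j * JZ p i + x i * JZ p j)) = x k) :
    Reach l (s * h) := by
  intro K r m hr hx
  obtain ⟨f, hf, e⟩ := R K r m hr hx
  simp only [Fin.sum_univ_four] at e
  refine ⟨_, std_two hl hf (h i 0) (h i 1) (h i 2) (h i 3) (h j 0) (h j 1) (h j 2) (h j 3)
    (by rw [← hij, ← H.row' j i]) hr (∑ p, h i p * m p) (∑ p, h j p * m p)
    (fun x => x i - m i) (fun x => x j - m j)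
    (fun x => by rw [Fin.sum_univ_four]; linear_combination e x i)
    (fun x => by rw [Fin.sum_univ_four]; linear_combination e x j)
    (fun x h => ⟨hx x h i, hx x h j⟩) κ, fun x k => ?_⟩
  have a := hs (x - m) k
  have b : ∀ p q, (h p 0 : ℝ) * h q 1 - h p 1 * h q 0 + h p 2 * h q 3 - h p 3 * h q 2 = JZ p q :=
    fun p q => by exact_mod_cast H.row' p q
  simp only [Fin.sum_univ_four, Pi.sub_apply, ← b, Matrix.mul_apply] at a ⊢
  simp only [Matrix.cons_val_zero, Matrix.cons_val_one, Matrix.cons_val]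
  push_cast
  linear_combination a + s k 0 * e x 0 + s k 1 * e x 1 + s k 2 * e x 2 + s k 3 * e x 3

/-- One parameter families of elementary symplectic row operations. -/
structure Elem (l : ℝ) (E : ℤ → Matrix (Fin 4) (Fin 4) ℤ) : Prop where
  sp : ∀ n, IsSp (E n)
  inv : ∀ n, E (-n) * E n = 1
  reach : ∀ n h, IsSp h → Reach l h → Reach l (E n * h)

lemma Elem.back {E : ℤ → Matrix (Fin 4) (Fin 4) ℤ} (e : Elem l E) {h : Matrix (Fin 4) (Fin 4) ℤ}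
    (H : IsSp h) (n : ℤ) (R : Reach l (E n * h)) : Reach l h := by
  have := e.reach (-n) _ ((e.sp n).mul H) R
  rwa [← Matrix.mul_assoc, e.inv, Matrix.one_mul] at this

lemma euclid {A B : ℤ → Matrix (Fin 4) (Fin 4) ℤ} (eA : Elem l A) (eB : Elem l B)
    (a b : Matrix (Fin 4) (Fin 4) ℤ → ℤ) (I : Matrix (Fin 4) (Fin 4) ℤ → Prop)
    (hA : ∀ n h, I h → I (A n * h) ∧ a (A n * h) = a h + n * b h ∧ b (A n * h) = b h)
    (hB : ∀ n h, I h → I (B n * h) ∧ a (B n * h) = a h ∧ b (B n * h) = b h + n * a h)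
    (h : Matrix (Fin 4) (Fin 4) ℤ) (H : IsSp h) (hI : I h) :
    ∃ h', IsSp h' ∧ I h' ∧ 0 ≤ a h' ∧ b h' = 0 ∧ (Reach l h' → Reach l h) := by
  have zero : ∀ h, IsSp h → I h → b h = 0 →
      ∃ h', IsSp h' ∧ I h' ∧ 0 ≤ a h' ∧ b h' = 0 ∧ (Reach l h' → Reach l h) := by
    intro h H hI hb
    rcases le_or_gt 0 (a h) with ha | ha
    · exact ⟨h, H, hI, ha, hb, id⟩
    obtain ⟨i1, a1, b1⟩ := hB (-1) h hI
    obtain ⟨i2, a2, b2⟩ := hA 2 _ i1
    obtain ⟨i3, a3, b3⟩ := hB (-1) _ i2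
    have H1 := (eB.sp (-1)).mul H
    have H2 := (eA.sp 2).mul H1
    exact ⟨_, (eB.sp (-1)).mul H2, i3, by omega, by omega,
      fun R => eB.back H _ (eA.back H1 _ (eB.back H2 _ R))⟩
  induction hn : (b h).natAbs using Nat.strong_induction_on generalizing h with
  | _ n ih =>
    by_cases hb : b h = 0
    · exact zero h H hI hb
    obtain ⟨i1, a1, b1⟩ := hA (-(a h / b h)) h hI
    have H1 := (eA.sp (-(a h / b h))).mul H
    have a1' : a (A (-(a h / b h)) * h) = a h % b h := by rw [a1, Int.emod_def]; ring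
    have lt1 := Int.emod_lt_abs (a h) hb
    have ge1 := Int.emod_nonneg (a h) hb
    set h₁ := A (-(a h / b h)) * h
    by_cases ha : a h₁ = 0
    · obtain ⟨i2, a2, b2⟩ := hA 1 _ i1
      obtain ⟨i3, a3, b3⟩ := hB (-1) _ i2
      have H2 := (eA.sp 1).mul H1
      obtain ⟨h', c1, c2, c3, c4, c5⟩ := zero _ ((eB.sp (-1)).mul H2) i3 (by omega)
      exact ⟨h', c1, c2, c3, c4, fun R => eA.back H _ (eA.back H1 _ (eB.back H2 _ (c5 R)))⟩
    · obtain ⟨i2, a2, b2⟩ := hB (-(b h₁ / a h₁)) _ i1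
      have b2' : b (B (-(b h₁ / a h₁)) * h₁) = b h₁ % a h₁ := by rw [b2, Int.emod_def]; ring
      have lt2 := Int.emod_lt_abs (b h₁) ha
      have ge2 := Int.emod_nonneg (b h₁) ha
      obtain ⟨h', c1, c2, c3, c4, c5⟩ := ih _ (by
        rw [← hn, b2']
        rw [a1', abs_of_nonneg ge1] at lt2
        rw [a1'] at ge2 ⊢
        have := Int.natCast_natAbs (b h)
        omega) _ ((eB.sp _).mul H1) i2 rfl
      exact ⟨h', c1, c2, c3, c4, fun R => eA.back H _ (eB.back H1 _ (c5 R))⟩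

/-- The eight elementary families. -/
def EL : Fin 8 → ℤ → Matrix (Fin 4) (Fin 4) ℤ
  | 0, n => !![1, n, 0, 0; 0, 1, 0, 0; 0, 0, 1, 0; 0, 0, 0, 1]
  | 1, n => !![1, 0, 0, 0; n, 1, 0, 0; 0, 0, 1, 0; 0, 0, 0, 1]
  | 2, n => !![1, 0, 0, 0; 0, 1, 0, 0; 0, 0, 1, n; 0, 0, 0, 1]
  | 3, n => !![1, 0, 0, 0; 0, 1, 0, 0; 0, 0, 1, 0; 0, 0, n, 1]
  | 4, n => !![1, 0, n, 0; 0, 1, 0, 0; 0, 0, 1, 0; 0, -n, 0, 1]
  | 5, n => !![1, 0, 0, 0; 0, 1, 0, -n; n, 0, 1, 0; 0, 0, 0, 1]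
  | 6, n => !![1, 0, 0, n; 0, 1, 0, 0; 0, n, 1, 0; 0, 0, 0, 1]
  | 7, _ => 1

lemma EL_sp (i : Fin 8) (n : ℤ) : IsSp (EL i n) := by
  unfold IsSp
  fin_cases i <;> ext a b <;> fin_cases a <;> fin_cases b <;>
    simp [EL, JZ, Matrix.mul_apply, Fin.sum_univ_four]

lemma EL_inv (i : Fin 8) (n : ℤ) : EL i (-n) * EL i n = 1 := by
  fin_cases i <;> ext a b <;> fin_cases a <;> fin_cases b <;>
    simp [EL, Matrix.mul_apply, Fin.sum_univ_four]

lemma elem (hl : l ≠ 0) (i : Fin 8) : Elem l (EL i) := by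
  refine ⟨EL_sp i, EL_inv i, fun n h H R => ?_⟩
  fin_cases i
  · refine R.step hl H 1 1 rfl (-n / 2) fun x k => ?_
    fin_cases k <;> simp [EL, JZ, Fin.sum_univ_four] <;> ring
  · refine R.step hl H 0 0 rfl (n / 2) fun x k => ?_
    fin_cases k <;> simp [EL, JZ, Fin.sum_univ_four] <;> ring
  · refine R.step hl H 3 3 rfl (-n / 2) fun x k => ?_
    fin_cases k <;> simp [EL, JZ, Fin.sum_univ_four] <;> ring
  · refine R.step hl H 2 2 rfl (n / 2) fun x k => ?_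
    fin_cases k <;> simp [EL, JZ, Fin.sum_univ_four] <;> ring
  · refine R.step hl H 1 2 rfl (-n) fun x k => ?_
    fin_cases k <;> simp [EL, JZ, Fin.sum_univ_four] <;> ring
  · refine R.step hl H 0 3 rfl (-n) fun x k => ?_
    fin_cases k <;> simp [EL, JZ, Fin.sum_univ_four] <;> ring
  · refine R.step hl H 1 3 rfl (-n) fun x k => ?_
    fin_cases k <;> simp [EL, JZ, Fin.sum_univ_four] <;> ring
  · simpa [EL] using R

theorem reach_all (hl : l ≠ 0) {h : Matrix (Fin 4) (Fin 4) ℤ} (H : IsSp h) : Reach l h := by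
  obtain ⟨h1, H1, -, -, z1, r1⟩ := euclid (elem hl 0) (elem hl 1) (fun h => h 0 0) (fun h => h 1 0)
    (fun _ => True) (fun n h _ => by simp [EL, Matrix.mul_apply, Fin.sum_univ_four])
    (fun n h _ => by simp [EL, Matrix.mul_apply, Fin.sum_univ_four, add_comm]) h H trivial
  obtain ⟨h2, H2, z2, -, z2', r2⟩ := euclid (elem hl 2) (elem hl 3) (fun h => h 2 0)
    (fun h => h 3 0) (fun h => h 1 0 = 0)
    (fun n h e => by simp [EL, Matrix.mul_apply, Fin.sum_univ_four, e])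
    (fun n h e => by simp [EL, Matrix.mul_apply, Fin.sum_univ_four, add_comm, e]) h1 H1 z1
  obtain ⟨h3, H3, ⟨z3, z3'⟩, p3, z3'', r3⟩ := euclid (elem hl 4) (elem hl 5) (fun h => h 0 0)
    (fun h => h 2 0) (fun h => h 1 0 = 0 ∧ h 3 0 = 0)
    (fun n h e => by simp [EL, Matrix.mul_apply, Fin.sum_univ_four, e.1, e.2])
    (fun n h e => by simp [EL, Matrix.mul_apply, Fin.sum_univ_four, add_comm, e.1, e.2])
    h2 H2 ⟨z2, z2'⟩
  have c01 := H3.col 0 1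
  simp only [z3, z3', z3'', JZ] at c01
  have c01' : h3 0 0 * h3 1 1 = 1 := by simpa using c01
  have u0 : h3 0 0 = 1 := Int.eq_one_of_mul_eq_one_right p3 c01'
  have u1 : h3 1 1 = 1 := by rwa [u0, one_mul] at c01'
  refine r1 (r2 (r3 ((elem hl 4).back H3 (h3 3 1) ?_)))
  have H4 := (EL_sp 4 (h3 3 1)).mul H3
  refine (elem hl 6).back H4 (-h3 2 1) ?_
  have H5 := (EL_sp 6 (-h3 2 1)).mul H4
  set h5 := EL 6 (-h3 2 1) * (EL 4 (h3 3 1) * h3) with hh5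
  refine (elem hl 0).back H5 (-h5 0 1) ?_
  have H6 := (EL_sp 0 (-h5 0 1)).mul H5
  have q : h5 0 0 = 1 ∧ h5 1 0 = 0 ∧ h5 2 0 = 0 ∧ h5 3 0 = 0 ∧ h5 1 1 = 1 ∧ h5 2 1 = 0 ∧
      h5 3 1 = 0 := by
    simp only [hh5, Matrix.mul_apply, Fin.sum_univ_four]
    simp [EL, z3, z3', z3'', u0, u1]
  obtain ⟨q1, q2, q3, q4, q5, q6, q7⟩ := q
  obtain ⟨h7, H7, ⟨a0, a1, a2, a3, b0, b1, b2, b3⟩, p7, z7, r7⟩ := euclid (elem hl 2) (elem hl 3)
    (fun h => h 2 2) (fun h => h 3 2)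
    (fun h => h 0 0 = 1 ∧ h 1 0 = 0 ∧ h 2 0 = 0 ∧ h 3 0 = 0 ∧ h 0 1 = 0 ∧ h 1 1 = 1 ∧ h 2 1 = 0 ∧
      h 3 1 = 0)
    (fun n h ⟨a0, a1, a2, a3, b0, b1, b2, b3⟩ => by
      simp [EL, Matrix.mul_apply, Fin.sum_univ_four, a0, a1, a2, a3, b0, b1, b2, b3])
    (fun n h ⟨a0, a1, a2, a3, b0, b1, b2, b3⟩ => by
      simp [EL, Matrix.mul_apply, Fin.sum_univ_four, add_comm, a0, a1, a2, a3, b0, b1, b2, b3])
    _ H6 (by simp [EL, Matrix.mul_apply, Fin.sum_univ_four, q1, q2, q3, q4, q5, q6, q7])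
  have d02 : h7 1 2 = 0 := by simpa [a0, a1, a2, a3, JZ] using H7.col 0 2
  have d03 : h7 1 3 = 0 := by simpa [a0, a1, a2, a3, JZ] using H7.col 0 3
  have d12 : h7 0 2 = 0 := by simpa [b0, b1, b2, b3, JZ] using H7.col 1 2
  have d13 : h7 0 3 = 0 := by simpa [b0, b1, b2, b3, JZ] using H7.col 1 3
  have z7' : h7 3 2 = 0 := z7
  have d23 : h7 2 2 * h7 3 3 = 1 := by simpa [d02, d12, z7', JZ] using H7.col 2 3
  have v2 : h7 2 2 = 1 := Int.eq_one_of_mul_eq_one_right p7 d23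
  have v3 : h7 3 3 = 1 := by rwa [v2, one_mul] at d23
  refine r7 ((elem hl 2).back H7 (-h7 2 3) ?_)
  convert reach_one (l := l) using 1
  ext a b
  fin_cases a <;> fin_cases b <;>
    simp [EL, Matrix.mul_apply, Fin.sum_univ_four, a0, a1, a2, a3, b0, b1, b2, b3, d02, d03, d12,
      d13, z7', v2, v3]

/-- On the cube of the standard torus every affine map with integral symplectic linear part is the
restriction of a Hamiltonian diffeomorphism. -/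
theorem move_sp (hl : l ≠ 0) {g : Matrix (Fin 4) (Fin 4) ℤ} (G : IsSp g) {K : Set (Fin 4 → ℝ)}
    {r : ℝ} (hr : r < 1 / 2) (m t : Fin 4 → ℝ) (hx : ∀ x ∈ K, ∀ k, |x k - m k| ≤ r) :
    Move (stdW l) K (fun x => g.map (fun b : ℤ => (b : ℝ)) *ᵥ x + t) := by
  set τ : Fin 4 → ℝ := t + g.map (fun b : ℤ => (b : ℝ)) *ᵥ m - m with hτ
  have t0 := std_shift hl (move_id (stdW l) K) 0 1 0 0 hr (m 1)
    (fun x h => by simpa using hx x h 1) (τ 0)
  have t1 := std_shift hl t0 (-1) 0 0 0 hr (-(m 0 + τ 0)) (fun x h => by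
    rw [← abs_neg]; convert hx x h 0 using 2; simp; ring) (τ 1)
  have t2 := std_shift hl t1 0 0 0 1 hr (m 3) (fun x h => by simpa using hx x h 3) (τ 2)
  have t3 := (std_shift hl t2 0 0 (-1) 0 hr (-(m 2 + τ 2)) (fun x h => by
    rw [← abs_neg]; convert hx x h 2 using 2; simp; ring) (τ 3)).congr (g := fun x => x + τ)
    fun x _ => by funext k; rw [Pi.add_apply]; fin_cases k <;> simp
  obtain ⟨f, hf, e⟩ := reach_all hl G.inv ((fun x => x + τ) '' K) r (m + τ) hr (by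
    rintro _ ⟨x, h, rfl⟩ k
    simpa using hx x h k)
  refine (t3.comp hf).congr fun x _ => ?_
  set h := -(JZ * gᵀ * JZ) with hh
  have e1 : h.map (fun b : ℤ => (b : ℝ)) *ᵥ (f (x + τ) - (m + τ)) = x - m := by
    funext k
    have := e (x + τ) k
    simpa [mulVec, dotProduct] using this
  have e2 : g.map (fun b : ℤ => (b : ℝ)) * h.map (fun b : ℤ => (b : ℝ)) = 1 := by
    have a := congrArg (Int.castRingHom ℝ).mapMatrix (mul_eq_one_comm.1 G.inv_mul)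
    rw [map_mul, map_one] at a
    exact a
  have e3 := congrArg (fun w => g.map (fun b : ℤ => (b : ℝ)) *ᵥ w) e1
  simp only [mulVec_mulVec, e2, one_mulVec] at e3
  rw [mulVec_sub, sub_eq_iff_eq_add] at e3
  rw [e3, hτ]
  abel

theorem disp_sp {W : Matrix (Fin 4) (Fin 4) ℝ} (hW : Wᵀ = -W) {v : (Fin 4 → ℤ) → (Fin 4 → ℝ)}
    (hv : Dual W v) (P : Matrix (Fin 4) (Fin 4) ℤ) (hP : P.det ≠ 0) (M : Matrix (Fin 4) (Fin 4) ℝ)
    (h1 : ∀ i, M i i = 1) (h0 : ∀ i j, i < j → M i j = 0) (D : Fin 4 → ℝ) (hD : ∀ i, 0 < D i)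
    (hDp : ∏ i, D i = 1) (z : (Fin 4 → ℝ) → (Fin 4 → ℝ))
    (hz : ∀ x, z x = M *ᵥ (P.map (fun b : ℤ => (b : ℝ)) *ᵥ x)) (hl : l ≠ 0)
    (hW' : ∀ x u, x ⬝ᵥ (W *ᵥ u) = (D * z x) ⬝ᵥ (stdW l *ᵥ (D * z u)))
    {K : Set (Fin 4 → ℝ)} (hK : IsCompact K)
    (hwid : ∀ x ∈ K, ∀ x' ∈ K, ∀ i, |z x i - z x' i| < 1 ∧ D i * |z x i - z x' i| < 1)
    {g : Matrix (Fin 4) (Fin 4) ℤ} (G : IsSp g) (t : Fin 4 → ℝ)
    {χ : (Fin 4 → ℝ) → (Fin 4 → ℝ)} (hχ : Ham (stdW l) χ)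
    (hsw : ∀ x ∈ K, ∀ x' ∈ K, ∀ n : Fin 4 → ℤ,
      χ (g.map (fun b : ℤ => (b : ℝ)) *ᵥ (D * z x) + t) ≠ D * z x' + zc n) : Disp W K := by
  refine disp_transfer hW hv P hP M h1 h0 D hD hDp z hz (stdW l) hW' hK hwid ?_
  rcases K.eq_empty_or_nonempty with rfl | hne
  · obtain ⟨ψ, hψ, -⟩ := move_id (stdW l) ∅
    exact ⟨ψ, hψ, by simp⟩
  have hzc : Continuous z := by
    rw [show z = fun x => M *ᵥ (P.map (fun b : ℤ => (b : ℝ)) *ᵥ x) from funext hz]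
    fun_prop
  obtain ⟨m, s, ε, hε, -, hεs, hm⟩ := exists_centre hK hne hzc hD hwid
  obtain ⟨ψ, hψ, e⟩ := move_sp hl G (K := (fun x => D * z x) '' K) (r := (1 - ε) / 2)
    (by linarith) (D * m) t (by
      rintro _ ⟨x, hx, rfl⟩ k
      have a := box_mul hD (hm x hx) k
      have b := (hεs k).2
      rw [mul_sub] at a
      simp only [Pi.mul_apply, Pi.sub_apply] at a ⊢
      linarith)
  refine ⟨_, hψ.comp hχ, ?_⟩
  rintro _ ⟨x, hx, rfl⟩ _ ⟨x', hx', rfl⟩ n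
  rw [e _ (mem_image_of_mem _ hx)]
  exact hsw x hx x' hx' n

/-- Hamiltonian maps of the standard form are Hamiltonian for its multiples. -/
lemma ham_std {H : ℝ → (Fin 4 → ℝ) → ℝ} {φ V : ℝ → (Fin 4 → ℝ) → (Fin 4 → ℝ)}
    (a1 : ContDiff ℝ ∞ (fun p : ℝ × (Fin 4 → ℝ) => H p.1 p.2))
    (a2 : ∀ t x (n : Fin 4 → ℤ), H t (x + zc n) = H t x) (a3 : ∀ x, φ 0 x = x)
    (a4 : ∀ t x, HasDerivAt (fun s => φ s x) (V t (φ t x)) t)
    (a5 : ∀ t y (v : Fin 4 → ℝ), V t y 0 * v 1 - V t y 1 * v 0 + V t y 2 * v 3 - V t y 3 * v 2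
      = fderiv ℝ (H t) y v) : Ham (stdW l) (φ 1) := by
  refine ⟨fun t y => l * H t y, contDiff_const.mul a1, fun t x n => by simp only [a2], φ, V, a3, a4,
    fun t y v => ?_, rfl⟩
  rw [stdW_dot, a5, fderiv_const_mul (slice_diff a1 t y)]
  simp

end Pool.Agent.Lib.MP_fac2a6_gt
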