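import Pool.Agent.Lib.MP_fac2a6_gt.TrMain

/-!
The exchange of the two factors on the cube of the standard torus.
-/

namespace Pool.Agent.Lib.MP_fac2a6_gt

open Set Filter Topology Metric Function Matrix
open scoped ContDiff

variable {W : Matrix (Fin 4) (Fin 4) ℝ}

/-- A smooth periodic function that is the coordinate itself on a short interval. -/
lemma exists_saw {r : ℝ} (hr : r < 1 / 2) (c : ℝ) :
    ∃ a : ℝ → ℝ, ContDiff ℝ ∞ a ∧ (∀ s (m : ℤ), a (s + m) = a s) ∧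
      ∀ s, |s - c| ≤ r → a s = s - c ∧ deriv a s = 1 := by
  obtain ⟨h, hs, hp, hd⟩ := exists_profile (r := (r + 1 / 2) / 2) (by linarith) c 1 0
  refine ⟨deriv h, (contDiff_infty_iff_deriv.1 hs).2, fun s m => ?_, fun s hs' => ⟨?_, ?_⟩⟩
  · rw [← deriv_comp_add_const]
    simp only [hp]
  · rw [hd s (by linarith)]; ring
  · have e : deriv h =ᶠ[𝓝 s] fun s => s - c := by
      have hδ : 0 < (1 / 2 - r) / 2 := by linarith
      filter_upwards [ball_mem_nhds s hδ] with s' hs''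
      rw [mem_ball, Real.dist_eq, abs_lt] at hs''
      rw [abs_le] at hs'
      rw [hd s' (by rw [abs_le]; constructor <;> linarith)]
      ring
    rw [e.deriv_eq]
    simp

lemma ham_two {ξ η : Fin 4 → ℤ} {u w : Fin 4 → ℝ} (hu : ∀ z, u ⬝ᵥ (W *ᵥ z) = zc ξ ⬝ᵥ z)
    (hw : ∀ z, w ⬝ᵥ (W *ᵥ z) = zc η ⬝ᵥ z) (h1 : zc ξ ⬝ᵥ u = 0) (h2 : zc ξ ⬝ᵥ w = 0)
    (h3 : zc η ⬝ᵥ u = 0) (h4 : zc η ⬝ᵥ w = 0) {a b : ℝ → ℝ} (ha : ContDiff ℝ ∞ a)
    (hb : ContDiff ℝ ∞ b) (hap : ∀ s (m : ℤ), a (s + m) = a s)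
    (hbp : ∀ s (m : ℤ), b (s + m) = b s) (κ : ℝ) :
    Ham W (fun x => x + κ • ((deriv a (zc ξ ⬝ᵥ x) * b (zc η ⬝ᵥ x)) • u
      + (a (zc ξ ⬝ᵥ x) * deriv b (zc η ⬝ᵥ x)) • w)) := by
  have mk : ∀ ζ : Fin 4 → ℤ, ∃ L : (Fin 4 → ℝ) →L[ℝ] ℝ, ∀ x, L x = zc ζ ⬝ᵥ x := fun ζ =>
    ⟨LinearMap.toContinuousLinearMap
      { toFun := fun x => zc ζ ⬝ᵥ x
        map_add' := fun a b => dotProduct_add _ _ _
        map_smul' := fun c a => dotProduct_smul _ _ _ }, fun _ => rfl⟩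
  obtain ⟨L, hL⟩ := mk ξ
  obtain ⟨L', hL'⟩ := mk η
  set Z : (Fin 4 → ℝ) → (Fin 4 → ℝ) := fun x => κ • ((deriv a (zc ξ ⬝ᵥ x) * b (zc η ⬝ᵥ x)) • u
      + (a (zc ξ ⬝ᵥ x) * deriv b (zc η ⬝ᵥ x)) • w) with hZ
  refine ⟨fun _ y => κ * (a (L y) * b (L' y)), ?_, fun t x n => ?_,
    fun t x => x + t • Z x, fun _ y => Z y, fun x => by simp, fun t x => ?_, fun t y z => ?_, ?_⟩
  · exact contDiff_const.mul ((ha.comp (L.contDiff.comp contDiff_snd)).mul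
      (hb.comp (L'.contDiff.comp contDiff_snd)))
  · simp only [hL, hL']
    rw [dotProduct_add, dotProduct_add, zc_dot, zc_dot, hap, hbp]
  · have e : Z (x + t • Z x) = Z x := by
      have e1 : zc ξ ⬝ᵥ (x + t • Z x) = zc ξ ⬝ᵥ x := by
        simp only [hZ, dotProduct_add, dotProduct_smul, h1, h2, smul_zero, add_zero]
      have e2 : zc η ⬝ᵥ (x + t • Z x) = zc η ⬝ᵥ x := by
        simp only [hZ, dotProduct_add, dotProduct_smul, h3, h4, smul_zero, add_zero]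
      have hZ' : ∀ y, Z y = κ • ((deriv a (zc ξ ⬝ᵥ y) * b (zc η ⬝ᵥ y)) • u
        + (a (zc ξ ⬝ᵥ y) * deriv b (zc η ⬝ᵥ y)) • w) := fun _ => rfl
      rw [hZ' (x + t • Z x), e1, e2]
    simp only [e]
    simpa using ((hasDerivAt_id' t).smul_const (Z x)).const_add x
  · have d1 := ((ha.differentiable (by simp)) (L y)).hasDerivAt.comp_hasFDerivAt y L.hasFDerivAt
    have d2 := ((hb.differentiable (by simp)) (L' y)).hasDerivAt.comp_hasFDerivAt y L'.hasFDerivAt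
    have d3 : fderiv ℝ (fun y => κ * (a (L y) * b (L' y))) y = _ :=
      ((d1.fun_mul d2).const_mul κ).fderiv
    simp only
    rw [d3]
    simp only [hZ, smul_dotProduct, add_dotProduct, hu, hw, _root_.smul_apply,
      _root_.add_apply, smul_eq_mul, hL, hL', Function.comp]
    ring
  · funext x
    simp [hZ]

lemma move_two {K : Set (Fin 4 → ℝ)} {f : (Fin 4 → ℝ) → (Fin 4 → ℝ)} (hf : Move W K f)
    (ξ η : Fin 4 → ℤ) (u w : Fin 4 → ℝ) (hu : ∀ z, u ⬝ᵥ (W *ᵥ z) = zc ξ ⬝ᵥ z)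
    (hw : ∀ z, w ⬝ᵥ (W *ᵥ z) = zc η ⬝ᵥ z) (h1 : zc ξ ⬝ᵥ u = 0) (h2 : zc ξ ⬝ᵥ w = 0)
    (h3 : zc η ⬝ᵥ u = 0) (h4 : zc η ⬝ᵥ w = 0) {r : ℝ} (hr : r < 1 / 2) (c d : ℝ)
    (hx : ∀ x ∈ K, |zc ξ ⬝ᵥ f x - c| ≤ r ∧ |zc η ⬝ᵥ f x - d| ≤ r) (κ : ℝ) :
    Move W K (fun x => f x + κ • ((zc η ⬝ᵥ f x - d) • u + (zc ξ ⬝ᵥ f x - c) • w)) := by
  obtain ⟨a, a1, a2, a3⟩ := exists_saw hr c
  obtain ⟨b, b1, b2, b3⟩ := exists_saw hr d
  refine hf.comp (g := fun y => y + κ • ((zc η ⬝ᵥ y - d) • u + (zc ξ ⬝ᵥ y - c) • w))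
    ⟨_, ham_two hu hw h1 h2 h3 h4 a1 b1 a2 b2 κ, ?_⟩
  rintro _ ⟨x, h, rfl⟩
  simp only [(a3 _ (hx x h).1).1, (a3 _ (hx x h).1).2, (b3 _ (hx x h).2).1, (b3 _ (hx x h).2).2,
    one_mul, mul_one]

lemma move_shift {K : Set (Fin 4 → ℝ)} {f : (Fin 4 → ℝ) → (Fin 4 → ℝ)} (hf : Move W K f)
    (ξ : Fin 4 → ℤ) (u : Fin 4 → ℝ) (hu : ∀ z, u ⬝ᵥ (W *ᵥ z) = zc ξ ⬝ᵥ z) (h1 : zc ξ ⬝ᵥ u = 0)
    {r : ℝ} (hr : r < 1 / 2) (c : ℝ) (hx : ∀ x ∈ K, |zc ξ ⬝ᵥ f x - c| ≤ r) (κ : ℝ) :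
    Move W K (fun x => f x + κ • u) := by
  obtain ⟨h, hs, hp, hd⟩ := exists_profile hr c 0 κ
  refine hf.comp (g := fun y => y + κ • u) ⟨_, ham_shear hu h1 hs hp, ?_⟩
  rintro _ ⟨x, h, rfl⟩
  simp only [hd _ (hx x h), zero_mul, zero_add]

/-- The standard form scaled by `l`. -/
def stdW (l : ℝ) : Matrix (Fin 4) (Fin 4) ℝ := !![0, l, 0, 0; -l, 0, 0, 0; 0, 0, 0, l; 0, 0, -l, 0]

lemma stdW_dot (l : ℝ) (u z : Fin 4 → ℝ) :
    u ⬝ᵥ (stdW l *ᵥ z) = l * (u 0 * z 1 - u 1 * z 0 + u 2 * z 3 - u 3 * z 2) := by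
  simp [stdW, dotProduct, mulVec, Fin.sum_univ_four]
  ring

lemma zc_vec (a b c d : ℤ) (x : Fin 4 → ℝ) :
    zc ![a, b, c, d] ⬝ᵥ x = a * x 0 + b * x 1 + c * x 2 + d * x 3 := by
  simp [zc, dotProduct, Fin.sum_univ_four]

/-- A shear along two commuting integral covectors on the standard torus. -/
lemma std_two {l : ℝ} (hl : l ≠ 0) {K : Set (Fin 4 → ℝ)} {f : (Fin 4 → ℝ) → (Fin 4 → ℝ)}
    (hf : Move (stdW l) K f) (a b c d a' b' c' d' : ℤ)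
    (h : a' * b - b' * a + c' * d - d' * c = 0) {r : ℝ} (hr : r < 1 / 2) (s t : ℝ)
    (p q : (Fin 4 → ℝ) → ℝ) (hp : ∀ x, a * f x 0 + b * f x 1 + c * f x 2 + d * f x 3 - s = p x)
    (hq : ∀ x, a' * f x 0 + b' * f x 1 + c' * f x 2 + d' * f x 3 - t = q x)
    (hx : ∀ x ∈ K, |p x| ≤ r ∧ |q x| ≤ r) (κ : ℝ) :
    Move (stdW l) K (fun x => ![f x 0 + κ * (q x * b + p x * b'), f x 1 - κ * (q x * a + p x * a'),
      f x 2 + κ * (q x * d + p x * d'), f x 3 - κ * (q x * c + p x * c')]) := by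
  have h' : (a' : ℝ) * b - b' * a + c' * d - d' * c = 0 := by exact_mod_cast h
  refine (move_two hf ![a, b, c, d] ![a', b', c', d'] ![b / l, -a / l, d / l, -c / l]
    ![b' / l, -a' / l, d' / l, -c' / l] (fun z => ?_) (fun z => ?_) ?_ ?_ ?_ ?_ hr s t
    (fun x h => by rw [zc_vec, zc_vec, hp, hq]; exact hx x h) (κ * l)).congr fun x _ => ?_
  · rw [stdW_dot, zc_vec]; simp; field_simp; ring
  · rw [stdW_dot, zc_vec]; simp; field_simp; ring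
  · rw [zc_vec]; simp; field_simp; ring
  · rw [zc_vec]; simp; field_simp; linarith
  · rw [zc_vec]; simp; field_simp; linarith
  · rw [zc_vec]; simp; field_simp; ring
  · rw [zc_vec, zc_vec, hp, hq]
    funext k
    simp only [Pi.add_apply, Pi.smul_apply, smul_eq_mul]
    fin_cases k <;> simp <;> field_simp <;> ring

lemma move_id (W : Matrix (Fin 4) (Fin 4) ℝ) (K : Set (Fin 4 → ℝ)) : Move W K (fun x => x) :=
  ⟨fun x => x, ⟨fun _ _ => 0, contDiff_const, fun _ _ _ => rfl, fun _ x => x, fun _ _ => 0,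
    fun _ => rfl, fun t x => hasDerivAt_const t x, fun _ _ _ => by simp, rfl⟩, fun _ _ => rfl⟩

/-- A translation along the Hamiltonian vector of an integral covector on the standard torus. -/
lemma std_shift {l : ℝ} (hl : l ≠ 0) {K : Set (Fin 4 → ℝ)} {f : (Fin 4 → ℝ) → (Fin 4 → ℝ)}
    (hf : Move (stdW l) K f) (a b c d : ℤ) {r : ℝ} (hr : r < 1 / 2) (s : ℝ)
    (hx : ∀ x ∈ K, |a * f x 0 + b * f x 1 + c * f x 2 + d * f x 3 - s| ≤ r) (κ : ℝ) :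
    Move (stdW l) K
      (fun x => ![f x 0 + κ * b, f x 1 - κ * a, f x 2 + κ * d, f x 3 - κ * c]) := by
  refine (move_shift hf ![a, b, c, d] ![b / l, -a / l, d / l, -c / l] (fun z => ?_) ?_ hr s
    (fun x h => by rw [zc_vec]; exact hx x h) (κ * l)).congr fun x _ => ?_
  · rw [stdW_dot, zc_vec]; simp; field_simp; ring
  · rw [zc_vec]; simp; field_simp; ring
  · funext k
    simp only [Pi.add_apply, Pi.smul_apply, smul_eq_mul]
    fin_cases k <;> simp <;> field_simp <;> ring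

/-- On the cube of the standard torus the exchange of the two factors followed by any translation
is the restriction of a Hamiltonian diffeomorphism. -/
theorem move_swap {l : ℝ} (hl : l ≠ 0) {K : Set (Fin 4 → ℝ)} {r : ℝ} (hr : r < 1 / 2)
    (m t : Fin 4 → ℝ) (hx : ∀ x ∈ K, ∀ k, |x k - m k| ≤ r) :
    Move (stdW l) K (fun x => ![x 2 + t 0, x 3 + t 1, x 0 + t 2, x 1 + t 3]) := by
  have s1 := (std_two hl (move_id (stdW l) K) 1 0 0 0 0 0 1 0 (by norm_num) hr (m 0) (m 2)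
    (fun x => x 0 - m 0) (fun x => x 2 - m 2) (fun x => by simp) (fun x => by simp)
    (fun x h => ⟨hx x h 0, hx x h 2⟩) (-1)).congr
    (g := fun x => ![x 0, x 1 + (x 2 - m 2), x 2, x 3 + (x 0 - m 0)])
    fun x _ => by funext k; fin_cases k <;> simp <;> ring
  have s2 := (std_two hl s1 0 1 (-1) 0 (-1) 0 0 1 (by norm_num) hr (m 1 - m 2) (m 3 - m 0)
    (fun x => x 1 - m 1) (fun x => x 3 - m 3) (fun x => by simp; ring) (fun x => by simp; ring)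
    (fun x h => ⟨hx x h 1, hx x h 3⟩) (-1)).congr
    (g := fun x => ![x 0 - (x 3 - m 3), m 1 + (x 2 - m 2), x 2 - (x 1 - m 1), m 3 + (x 0 - m 0)])
    fun x _ => by funext k; fin_cases k <;> simp <;> ring
  have s3 := (std_two hl s2 0 0 0 1 0 1 0 0 (by norm_num) hr (m 3) (m 1)
    (fun x => x 0 - m 0) (fun x => x 2 - m 2) (fun x => by simp) (fun x => by simp)
    (fun x h => ⟨hx x h 0, hx x h 2⟩) (-1)).congr
    (g := fun x => ![m 0 - (x 3 - m 3), m 1 + (x 2 - m 2), m 2 - (x 1 - m 1), m 3 + (x 0 - m 0)])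
    fun x _ => by funext k; fin_cases k <;> simp <;> ring
  have s4 := (std_two hl s3 (-1) 0 0 0 (-1) 0 0 0 (by norm_num) hr (-m 0) (-m 0)
    (fun x => x 3 - m 3) (fun x => x 3 - m 3) (fun x => by simp) (fun x => by simp)
    (fun x h => ⟨hx x h 3, hx x h 3⟩) (1 / 2)).congr
    (g := fun x => ![m 0 - (x 3 - m 3), m 1 + (x 2 - m 2) + (x 3 - m 3), m 2 - (x 1 - m 1),
      m 3 + (x 0 - m 0)])
    fun x _ => by funext k; fin_cases k <;> simp <;> ring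
  have s5 := (std_two hl s4 1 1 0 0 1 1 0 0 (by norm_num) hr (m 0 + m 1) (m 0 + m 1)
    (fun x => x 2 - m 2) (fun x => x 2 - m 2) (fun x => by simp) (fun x => by simp)
    (fun x h => ⟨hx x h 2, hx x h 2⟩) (1 / 2)).congr
    (g := fun x => ![m 0 - (x 3 - m 3) + (x 2 - m 2), m 1 + (x 3 - m 3), m 2 - (x 1 - m 1),
      m 3 + (x 0 - m 0)])
    fun x _ => by funext k; fin_cases k <;> simp <;> ring
  have s6 := (std_two hl s5 0 1 0 0 0 1 0 0 (by norm_num) hr (m 1) (m 1)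
    (fun x => x 3 - m 3) (fun x => x 3 - m 3) (fun x => by simp) (fun x => by simp)
    (fun x h => ⟨hx x h 3, hx x h 3⟩) (1 / 2)).congr
    (g := fun x => ![m 0 + (x 2 - m 2), m 1 + (x 3 - m 3), m 2 - (x 1 - m 1), m 3 + (x 0 - m 0)])
    fun x _ => by funext k; fin_cases k <;> simp <;> ring
  have s7 := (std_two hl s6 0 0 (-1) 0 0 0 (-1) 0 (by norm_num) hr (-m 2) (-m 2)
    (fun x => x 1 - m 1) (fun x => x 1 - m 1) (fun x => by simp) (fun x => by simp)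
    (fun x h => ⟨hx x h 1, hx x h 1⟩) (1 / 2)).congr
    (g := fun x => ![m 0 + (x 2 - m 2), m 1 + (x 3 - m 3), m 2 - (x 1 - m 1),
      m 3 + (x 0 - m 0) + (x 1 - m 1)])
    fun x _ => by funext k; fin_cases k <;> simp <;> ring
  have s8 := (std_two hl s7 0 0 1 1 0 0 1 1 (by norm_num) hr (m 2 + m 3) (m 2 + m 3)
    (fun x => x 0 - m 0) (fun x => x 0 - m 0) (fun x => by simp) (fun x => by simp)
    (fun x h => ⟨hx x h 0, hx x h 0⟩) (1 / 2)).congr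
    (g := fun x => ![m 0 + (x 2 - m 2), m 1 + (x 3 - m 3), m 2 - (x 1 - m 1) + (x 0 - m 0),
      m 3 + (x 1 - m 1)])
    fun x _ => by funext k; fin_cases k <;> simp <;> ring
  have s9 := (std_two hl s8 0 0 0 1 0 0 0 1 (by norm_num) hr (m 3) (m 3)
    (fun x => x 1 - m 1) (fun x => x 1 - m 1) (fun x => by simp) (fun x => by simp)
    (fun x h => ⟨hx x h 1, hx x h 1⟩) (1 / 2)).congr
    (g := fun x => ![m 0 + (x 2 - m 2), m 1 + (x 3 - m 3), m 2 + (x 0 - m 0), m 3 + (x 1 - m 1)])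
    fun x _ => by funext k; fin_cases k <;> simp <;> ring
  have t0 := std_shift hl s9 0 1 0 0 hr (m 1) (fun x h => by simpa using hx x h 3)
    (t 0 - m 0 + m 2)
  have t1 := std_shift hl t0 (-1) 0 0 0 hr (-(t 0 + m 2)) (fun x h => by
    rw [← abs_neg]; convert hx x h 2 using 2; simp; ring) (t 1 - m 1 + m 3)
  have t2 := std_shift hl t1 0 0 0 1 hr (m 3) (fun x h => by simpa using hx x h 1)
    (t 2 - m 2 + m 0)
  have t3 := std_shift hl t2 0 0 (-1) 0 hr (-(t 2 + m 0)) (fun x h => by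
    rw [← abs_neg]; convert hx x h 0 using 2; simp; ring) (t 3 - m 3 + m 1)
  exact t3.congr fun x _ => by funext k; fin_cases k <;> simp <;> ring

theorem disp_swap (hW : Wᵀ = -W) {v : (Fin 4 → ℤ) → (Fin 4 → ℝ)} (hv : Dual W v)
    (P : Matrix (Fin 4) (Fin 4) ℤ) (hP : P.det ≠ 0) (M : Matrix (Fin 4) (Fin 4) ℝ)
    (h1 : ∀ i, M i i = 1) (h0 : ∀ i j, i < j → M i j = 0) (D : Fin 4 → ℝ) (hD : ∀ i, 0 < D i)
    (hDp : ∏ i, D i = 1) (z y : (Fin 4 → ℝ) → (Fin 4 → ℝ))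
    (hz : ∀ x, z x = M *ᵥ (P.map (fun b : ℤ => (b : ℝ)) *ᵥ x)) (hy : ∀ x, y x = D * z x)
    {l : ℝ} (hl : l ≠ 0)
    (hW' : ∀ x u, x ⬝ᵥ (W *ᵥ u)
      = l * (y x 0 * y u 1 - y x 1 * y u 0 + y x 2 * y u 3 - y x 3 * y u 2))
    {K : Set (Fin 4 → ℝ)} (hK : IsCompact K)
    (hwid : ∀ x ∈ K, ∀ x' ∈ K, ∀ i, |z x i - z x' i| < 1 ∧ |y x i - y x' i| < 1) (t : Fin 4 → ℝ)
    (hsw : ∀ x ∈ K, ∀ x' ∈ K, ∀ n : Fin 4 → ℤ,
      ![y x 2 + t 0, y x 3 + t 1, y x 0 + t 2, y x 1 + t 3] ≠ y x' + zc n) : Disp W K := by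
  obtain rfl : y = fun x => D * z x := funext hy
  have hwid' : ∀ x ∈ K, ∀ x' ∈ K, ∀ i, |z x i - z x' i| < 1 ∧ D i * |z x i - z x' i| < 1 :=
    fun x h x' h' i => ⟨(hwid x h x' h' i).1, by
      have : |D i * z x i - D i * z x' i| < 1 := (hwid x h x' h' i).2
      rwa [← mul_sub, abs_mul, abs_of_pos (hD i)] at this⟩
  refine disp_transfer hW hv P hP M h1 h0 D hD hDp z hz (stdW l)
    (fun x u => by rw [stdW_dot]; exact hW' x u) hK hwid' ?_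
  rcases K.eq_empty_or_nonempty with rfl | hne
  · obtain ⟨ψ, hψ, -⟩ := move_id (stdW l) ∅
    exact ⟨ψ, hψ, by simp⟩
  have hzc : Continuous z := by
    rw [show z = fun x => M *ᵥ (P.map (fun b : ℤ => (b : ℝ)) *ᵥ x) from funext hz]
    fun_prop
  obtain ⟨m, s, ε, hε, -, hεs, hm⟩ := exists_centre hK hne hzc hD hwid'
  obtain ⟨ψ, hψ, e⟩ := move_swap hl (K := (fun x => D * z x) '' K) (r := (1 - ε) / 2)
    (by linarith) (D * m) t (by
      rintro _ ⟨x, hx, rfl⟩ k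
      have a := box_mul hD (hm x hx) k
      have b := (hεs k).2
      rw [mul_sub] at a
      simp only [Pi.mul_apply, Pi.sub_apply] at a ⊢
      linarith)
  refine ⟨ψ, hψ, ?_⟩
  rintro _ ⟨x, hx, rfl⟩ _ ⟨x', hx', rfl⟩ n
  rw [e _ (mem_image_of_mem _ hx)]
  exact hsw x hx x' hx' n

end Pool.Agent.Lib.MP_fac2a6_gt
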